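import Pool.Agent.H96.UO.Rigid

/-!
# Steep universal optimality: the theorem
-/

set_option autoImplicit false
set_option linter.unusedSectionVars false

open Real Set
open scoped ENNReal

namespace Pool.Agent.H96.UO

open Classical in
/-- `E_p` of the periodic configuration `⋃ (x j + L)`, `p r = g (r ^ 2)`, as a number in `[0, ∞]` -/
noncomputable def energy (L : Submodule ℤ ℂ) {N : ℕ} (x : Fin N → ℂ) (g : ℝ → ℝ) : ℝ≥0∞ :=
  (∑ j, ∑ k, ∑' v : L, if x j - x k + v = 0 then 0 else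
    ENNReal.ofReal (g (‖x j - x k + v‖ ^ 2))) / N

/-- `E_p` of the hexagonal lattice with minimal squared distance `A`, `p r = g (r ^ 2)` -/
noncomputable def hexEnergy (g : ℝ → ℝ) (A : ℝ) : ℝ≥0∞ :=
  ∑' p : ℤ × ℤ, if p = 0 then 0 else
    ENNReal.ofReal (g (A * ((p.1 : ℝ) ^ 2 + p.1 * p.2 + (p.2 : ℝ) ^ 2)))

/-- the configuration is a hexagonal lattice with minimal squared distance `A`, up to a motion -/
def IsHex (L : Submodule ℤ ℂ) {N : ℕ} (x : Fin N → ℂ) (A : ℝ) : Prop :=
  ∃ p u : ℂ, ‖u‖ ^ 2 = A ∧ ∀ z : ℂ, (∃ i, z - x i ∈ L) ↔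
    ∃ a b : ℤ, z = p + u * (a + b * Complex.exp ((π / 3 : ℝ) * Complex.I))

section

variable {α : Type*} [Fintype α] [DecidableEq α] {L : Submodule ℤ ℂ} {x : α → ℂ}
  (hx : ∀ i j, x i - x j ∈ L → i = j)

include hx in
open Classical in
theorem vec_eq (F : ℂ → ℝ≥0∞) (hF : ∀ z, F (-z) = F z) (i : α) :
    ∑ j, ∑' v : L, (if x i - x j + v = 0 then 0 else F (x i - x j + v)) =
      ∑' z, {z | z ∈ Vec L x i ∧ z ≠ 0}.indicator F z := by
  set φ : α × L → ℂ := fun q => -(x i - x q.1 + q.2) with hφ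
  have hinj : Function.Injective φ := by
    rintro ⟨j, v⟩ ⟨j', v'⟩ h
    simp only [hφ, neg_inj] at h
    have h1 : x j - x j' = ((v - v' : L) : ℂ) := by
      push_cast
      linear_combination (-1 : ℂ) * h
    have h2 : j = j' := hx _ _ (by rw [h1]; exact (v - v').2)
    subst h2
    have h3 : (v : ℂ) = v' := by linear_combination h
    rw [Subtype.ext h3]
  have hsupp : Function.support ({z | z ∈ Vec L x i ∧ z ≠ 0}.indicator F) ⊆ Set.range φ := by
    intro z hz
    have h1 := Set.support_indicator_subset hz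
    obtain ⟨⟨j, hj⟩, -⟩ := h1
    refine ⟨(j, ⟨-(z - (x j - x i)), L.neg_mem hj⟩), ?_⟩
    simp only [hφ]
    ring
  rw [← hinj.tsum_eq hsupp, ENNReal.tsum_prod', tsum_fintype]
  refine Finset.sum_congr rfl fun j _ => tsum_congr fun v => ?_
  by_cases h0 : x i - x j + v = 0
  · rw [if_pos h0, Set.indicator_of_notMem]
    rintro ⟨-, h1⟩
    exact h1 (by simp only [hφ]; rw [h0, neg_zero])
  · rw [if_neg h0, Set.indicator_of_mem, ← hF]
    refine ⟨⟨j, ?_⟩, neg_ne_zero.mpr h0⟩
    have : φ (j, v) - (x j - x i) = -(v : ℂ) := by simp only [hφ]; ring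
    rw [this]
    exact L.neg_mem v.2

theorem hex_sum (g : ℝ → ℝ) {A : ℝ} {u : ℂ} (hA : 0 < A) (hu : ‖u‖ ^ 2 = A) {S : Set ℂ}
    (hS : ∀ z, z ∈ S ↔ ∃ a b : ℤ, z = u * (a + b * om)) :
    ∑' z, {z | z ∈ S ∧ z ≠ 0}.indicator (fun z => ENNReal.ofReal (g (‖z‖ ^ 2))) z =
      hexEnergy g A := by
  have hu0 : u ≠ 0 := by
    intro h
    rw [h] at hu
    simp only [norm_zero] at hu
    linarith
  set φ : ℤ × ℤ → ℂ := fun p => u * (p.1 + p.2 * om) with hφ
  have hinj : Function.Injective φ := by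
    intro p p' h
    have h1 := mul_left_cancel₀ hu0 h
    have h2 := eis_sep (a := p.1) (b := p.2) (a' := p'.1) (b' := p'.2) (by
      rw [h1, sub_self, norm_zero]; norm_num)
    exact Prod.ext h2.1 h2.2
  have hsupp : Function.support ({z | z ∈ S ∧ z ≠ 0}.indicator
      (fun z => ENNReal.ofReal (g (‖z‖ ^ 2)))) ⊆ Set.range φ := by
    intro z hz
    have h1 := Set.support_indicator_subset hz
    obtain ⟨a, b, hab⟩ := (hS z).mp h1.1
    exact ⟨(a, b), hab.symm⟩
  rw [← hinj.tsum_eq hsupp]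
  unfold hexEnergy
  refine tsum_congr fun p => ?_
  by_cases hp : p = 0
  · rw [if_pos hp, Set.indicator_of_notMem]
    rintro ⟨-, h1⟩
    exact h1 (by simp [hφ, hp])
  · rw [if_neg hp, Set.indicator_of_mem]
    · have h1 : ‖φ p‖ ^ 2 = A * ((p.1 : ℝ) ^ 2 + p.1 * p.2 + (p.2 : ℝ) ^ 2) := by
        simp only [hφ]
        rw [norm_mul, mul_pow, hu, norm_eis]
        unfold qf
        push_cast
        ring
      simp only [h1]
    · refine ⟨(hS _).mpr ⟨p.1, p.2, rfl⟩, ?_⟩
      intro h0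
      apply hp
      apply hinj
      rw [h0]
      simp [hφ]

end

section

variable {L : Submodule ℤ ℂ} {N : ℕ} {x : Fin N → ℂ}

/-- the hexagonal configurations have the hexagonal energy -/
theorem energy_of_isHex (hN : 0 < N) (hx : ∀ i j, x i - x j ∈ L → i = j) (g : ℝ → ℝ) {A : ℝ}
    (hA : 0 < A) (h : IsHex L x A) : energy L x g = hexEnergy g A := by
  obtain ⟨p, u, hu, h⟩ := h
  replace h : ∀ z : ℂ, (∃ i, z - x i ∈ L) ↔ ∃ a b : ℤ, z = p + u * (a + b * om) := h
  have hN' : (N : ℝ≥0∞) ≠ 0 := by exact_mod_cast hN.ne'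
  have h1 : ∀ i, ∑ j, ∑' v : L, (if x i - x j + v = 0 then 0 else
      ENNReal.ofReal (g (‖x i - x j + v‖ ^ 2))) = hexEnergy g A := by
    intro i
    have e := vec_eq hx (fun z => ENNReal.ofReal (g (‖z‖ ^ 2))) (fun z => by simp only [norm_neg]) i
    have hS : ∀ z, z ∈ Vec L x i ↔ ∃ a b : ℤ, z = u * (a + b * om) := by
      obtain ⟨a₀, b₀, hi⟩ := (h (x i)).mp ⟨i, by simp⟩
      intro z
      have h2 := h (z + x i)
      constructor
      · rintro ⟨j, hj⟩
        obtain ⟨a, b, hab⟩ := h2.mp ⟨j, by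
          have : z + x i - x j = z - (x j - x i) := by ring
          rw [this]; exact hj⟩
        refine ⟨a - a₀, b - b₀, ?_⟩
        have : z = (z + x i) - x i := by ring
        rw [this, hab, hi]
        push_cast
        ring
      · rintro ⟨a, b, hab⟩
        obtain ⟨j, hj⟩ := h2.mpr ⟨a + a₀, b + b₀, by
          rw [hab, hi]
          push_cast
          ring⟩
        refine ⟨j, ?_⟩
        have : z - (x j - x i) = z + x i - x j := by ring
        rw [this]
        exact hj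
    exact e.trans (hex_sum g hA hu hS)
  unfold energy
  rw [Finset.sum_congr rfl fun i _ => h1 i, Finset.sum_const, Finset.card_univ, Fintype.card_fin,
    nsmul_eq_mul, mul_comm, ENNReal.mul_div_cancel_right hN' (ENNReal.natCast_ne_top N)]

end

section

variable {L : Submodule ℤ ℂ} [DiscreteTopology L] [IsZLattice ℝ L] {N : ℕ} {x : Fin N → ℂ}

theorem scale_sum {c : ℝ} (hc : c ≠ 0) {A : ℝ} (hA : A / 3 = c ^ 2) (g : ℝ → ℝ) (j k : Fin N) :
    ∑' v : ZLattice.comap ℝ L (mulE c hc).toLinearMap,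
      (if (c:ℂ)⁻¹ * x j - (c:ℂ)⁻¹ * x k + v = 0 then 0 else
        ENNReal.ofReal (g (A / 3 * ‖(c:ℂ)⁻¹ * x j - (c:ℂ)⁻¹ * x k + v‖ ^ 2))) =
    ∑' v : L, (if x j - x k + v = 0 then 0 else ENNReal.ofReal (g (‖x j - x k + v‖ ^ 2))) := by
  have hc' : (c:ℂ) ≠ 0 := by exact_mod_cast hc
  rw [← (ZLattice.comap_equiv ℝ L (mulE c hc).toLinearEquiv).toEquiv.tsum_eq]
  refine tsum_congr fun v => ?_
  have h1 : (((ZLattice.comap_equiv ℝ L (mulE c hc).toLinearEquiv).toEquiv v :
      ZLattice.comap ℝ L (mulE c hc).toLinearMap) : ℂ) = (c:ℂ)⁻¹ * v := by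
    have h3 : mulE c hc ((c:ℂ)⁻¹ * (v : ℂ)) = (v : ℂ) := by
      rw [mulE_apply, mul_inv_cancel_left₀ hc']
    show (mulE c hc).toLinearEquiv.symm (v : ℂ) = _
    rw [LinearEquiv.symm_apply_eq]
    exact h3.symm
  rw [h1]
  have h2 : (c:ℂ)⁻¹ * x j - (c:ℂ)⁻¹ * x k + (c:ℂ)⁻¹ * v = (c:ℂ)⁻¹ * (x j - x k + v) := by ring
  rw [h2]
  have h3 : A / 3 * ‖(c:ℂ)⁻¹ * (x j - x k + v)‖ ^ 2 = ‖x j - x k + v‖ ^ 2 := by
    rw [norm_mul, norm_inv, mul_pow, Complex.norm_real, hA, norm_eq_abs, inv_pow, sq_abs]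
    field_simp
  rw [h3]
  by_cases h0 : x j - x k + v = 0
  · rw [if_pos h0, if_pos (by rw [h0, mul_zero])]
  · rw [if_neg h0, if_neg (mul_ne_zero (inv_ne_zero hc') h0)]

/-- **Steep universal optimality of the hexagonal lattice.** -/
theorem steep (hN : 0 < N) (hx : ∀ i j, x i - x j ∈ L → i = j) {g : ℝ → ℝ} {A : ℝ}
    (hA : A = 2 / √3 * (ZLattice.covolume L / N)) (hg : Steep g A) :
    hexEnergy g A ≤ energy L x g ∧ hexEnergy g A ≠ ⊤ ∧
      (energy L x g = hexEnergy g A ↔ IsHex L x A) := by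
  have hN' : (N : ℝ≥0∞) ≠ 0 := by exact_mod_cast hN.ne'
  have hNR : (0:ℝ) < N := by exact_mod_cast hN
  have hcpos := ZLattice.covolume_pos L
  have s3 : √3 * √3 = 3 := mul_self_sqrt (by norm_num)
  have s3p : 0 < √3 := by positivity
  have hA0 : 0 < A := by rw [hA]; positivity
  set c : ℝ := √(A / 3) with hcdef
  have hc0 : 0 < c := by rw [hcdef]; positivity
  have hc : c ≠ 0 := hc0.ne'
  have hc' : (c:ℂ) ≠ 0 := by exact_mod_cast hc
  have hc2 : A / 3 = c ^ 2 := by rw [hcdef, sq_sqrt (by positivity)]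
  set g' : ℝ → ℝ := fun t => g (A / 3 * t) with hg'
  have hst := hg.scale hA0
  obtain ⟨s, hs, hpot⟩ := exists_pot hst
  set L' := ZLattice.comap ℝ L (mulE c hc).toLinearMap with hL'
  set x' : Fin N → ℂ := fun i => (c:ℂ)⁻¹ * x i with hx'
  have hinj' : ∀ i j, x' i - x' j ∈ L' → i = j := by
    intro i j h
    apply hx
    have h1 := (mem_scale hc).mp h
    have : (c:ℂ) * (x' i - x' j) = x i - x j := by
      simp only [hx']
      field_simp
    rwa [this] at h1
  have hcov : ZLattice.covolume L' = (Fintype.card (Fin N) : ℝ) * (3 * √3 / 2) := by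
    have h1 := covolume_scale (L := L) hc
    rw [← hc2] at h1
    rw [Fintype.card_fin]
    have h2 : ZLattice.covolume L' * (A / 3) = ZLattice.covolume L := h1
    have h3 : ZLattice.covolume L = (N * (3 * √3 / 2)) * (A / 3) := by
      rw [hA]
      field_simp
    rw [h3] at h2
    exact mul_right_cancel₀ (by positivity) h2
  obtain ⟨K, hS, hK⟩ := norm_ineq hinj' hcov hpot hs
  have hfin := hex_finite hpot
  have e1 : ∑' p : ℤ × ℤ, (if p = 0 then 0 else ENNReal.ofReal (g' (3 * qf p.1 p.2))) =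
      hexEnergy g A := by
    unfold hexEnergy
    refine tsum_congr fun p => ?_
    have : A / 3 * (3 * (qf p.1 p.2 : ℝ)) = A * ((p.1 : ℝ) ^ 2 + p.1 * p.2 + (p.2 : ℝ) ^ 2) := by
      unfold qf
      push_cast
      ring
    simp only [hg', this]
  have e2 : ∑ i, ∑ j, ∑' v : L', (if x' i - x' j + v = 0 then 0 else
        ENNReal.ofReal (g' (‖x' i - x' j + v‖ ^ 2))) =
      ∑ i, ∑ j, ∑' v : L, (if x i - x j + v = 0 then 0 else
        ENNReal.ofReal (g (‖x i - x j + v‖ ^ 2))) :=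
    Finset.sum_congr rfl fun i _ => Finset.sum_congr rfl fun j _ => scale_sum hc hc2 g i j
  rw [e1] at hfin
  rw [e1, e2, Fintype.card_fin] at hK
  have hle : (N : ℝ≥0∞) * hexEnergy g A ≤ ∑ i, ∑ j, ∑' v : L, (if x i - x j + v = 0 then 0 else
        ENNReal.ofReal (g (‖x i - x j + v‖ ^ 2))) := le_trans le_self_add hK
  refine ⟨?_, hfin, ⟨fun heq => ?_, energy_of_isHex hN hx g hA0⟩⟩
  · unfold energy
    rw [ENNReal.le_div_iff_mul_le (Or.inl hN') (Or.inl (ENNReal.natCast_ne_top N)), mul_comm]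
    exact hle
  · -- equality
    have h1 : ∑ i, ∑ j, ∑' v : L, (if x i - x j + v = 0 then 0 else
        ENNReal.ofReal (g (‖x i - x j + v‖ ^ 2))) = N * hexEnergy g A := by
      rw [← heq]
      unfold energy
      rw [ENNReal.mul_div_cancel hN' (ENNReal.natCast_ne_top N)]
    rw [h1] at hK
    have hne : (N : ℝ≥0∞) * hexEnergy g A ≠ ⊤ := ENNReal.mul_ne_top (ENNReal.natCast_ne_top N) hfin
    have h2 := ENNReal.le_of_add_le_add_left hne (hK.trans (le_of_eq (add_zero _).symm))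
    have h3 := ENNReal.ofReal_eq_zero.mp (le_antisymm h2 zero_le)
    have hg3 : 0 < g' 3 := hst.pos 3 (by norm_num)
    have hcK : (Fintype.card K : ℝ) ≤ (N : ℝ) := by
      rw [Fintype.card_coe]
      have := Finset.card_le_univ K
      rw [Fintype.card_fin] at this
      exact_mod_cast this
    have hS2 := S2_nonneg L' (fun i : K => x' i)
    have hnb : (0:ℝ) ≤ nbad L' (fun i : K => x' i) := by positivity
    have h4 : ((N : ℝ) - Fintype.card K) + nbad L' (fun i : K => x' i) +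
        S2 L' (fun i : K => x' i) ≤ 0 := by
      by_contra hcon
      push Not at hcon
      have : 0 < s / 50000 * (((N : ℝ) - Fintype.card K) + nbad L' (fun i : K => x' i) +
        S2 L' (fun i : K => x' i)) * g' 3 := by positivity
      linarith
    have h5 : nbad L' (fun i : K => x' i) = 0 := by
      have h5 : (nbad L' (fun i : K => x' i) : ℝ) ≤ 0 := by linarith
      have h5' : nbad L' (fun i : K => x' i) ≤ 0 := by exact_mod_cast h5
      omega
    have h6 : S2 L' (fun i : K => x' i) = 0 := by linarith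
    have h7 : K = Finset.univ := by
      rw [← Finset.card_eq_iff_eq_univ, Fintype.card_fin]
      have h8 : (N:ℝ) ≤ Fintype.card K := by linarith
      rw [Fintype.card_coe] at h8
      have h9 := Finset.card_le_univ K
      rw [Fintype.card_fin] at h9
      have h10 : N ≤ K.card := by exact_mod_cast h8
      omega
    have hmem : ∀ i, i ∈ K := by intro i; rw [h7]; exact Finset.mem_univ i
    obtain ⟨u, hu, hV⟩ := rigid hS h5 h6 ⟨⟨0, hN⟩, hmem _⟩
    refine ⟨x ⟨0, hN⟩, c * u, ?_, fun z => ?_⟩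
    · rw [norm_mul, mul_pow, hu, Complex.norm_real, norm_eq_abs, sq_abs, ← hc2]
      ring
    · have h8 := hV ((c:ℂ)⁻¹ * z - x' ⟨0, hN⟩)
      show (∃ i, z - x i ∈ L) ↔ ∃ a b : ℤ, z = x ⟨0, hN⟩ + c * u * (a + b * om)
      constructor
      · rintro ⟨j, hj⟩
        obtain ⟨a, b, hab⟩ := h8.mp ⟨⟨j, hmem j⟩, by
          show _ ∈ L'
          rw [hL', mem_scale hc]
          have : (c:ℂ) * ((c:ℂ)⁻¹ * z - x' ⟨0, hN⟩ - (x' j - x' ⟨0, hN⟩)) = z - x j := by
            simp only [hx']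
            field_simp
            ring
          rw [this]
          exact hj⟩
        refine ⟨a, b, ?_⟩
        have h9 : z = x ⟨0, hN⟩ + c * ((c:ℂ)⁻¹ * z - x' ⟨0, hN⟩) := by
          simp only [hx']
          field_simp
          ring
        rw [h9, hab]
        ring
      · rintro ⟨a, b, hab⟩
        obtain ⟨⟨j, hjK⟩, hj⟩ := h8.mpr ⟨a, b, by
          rw [hab]
          simp only [hx']
          field_simp
          ring⟩
        refine ⟨j, ?_⟩
        have hj' : (c:ℂ)⁻¹ * z - x' ⟨0, hN⟩ - (x' j - x' ⟨0, hN⟩) ∈ L' := hj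
        rw [hL', mem_scale hc] at hj'
        have : (c:ℂ) * ((c:ℂ)⁻¹ * z - x' ⟨0, hN⟩ - (x' j - x' ⟨0, hN⟩)) = z - x j := by
          simp only [hx']
          field_simp
          ring
        rwa [this] at hj'

end

/-- Gaussians are steep -/
theorem steep_gauss {α A : ℝ} (hA : 0 < A) (h : 200 ≤ α * A) : Steep (fun t => exp (-α * t)) A := by
  have hα : 0 < α := by
    by_contra hcon
    push Not at hcon
    nlinarith
  refine ⟨fun t _ => exp_pos _, ?_, ?_⟩
  · refine ⟨convex_Ioi 0, fun x _ y _ a b _ _ _ => ?_⟩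
    simp only [log_exp, smul_eq_mul]
    apply le_of_eq
    ring
  · intro x hx y hy hxy
    have hx' : A ≤ x := hx
    have hx0 : 0 < x := by linarith
    have hy0 : 0 < y := by linarith
    simp only
    have hp : ∀ t : ℝ, 0 < t → exp (200 * log t) = t ^ 200 := by
      intro t ht
      rw [mul_comm, exp_mul, exp_log ht, show (200:ℝ) = ((200:ℕ):ℝ) by norm_num, rpow_natCast]
    have h1 : y ^ 200 * exp (-α * y) = exp (200 * log y - α * y) := by
      rw [sub_eq_add_neg, exp_add, neg_mul, hp y hy0]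
    have h2 : x ^ 200 * exp (-α * x) = exp (200 * log x - α * x) := by
      rw [sub_eq_add_neg, exp_add, neg_mul, hp x hx0]
    rw [h1, h2]
    apply exp_le_exp.mpr
    have h3 : log y - log x ≤ y / x - 1 := by
      rw [← log_div hy0.ne' hx0.ne']
      exact log_le_sub_one_of_pos (by positivity)
    have h4 : 200 * (y / x - 1) ≤ α * (y - x) := by
      have e : y / x - 1 = (y - x) / x := by field_simp
      rw [e, ← mul_div_assoc, div_le_iff₀ hx0]
      have : 200 ≤ α * x := h.trans (by gcongr)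
      nlinarith
    linarith

/-- powers are steep -/
theorem steep_rpow {s A : ℝ} (hs : 400 ≤ s) (hA : 0 < A) : Steep (fun t => t ^ (-s / 2)) A := by
  refine ⟨fun t ht => rpow_pos_of_pos ht _, ?_, ?_⟩
  · have h1 : ConvexOn ℝ (Ioi 0) fun t : ℝ => (s / 2) * (-log t) := by
      have h2 : ConvexOn ℝ (Ioi 0) (-log) := strictConcaveOn_log_Ioi.concaveOn.neg
      have := h2.smul (show (0:ℝ) ≤ s / 2 by linarith)
      exact this
    refine h1.congr fun t ht => ?_
    have ht' : (0:ℝ) < t := ht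
    simp only
    rw [log_rpow ht']
    ring
  · intro x hx y hy hxy
    have hx' : A ≤ x := hx
    have hx0 : 0 < x := by linarith
    have hy0 : 0 < y := by linarith
    simp only
    have h1 : ∀ t : ℝ, 0 < t → t ^ 200 * t ^ (-s / 2) = t ^ (200 - s / 2) := by
      intro t ht
      rw [← rpow_natCast, ← rpow_add ht]
      congr 1
      push_cast
      ring
    rw [h1 x hx0, h1 y hy0]
    exact rpow_le_rpow_of_nonpos hx0 hxy (by linarith)

end Pool.Agent.H96.UO
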