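import Pool.Agent.H96.UO.Full

/-!
# Steep universal optimality: the inequality in the normalisation
-/

set_option autoImplicit false
set_option linter.unusedSectionVars false

open Real Set
open scoped ENNReal

namespace Pool.Agent.H96.UO

/-- the hexagonal sum is at most six times a sum over words -/
theorem hex_le (G : ℝ → ℝ≥0∞) :
    ∑' p : ℤ × ℤ, (if p = 0 then 0 else G (3 * qf p.1 p.2)) ≤
      6 * ∑' v : {v : ℕ × ℕ // 1 ≤ v.1}, G (3 * qn v) := by
  have e1 : ∑' p : ℤ × ℤ, (if p = 0 then 0 else G (3 * qf p.1 p.2)) =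
      ∑' p : {p : ℤ × ℤ // p ≠ 0}, G (3 * qf p.1.1 p.1.2) := by
    have := tsum_subtype {p : ℤ × ℤ | p ≠ 0} fun p => G (3 * qf p.1 p.2)
    rw [show (∑' p : {p : ℤ × ℤ // p ≠ 0}, G (3 * qf p.1.1 p.1.2)) =
      ∑' p : ({p : ℤ × ℤ | p ≠ 0} : Set (ℤ × ℤ)), G (3 * qf (p : ℤ × ℤ).1 (p : ℤ × ℤ).2) from rfl,
      this]
    refine tsum_congr fun p => ?_
    by_cases hp : p = 0
    · simp [hp, Set.indicator]
    · simp [hp, Set.indicator]
  have hne : ∀ q : Fin 6 × {v : ℕ × ℕ // 1 ≤ v.1}, co q.1 q.2.1.1 q.2.1.2 ≠ 0 := by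
    intro q h0
    have h1 := qf_co q.1 q.2.1.1 q.2.1.2
    rw [h0] at h1
    have h2 := q.2.2
    have h3 := qf_pos (a := q.2.1.1) (b := q.2.1.2) (by omega)
    rw [← h1] at h3
    norm_num [qf] at h3
  set f : Fin 6 × {v : ℕ × ℕ // 1 ≤ v.1} → {p : ℤ × ℤ // p ≠ 0} :=
    fun q => ⟨co q.1 q.2.1.1 q.2.1.2, hne q⟩ with hf
  have hsurj : Function.Surjective f := by
    rintro ⟨⟨a, b⟩, hp⟩
    obtain ⟨k, m, n, h1, h2⟩ := co_surj a b hp
    exact ⟨(k, ⟨(m, n), h1⟩), Subtype.ext h2⟩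
  rw [e1]
  refine (ENNReal.tsum_le_tsum_comp_of_surjective hsurj _).trans (le_of_eq ?_)
  rw [ENNReal.tsum_prod']
  have h2 : ∀ (k : Fin 6) (v : {v : ℕ × ℕ // 1 ≤ v.1}),
      G (3 * (qf (f (k, v)).1.1 (f (k, v)).1.2 : ℝ)) = G (3 * qn v) := by
    intro k v
    have h3 : (f (k, v)).1 = co k v.1.1 v.1.2 := rfl
    rw [h3, qf_co]
    have h4 : ((qf (v.1.1 : ℤ) (v.1.2 : ℤ) : ℤ) : ℝ) = ((qn v.1 : ℕ) : ℝ) := by
      unfold qf qn
      push_cast
      ring
    rw [h4]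
  simp_rw [h2]
  rw [tsum_fintype, Finset.sum_const, Finset.card_univ, Fintype.card_fin, nsmul_eq_mul]
  norm_num

section

variable {α : Type*} [Fintype α] [DecidableEq α] {L : Submodule ℤ ℂ} {x : α → ℂ}

open Classical in
theorem vec_le (F : ℂ → ℝ≥0∞) (hF : ∀ z, F (-z) = F z) (i : α) :
    ∑' z, {z | z ∈ Vec L x i ∧ z ≠ 0}.indicator F z ≤
      ∑ j, ∑' v : L, (if x i - x j + v = 0 then 0 else F (x i - x j + v)) := by
  rw [← tsum_subtype]
  have h1 : ∀ z : ({z | z ∈ Vec L x i ∧ z ≠ 0} : Set ℂ), ∃ q : α × L,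
      x i - x q.1 + q.2 = -(z : ℂ) := by
    rintro ⟨z, ⟨j, hj⟩, hz⟩
    refine ⟨(j, ⟨-(z - (x j - x i)), L.neg_mem hj⟩), ?_⟩
    simp only
    ring
  choose q hq using h1
  have hinj : Function.Injective q := by
    intro a b hab
    have ha := hq a
    rw [hab, hq b] at ha
    exact Subtype.ext (neg_injective ha).symm
  have h2 := ENNReal.tsum_comp_le_tsum_of_injective hinj
    fun p : α × L => (if x i - x p.1 + p.2 = 0 then 0 else F (x i - x p.1 + p.2))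
  rw [ENNReal.tsum_prod', tsum_fintype (β := α)] at h2
  refine le_trans (le_of_eq (tsum_congr fun z => ?_)) h2
  rw [if_neg (by rw [hq z]; exact neg_ne_zero.mpr z.2.2), hq z, hF]

end

section

variable {α : Type*} [Fintype α] [DecidableEq α] {L : Submodule ℤ ℂ} [DiscreteTopology L]
  [IsZLattice ℝ L] {x : α → ℂ} (hx : ∀ i j, x i - x j ∈ L → i = j)
  (hcov : ZLattice.covolume L = (Fintype.card α : ℝ) * (3 * √3 / 2))

include hx hcov

open Classical in
theorem norm_ineq {g : ℝ → ℝ} {s : ℝ} (hg : Pot g s) (hs : 66 ≤ s) : ∃ K : Finset α,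
    Sep L (fun i : K => x i) ∧
    (Fintype.card α : ℝ≥0∞) *
      ∑' p : ℤ × ℤ, (if p = 0 then 0 else ENNReal.ofReal (g (3 * qf p.1 p.2))) +
      ENNReal.ofReal (s / 50000 * (((Fintype.card α : ℝ) - Fintype.card K) +
        nbad L (fun i : K => x i) + S2 L (fun i : K => x i)) * g 3) ≤
      ∑ i, ∑ j, ∑' v : L, (if x i - x j + v = 0 then 0 else
        ENNReal.ofReal (g (‖x i - x j + v‖ ^ 2))) := by
  have h0 : ∑ i, ∑' z, {z | z ∈ Vec L x i ∧ z ≠ 0}.indicator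
        (fun z => ENNReal.ofReal (g (‖z‖ ^ 2))) z ≤ ∑ i, ∑ j, ∑' v : L,
        (if x i - x j + v = 0 then 0 else ENNReal.ofReal (g (‖x i - x j + v‖ ^ 2))) :=
    Finset.sum_le_sum fun i _ => vec_le (fun z => ENNReal.ofReal (g (‖z‖ ^ 2)))
      (fun z => by simp only [norm_neg]) i
  obtain ⟨K, hS, hK⟩ := full_bound hx hcov hg hs
  refine ⟨K, hS, ?_⟩
  refine le_trans ?_ h0
  set R := ∑ i, ∑' z, {z | z ∈ Vec L x i ∧ z ≠ 0}.indicator
        (fun z => ENNReal.ofReal (g (‖z‖ ^ 2))) z with hR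
  set N : ℝ≥0∞ := (Fintype.card α : ℝ≥0∞) with hN
  have hg3 : 0 ≤ g 3 := hg.pos 3 (by norm_num)
  set δ := s / 50000 * (((Fintype.card α : ℝ) - Fintype.card K) +
        nbad L (fun i : K => x i) + S2 L (fun i : K => x i)) * g 3 with hδ
  have hδ0 : 0 ≤ δ := by
    have h1 : (Fintype.card K : ℝ) ≤ (Fintype.card α : ℝ) := by
      rw [Fintype.card_coe]
      exact_mod_cast Finset.card_le_univ K
    have h2 := S2_nonneg L (fun i : K => x i)
    have h3 : 0 ≤ (Fintype.card α : ℝ) - Fintype.card K := by linarith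
    positivity
  clear_value δ
  have hg0 : ∀ q : ℕ, 1 ≤ q → 0 ≤ g (3 * q) := by
    intro q hq
    have : (1:ℝ) ≤ q := by exact_mod_cast hq
    exact hg.pos _ (by positivity)
  have hqpos : ∀ v : ℕ × ℕ, 1 ≤ v.1 → 1 ≤ qn v := by
    intro v hv
    unfold qn
    nlinarith
  have hfin : ∀ W : Finset (ℕ × ℕ), (∀ v ∈ W, 1 ≤ v.1 ∧ v ≠ (1, 0)) →
      N * (6 * ENNReal.ofReal (g 3) + ∑ v ∈ W, 6 * ENNReal.ofReal (g (3 * qn v))) +
        ENNReal.ofReal δ ≤ R := by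
    intro W hW
    refine le_trans (le_of_eq ?_) (hK W hW)
    have hWn : ∀ v ∈ W, 0 ≤ 6 * g (3 * qn v) := fun v hv =>
      mul_nonneg (by norm_num) (hg0 _ (hqpos v (hW v hv).1))
    have hs6 : 0 ≤ 6 * g 3 + ∑ v ∈ W, 6 * g (3 * qn v) :=
      add_nonneg (by positivity) (Finset.sum_nonneg hWn)
    rw [ENNReal.ofReal_add (mul_nonneg (by positivity) hs6) hδ0, ENNReal.ofReal_mul (by positivity),
      ENNReal.ofReal_natCast, ENNReal.ofReal_add
      (by positivity) (Finset.sum_nonneg hWn), ENNReal.ofReal_sum_of_nonneg hWn,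
      ENNReal.ofReal_mul (by norm_num)]
    congr 3
    · norm_num
    · refine Finset.sum_congr rfl fun v _ => ?_
      rw [ENNReal.ofReal_mul (by norm_num)]
      norm_num
  have h1 := hex_le fun t => ENNReal.ofReal (g t)
  refine (add_le_add (mul_le_mul_right h1 N) le_rfl).trans ?_
  rw [← mul_assoc, ← ENNReal.tsum_mul_left, ENNReal.tsum_eq_iSup_sum, ENNReal.iSup_add]
  refine iSup_le fun A => ?_
  set W : Finset (ℕ × ℕ) := (A.map (Function.Embedding.subtype _)).erase (1, 0) with hWd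
  have hW : ∀ v ∈ W, 1 ≤ v.1 ∧ v ≠ (1, 0) := by
    intro v hv
    rw [hWd, Finset.mem_erase, Finset.mem_map] at hv
    obtain ⟨h1, a, _, rfl⟩ := hv
    exact ⟨a.2, h1⟩
  refine le_trans (add_le_add ?_ le_rfl) (hfin W hW)
  have e1 : ∑ v ∈ A, N * 6 * ENNReal.ofReal (g (3 * qn v)) =
      ∑ v ∈ A.map (Function.Embedding.subtype _), N * 6 * ENNReal.ofReal (g (3 * qn v)) := by
    rw [Finset.sum_map]
    rfl
  rw [e1]
  have e2 : ∑ v ∈ A.map (Function.Embedding.subtype _), N * 6 * ENNReal.ofReal (g (3 * qn v)) ≤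
      ∑ v ∈ insert (1, 0) W, N * 6 * ENNReal.ofReal (g (3 * qn v)) := by
    refine Finset.sum_le_sum_of_subset ?_
    intro v hv
    rw [hWd]
    by_cases h : v = (1, 0)
    · exact Finset.mem_insert.mpr (Or.inl h)
    · exact Finset.mem_insert.mpr (Or.inr (Finset.mem_erase.mpr ⟨h, hv⟩))
  refine e2.trans (le_of_eq ?_)
  rw [Finset.sum_insert (by rw [hWd]; exact Finset.notMem_erase _ _)]
  have e3 : ((qn (1, 0) : ℕ) : ℝ) = 1 := by norm_num [qn]
  rw [e3, mul_one, mul_add, Finset.mul_sum, mul_assoc]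
  congr 1
  refine Finset.sum_congr rfl fun v _ => ?_
  rw [mul_assoc]

end

/-- the hexagonal sum is finite -/
theorem hex_finite {g : ℝ → ℝ} {s : ℝ} (hg : Pot g s) :
    ∑' p : ℤ × ℤ, (if p = 0 then 0 else ENNReal.ofReal (g (3 * qf p.1 p.2))) ≠ ⊤ := by
  have h1 := hex_le fun t => ENNReal.ofReal (g t)
  refine ne_top_of_le_ne_top ?_ h1
  refine ENNReal.mul_ne_top (by norm_num) ?_
  have hg3 : 0 ≤ g 3 := hg.pos 3 (by norm_num)
  have hg0 : ∀ v : ℕ × ℕ, 1 ≤ v.1 → 0 ≤ g (3 * qn v) := by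
    intro v hv
    have : 1 ≤ qn v := by
      unfold qn
      nlinarith
    have : (1:ℝ) ≤ qn v := by exact_mod_cast this
    exact hg.pos _ (by positivity)
  have h2 : ∑' v : {v : ℕ × ℕ // 1 ≤ v.1}, ENNReal.ofReal (g (3 * qn v)) ≤
      ENNReal.ofReal (g 3 + g 3) := by
    rw [ENNReal.tsum_eq_iSup_sum]
    refine iSup_le fun A => ?_
    set W : Finset (ℕ × ℕ) := (A.map (Function.Embedding.subtype _)).erase (1, 0) with hWd
    have hW : ∀ v ∈ W, 1 ≤ v.1 ∧ v ≠ (1, 0) := by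
      intro v hv
      rw [hWd, Finset.mem_erase, Finset.mem_map] at hv
      obtain ⟨h1, a, _, rfl⟩ := hv
      exact ⟨a.2, h1⟩
    have e1 : ∑ v ∈ A, ENNReal.ofReal (g (3 * qn v)) =
        ∑ v ∈ A.map (Function.Embedding.subtype _), ENNReal.ofReal (g (3 * qn v)) := by
      rw [Finset.sum_map]
      rfl
    rw [e1]
    have e2 : ∑ v ∈ A.map (Function.Embedding.subtype _), ENNReal.ofReal (g (3 * qn v)) ≤
        ∑ v ∈ insert (1, 0) W, ENNReal.ofReal (g (3 * qn v)) := by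
      refine Finset.sum_le_sum_of_subset ?_
      intro v hv
      rw [hWd]
      by_cases h : v = (1, 0)
      · exact Finset.mem_insert.mpr (Or.inl h)
      · exact Finset.mem_insert.mpr (Or.inr (Finset.mem_erase.mpr ⟨h, hv⟩))
    refine e2.trans ?_
    rw [Finset.sum_insert (by rw [hWd]; exact Finset.notMem_erase _ _)]
    have e3 : ((qn (1, 0) : ℕ) : ℝ) = 1 := by norm_num [qn]
    rw [e3, mul_one, ENNReal.ofReal_add hg3 hg3, ← ENNReal.ofReal_sum_of_nonneg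
      fun v hv => hg0 v (hW v hv).1]
    refine add_le_add le_rfl (ENNReal.ofReal_le_ofReal ?_)
    calc ∑ v ∈ W, g (3 * qn v) ≤ ∑ v ∈ W, g (3 * qn v) * ((v.1 + v.2 : ℕ) : ℝ) ^ 8 := by
          refine Finset.sum_le_sum fun v hv => ?_
          have h3 := hg0 v (hW v hv).1
          have h4 : (1:ℝ) ≤ ((v.1 + v.2 : ℕ) : ℝ) := by
            have := (hW v hv).1
            have : 1 ≤ v.1 + v.2 := by omega
            exact_mod_cast this
          have h5 : (1:ℝ) ≤ ((v.1 + v.2 : ℕ) : ℝ) ^ 8 := one_le_pow₀ h4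
          nlinarith
      _ ≤ g 3 * (4 / 10 ^ 12) := sum_tail_le hg W hW
      _ ≤ g 3 := by nlinarith
  exact ne_top_of_le_ne_top ENNReal.ofReal_ne_top h2

end Pool.Agent.H96.UO
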