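import Pool.Agent.H96.HD.Phi

/-!
# Steep universal optimality: the overlap function

`P t = phi (arccos (√t / 2))` is half of the area of the intersection of two unit disks whose centres
are at distance `√t`.
-/

set_option autoImplicit false

open Real Set
open Pool.Agent.H96.HD (phi hasDerivAt_phi phi_pi_six)

namespace Pool.Agent.H96.UO

/-- half of the overlap area of two unit disks with centres at squared distance `t` -/
noncomputable def P (t : ℝ) : ℝ := phi (arccos (√t / 2))

theorem hasDerivAt_P {t : ℝ} (h0 : 0 < t) (h4 : t < 4) :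
    HasDerivAt P (-(√(4 - t) / √t) / 4) t := by
  have hs : 0 < √t := sqrt_pos.mpr h0
  have hs4 : 0 < √(4 - t) := sqrt_pos.mpr (by linarith)
  have hlt : √t < 2 := by
    rw [sqrt_lt' (by norm_num)]
    linarith
  have h1 : HasDerivAt (fun t => √t / 2) (1 / (2 * √t) / 2) t :=
    (hasDerivAt_sqrt h0.ne').div_const 2
  have h2 := hasDerivAt_arccos (x := √t / 2) (by linarith) (by linarith)
  have h3 := h2.comp t h1
  have h4' := (hasDerivAt_phi (arccos (√t / 2))).comp t h3
  refine HasDerivAt.congr_deriv (f := P) h4' ?_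
  have hsq : (√t / 2) ^ 2 = t / 4 := by
    rw [div_pow, sq_sqrt h0.le]; norm_num
  have e1 : sin (arccos (√t / 2)) ^ 2 = 1 - t / 4 := by
    rw [sin_arccos, sq_sqrt (by rw [hsq]; linarith), hsq]
  have e2 : √(1 - (√t / 2) ^ 2) = √(4 - t) / 2 := by
    rw [hsq, show 1 - t / 4 = (4 - t) / 2 ^ 2 by ring, sqrt_div' _ (by norm_num),
      sqrt_sq (by norm_num)]
  rw [e1, e2]
  have e3 : √(4 - t) * √(4 - t) = 4 - t := mul_self_sqrt (by linarith)
  have e4 : √t * √t = t := mul_self_sqrt h0.le
  field_simp
  nlinarith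

theorem continuous_P : Continuous P := by
  unfold P phi
  fun_prop

theorem P_three : P 3 = π / 6 - √3 / 4 := by
  unfold P
  have h1 : arccos (√3 / 2) = π / 6 := by
    rw [← cos_pi_div_six, arccos_cos (by positivity) (by linarith [pi_pos])]
  rw [h1, phi_pi_six]

theorem P_four : P 4 = 0 := by
  unfold P phi
  rw [show (4:ℝ) = 2 ^ 2 by norm_num, sqrt_sq (by norm_num)]
  simp

theorem P_of_ge {t : ℝ} (h : 4 ≤ t) : P t = 0 := by
  unfold P
  have : 1 ≤ √t / 2 := by
    have : (2:ℝ) ≤ √t := by
      rw [show (2:ℝ) = √4 by rw [show (4:ℝ) = 2 ^ 2 by norm_num, sqrt_sq (by norm_num)]]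
      exact sqrt_le_sqrt h
    linarith
  rw [arccos_of_one_le this]
  simp [phi]

theorem P_nonneg (t : ℝ) : 0 ≤ P t := by
  unfold P phi
  set a := arccos (√t / 2)
  have h1 : sin a ≤ a := sin_le (arccos_nonneg _)
  have h3 : cos a ≤ 1 := cos_le_one _
  have h4 : 0 ≤ sin a := sin_nonneg_of_nonneg_of_le_pi (arccos_nonneg _) (arccos_le_pi _)
  nlinarith

theorem P_le_pi (t : ℝ) : P t ≤ π := by
  unfold P phi
  set a := arccos (√t / 2)
  have h1 : a ≤ π := arccos_le_pi _
  have h2 : 0 ≤ √t / 2 := by positivity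
  have h3 : 0 ≤ cos a := by
    rcases le_total (√t / 2) 1 with h | h
    · rw [cos_arccos (by linarith) h]
      exact h2
    · have : a = 0 := arccos_of_one_le h
      rw [this]; simp
  have h4 : 0 ≤ sin a := sin_nonneg_of_nonneg_of_le_pi (arccos_nonneg _) (arccos_le_pi _)
  have := mul_nonneg h4 h3
  linarith

theorem sqrt3_pos : (0:ℝ) < √3 := by positivity

/-- the tangent line at `3` is below `P` -/
theorem P_ge_tangent {t : ℝ} (h1 : 1 ≤ t) (h4 : t ≤ 4) :
    P 3 - (t - 3) / (4 * √3) ≤ P t := by
  have h3 := sqrt3_pos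
  have h33 : √3 * √3 = 3 := mul_self_sqrt (by norm_num)
  set Q : ℝ → ℝ := fun t => P t + t / (4 * √3) with hQ
  have hc : Continuous Q := by
    rw [hQ]
    exact continuous_P.add (by fun_prop)
  have hd : ∀ x ∈ Ioo (0:ℝ) 4, HasDerivAt Q (-(√(4 - x) / √x) / 4 + 1 / (4 * √3)) x := by
    intro x hx
    exact (hasDerivAt_P hx.1 hx.2).add ((hasDerivAt_id x).div_const (4 * √3))
  have hkey : Q 3 ≤ Q t := by
    rcases le_total t 3 with h | h
    · -- antitone on `[t, 3]`
      have : AntitoneOn Q (Icc 1 3) := by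
        refine antitoneOn_of_deriv_nonpos (convex_Icc _ _) hc.continuousOn ?_ ?_
        · rw [interior_Icc]
          intro x hx
          exact (hd x ⟨by linarith [hx.1], by linarith [hx.2]⟩).differentiableAt.differentiableWithinAt
        · rw [interior_Icc]
          intro x hx
          rw [(hd x ⟨by linarith [hx.1], by linarith [hx.2]⟩).deriv]
          have hx0 : 0 < √x := sqrt_pos.mpr (by linarith [hx.1])
          have h5 : √x ≤ √3 * √(4 - x) := by
            rw [← sqrt_mul (by norm_num)]
            exact sqrt_le_sqrt (by linarith [hx.2])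
          have h6 : 1 / √3 ≤ √(4 - x) / √x := by
            rw [div_le_div_iff₀ h3 hx0]
            linarith
          have h7 : 1 / (4 * √3) = (1 / √3) / 4 := by field_simp
          rw [h7]
          linarith
      exact this ⟨h1, h⟩ ⟨by norm_num, le_rfl⟩ h
    · have : MonotoneOn Q (Icc 3 4) := by
        refine monotoneOn_of_deriv_nonneg (convex_Icc _ _) hc.continuousOn ?_ ?_
        · rw [interior_Icc]
          intro x hx
          exact (hd x ⟨by linarith [hx.1], hx.2⟩).differentiableAt.differentiableWithinAt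
        · rw [interior_Icc]
          intro x hx
          rw [(hd x ⟨by linarith [hx.1], hx.2⟩).deriv]
          have hx0 : 0 < √x := sqrt_pos.mpr (by linarith [hx.1])
          have h5 : √3 * √(4 - x) ≤ √x := by
            rw [← sqrt_mul (by norm_num)]
            exact sqrt_le_sqrt (by linarith [hx.1])
          have h6 : √(4 - x) / √x ≤ 1 / √3 := by
            rw [div_le_div_iff₀ hx0 h3]
            linarith
          have h7 : 1 / (4 * √3) = (1 / √3) / 4 := by field_simp
          rw [h7]
          linarith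
      exact this ⟨le_rfl, by norm_num⟩ ⟨h, h4⟩ h
  have : (t - 3) / (4 * √3) = t / (4 * √3) - 3 / (4 * √3) := by ring
  rw [this]
  simp only [hQ] at hkey
  linarith

/-- a parabola above `P` -/
theorem P_le_parabola {t : ℝ} (h1 : 1 ≤ t) (h4 : t ≤ 4) :
    P t ≤ P 3 + ((4 - t) ^ 2 - 1) / (8 * √3) := by
  have h3 := sqrt3_pos
  have h33 : √3 * √3 = 3 := mul_self_sqrt (by norm_num)
  set R : ℝ → ℝ := fun t => (4 - t) ^ 2 / (8 * √3) - P t with hR
  have hc : Continuous R := by
    rw [hR]
    exact Continuous.sub (by fun_prop) continuous_P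
  have hd : ∀ x ∈ Ioo (0:ℝ) 4, HasDerivAt R (-(2 * (4 - x)) / (8 * √3) - -(√(4 - x) / √x) / 4) x := by
    intro x hx
    have e1 : HasDerivAt (fun y : ℝ => (4 - y) ^ 2) (-(2 * (4 - x))) x := by
      have := ((hasDerivAt_id x).const_sub 4).pow 2
      refine HasDerivAt.congr_deriv (f := fun y : ℝ => (4 - y) ^ 2) this ?_
      simp
    exact (e1.div_const _).sub (hasDerivAt_P hx.1 hx.2)
  have key : ∀ x, 1 < x → x < 4 →
      -(2 * (4 - x)) / (8 * √3) - -(√(4 - x) / √x) / 4 =
        √(4 - x) / (4 * √3 * √x) * (√3 - √(4 - x) * √x) := by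
    intro x hx1 hx4
    have hx0 : 0 < √x := sqrt_pos.mpr (by linarith)
    have e : √(4 - x) * √(4 - x) = 4 - x := mul_self_sqrt (by linarith)
    generalize √(4 - x) = q at e
    generalize √x = p at hx0
    rw [← e]
    field_simp
    ring
  have hkey : R 3 ≤ R t := by
    rcases le_total t 3 with h | h
    · have : AntitoneOn R (Icc 1 3) := by
        refine antitoneOn_of_deriv_nonpos (convex_Icc _ _) hc.continuousOn ?_ ?_
        · rw [interior_Icc]
          intro x hx
          exact (hd x ⟨by linarith [hx.1], by linarith [hx.2]⟩).differentiableAt.differentiableWithinAt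
        · rw [interior_Icc]
          intro x hx
          rw [(hd x ⟨by linarith [hx.1], by linarith [hx.2]⟩).deriv,
            key x hx.1 (by linarith [hx.2])]
          have hx0 : 0 < √x := sqrt_pos.mpr (by linarith [hx.1])
          have h5 : √3 ≤ √(4 - x) * √x := by
            rw [← sqrt_mul (by linarith [hx.2])]
            exact sqrt_le_sqrt (by nlinarith [hx.1, hx.2])
          exact mul_nonpos_of_nonneg_of_nonpos (by positivity) (by linarith)
      exact this ⟨h1, h⟩ ⟨by norm_num, le_rfl⟩ h
    · have : MonotoneOn R (Icc 3 4) := by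
        refine monotoneOn_of_deriv_nonneg (convex_Icc _ _) hc.continuousOn ?_ ?_
        · rw [interior_Icc]
          intro x hx
          exact (hd x ⟨by linarith [hx.1], hx.2⟩).differentiableAt.differentiableWithinAt
        · rw [interior_Icc]
          intro x hx
          rw [(hd x ⟨by linarith [hx.1], hx.2⟩).deriv, key x (by linarith [hx.1]) hx.2]
          have hx0 : 0 < √x := sqrt_pos.mpr (by linarith [hx.1])
          have h5 : √(4 - x) * √x ≤ √3 := by
            rw [← sqrt_mul (by linarith [hx.2])]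
            exact sqrt_le_sqrt (by nlinarith [hx.1, hx.2])
          exact mul_nonneg (by positivity) (by linarith)
      exact this ⟨le_rfl, by norm_num⟩ ⟨h, h4⟩ h
  simp only [hR] at hkey
  have : ((4 - t) ^ 2 - 1) / (8 * √3) = (4 - t) ^ 2 / (8 * √3) - 1 / (8 * √3) := by ring
  rw [this]
  norm_num at hkey ⊢
  linarith

theorem exp_neg_ge {y : ℝ} (hy : 0 ≤ y) : 1 - y + y ^ 2 / (2 + y) ≤ exp (-y) := by
  have h1 : MonotoneOn (fun y => exp (-y) * (2 + y) - 2 + y) (Ici 0) := by
    refine monotoneOn_of_deriv_nonneg (convex_Ici _) (by fun_prop) (by fun_prop) ?_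
    rw [interior_Ici]
    intro x hx
    have hd : HasDerivAt (fun y => exp (-y) * (2 + y) - 2 + y)
        ((exp (-x) * -1) * (2 + x) + exp (-x) * 1 + 1) x := by
      have e1 : HasDerivAt (fun y : ℝ => exp (-y)) (exp (-x) * -1) x :=
        ((hasDerivAt_id x).neg).exp
      have e2 : HasDerivAt (fun y : ℝ => 2 + y) 1 x := (hasDerivAt_id x).const_add 2
      exact ((e1.mul e2).sub_const 2).add (hasDerivAt_id x)
    rw [hd.deriv]
    have h2 : exp (-x) * (1 + x) ≤ 1 := by
      have h3 : x + 1 ≤ exp x := add_one_le_exp x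
      have h4 : exp (-x) * exp x = 1 := by rw [← exp_add]; simp
      have h5 := exp_pos (-x)
      nlinarith
    nlinarith
  have h2 := h1 (mem_Ici.mpr le_rfl) (mem_Ici.mpr hy) hy
  simp only [neg_zero, exp_zero, add_zero, one_mul, sub_self] at h2
  have h3 : 0 < 2 + y := by linarith
  have h4 : 1 - y + y ^ 2 / (2 + y) = (2 - y) / (2 + y) := by
    field_simp
    ring
  rw [h4, div_le_iff₀ h3]
  linarith

/-- the slope of the comparison -/
noncomputable def K (s : ℝ) : ℝ := 4 * √3 * s

/-- **The tangent inequality with a gain.** -/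
theorem tangent {s t : ℝ} (hs : 3 ≤ s) (h1 : 1 ≤ t) (h4 : t ≤ 4) :
    1 + K s * (P t - P 3) + s / 10 * (t - 3) ^ 2 ≤ exp (-(s * (t - 3))) := by
  have h3 := sqrt3_pos
  have hP := P_le_parabola h1 h4
  set u := t - 3 with hu
  have e1 : K s * (P t - P 3) ≤ s * u ^ 2 / 2 - s * u := by
    have : K s * (P t - P 3) ≤ K s * (((4 - t) ^ 2 - 1) / (8 * √3)) := by
      refine mul_le_mul_of_nonneg_left (by linarith) ?_
      unfold K; positivity
    refine this.trans (le_of_eq ?_)
    unfold K
    rw [show 4 - t = 1 - u by rw [hu]; ring]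
    field_simp
    ring
  rcases le_total u 0 with h | h
  · have h5 := quadratic_le_exp_of_nonneg (x := -(s * u)) (by nlinarith)
    have h6 : s * u ^ 2 * 3 ≤ s * u ^ 2 * s := by
      refine mul_le_mul_of_nonneg_left hs (by positivity)
    nlinarith
  · have hy : 0 ≤ s * u := by positivity
    have h5 := exp_neg_ge hy
    have hu1 : u ≤ 1 := by linarith
    have h6 : 3 / 5 * s * u ^ 2 ≤ (s * u) ^ 2 / (2 + s * u) := by
      rw [le_div_iff₀ (by linarith)]
      have h7 : 2 + s * u ≤ 2 + s := by nlinarith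
      have h8 : 3 / 5 * (2 + s) ≤ s := by linarith
      have h9 : 0 ≤ s * u ^ 2 := by positivity
      calc 3 / 5 * s * u ^ 2 * (2 + s * u) ≤ 3 / 5 * s * u ^ 2 * (2 + s) :=
            mul_le_mul_of_nonneg_left h7 (by positivity)
        _ = s * u ^ 2 * (3 / 5 * (2 + s)) := by ring
        _ ≤ s * u ^ 2 * s := mul_le_mul_of_nonneg_left h8 h9
        _ = (s * u) ^ 2 := by ring
    nlinarith

end Pool.Agent.H96.UO
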