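import Pool.Agent.H96.HD.Lens
import Pool.Agent.H96.UO.Conv

/-!
# Steep universal optimality: the area inequality for periodic configurations
-/

set_option autoImplicit false
set_option linter.unusedSectionVars false

open Real Set MeasureTheory Metric
open scoped ENNReal Pointwise
open Pool.Agent.H96.HD (volume_lens al)

namespace Pool.Agent.H96.UO

theorem phi_al_eq (z : ℂ) : Pool.Agent.H96.HD.phi (al z) = P (‖z‖ ^ 2) := by
  unfold P al
  rw [sqrt_sq (norm_nonneg z)]

theorem volume_lens_le (z : ℂ) (hz : z ≠ 0) :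
    volume (ball (0:ℂ) 1 ∩ ball z 1) ≤ ENNReal.ofReal (2 * P (‖z‖ ^ 2)) := by
  rw [← phi_al_eq]
  exact volume_lens z hz

open Classical in
/-- `a` off the diagonal, `0` on it -/
noncomputable def nd {Q : Type*} (p q : Q) (a : ℝ≥0∞) : ℝ≥0∞ := if q = p then 0 else a

theorem nd_self {Q : Type*} (p : Q) (a : ℝ≥0∞) : nd p p a = 0 := by simp [nd]

theorem nd_ne {Q : Type*} {p q : Q} (h : q ≠ p) (a : ℝ≥0∞) : nd p q a = a := by simp [nd, h]

theorem nd_le {Q : Type*} (p q : Q) (a : ℝ≥0∞) : nd p q a ≤ a := by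
  unfold nd; split_ifs <;> simp

theorem tsum_eq_nd {Q : Type*} (p₀ : Q) (a : Q → ℝ≥0∞) :
    ∑' p, a p = a p₀ + ∑' p, nd p₀ p (a p) := by
  unfold nd
  exact ENNReal.tsum_eq_add_tsum_ite p₀

theorem indicator_ineq {Q : Type*} (a : Q → ℝ≥0∞) (ha : ∀ p, a p = 0 ∨ a p = 1) :
    2 * ∑' p, a p ≤ 2 + ∑' p, ∑' q, nd p q (a p * a q) := by
  by_cases h : ∀ p, a p = 0
  · simp [h]
  · push Not at h
    obtain ⟨p₀, hp₀⟩ := h
    have h1 : a p₀ = 1 := (ha p₀).resolve_left hp₀
    have e1 := tsum_eq_nd p₀ a
    have e2 := tsum_eq_nd p₀ fun p => ∑' q, nd p q (a p * a q)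
    have e3 : (∑' q, nd p₀ q (a p₀ * a q)) = ∑' p, nd p₀ p (a p) := by
      simp only [h1, one_mul]
    have e4 : (∑' p, nd p₀ p (a p)) ≤ ∑' p, nd p₀ p (∑' q, nd p q (a p * a q)) := by
      refine ENNReal.tsum_le_tsum fun p => ?_
      by_cases hp : p = p₀
      · rw [hp, nd_self]
        exact zero_le
      · rw [nd_ne hp, nd_ne hp]
        calc a p = nd p p₀ (a p * a p₀) := by
              rw [nd_ne (fun h => hp h.symm), h1, mul_one]
          _ ≤ ∑' q, nd p q (a p * a q) := ENNReal.le_tsum p₀
    rw [e1, e2, e3, h1, mul_add, mul_one, two_mul (∑' p, nd p₀ p (a p))]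
    gcongr

section

variable {ι : Type*} [Fintype ι] (L : Submodule ℤ ℂ) [DiscreteTopology L]
  [IsZLattice ℝ L] (x : ι → ℂ)

/-- the unit disk around a point of the configuration -/
def B (p : ι × L) : Set ℂ := ball (x p.1 + (p.2 : ℂ)) 1

theorem measurableSet_B (p : ι × L) : MeasurableSet (B L x p) := measurableSet_ball

theorem vadd_B (v : L) (S : Set ℂ) : v +ᵥ S = (fun z => z + (v : ℂ)) '' S := by
  ext z
  rw [Set.mem_vadd_set]
  simp only [mem_image, Submodule.vadd_def, vadd_eq_add, add_comm]

theorem vadd_inter (v : L) (i : ι) (q : ι × L) :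
    v +ᵥ (B L x (i, 0) ∩ B L x q) = B L x (i, v) ∩ B L x (q.1, q.2 + v) := by
  rw [vadd_B]
  ext z
  simp only [mem_image, mem_inter_iff, B, mem_ball, dist_eq_norm]
  constructor
  · rintro ⟨y, ⟨h1, h2⟩, rfl⟩
    push_cast at h1 ⊢
    constructor
    · convert h1 using 2; ring
    · convert h2 using 2; ring
  · rintro ⟨h1, h2⟩
    refine ⟨z - v, ⟨?_, ?_⟩, by ring⟩
    · push_cast
      convert h1 using 2; ring
    · push_cast at h2
      convert h2 using 2; ring

theorem volume_ball_one (z : ℂ) : volume (ball z 1) = ENNReal.ofReal π := by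
  rw [Complex.volume_ball, ENNReal.ofReal_one, one_pow, one_mul, ← NNReal.coe_real_pi,
    ENNReal.ofReal_coe_nnreal]

/-- **The area inequality.** -/
theorem area_ineq (hx : ∀ i j, x i - x j ∈ L → i = j) (Z : ι → Finset ℂ)
    (hZ : ∀ i z, (∃ j, z - (x j - x i) ∈ L) → z ≠ 0 → ‖z‖ < 2 → z ∈ Z i) :
    (Fintype.card ι : ℝ) * π - ZLattice.covolume L ≤ ∑ i, ∑ z ∈ Z i, P (‖z‖ ^ 2) := by
  classical
  have : MeasurableVAdd L ℂ := (inferInstance : MeasurableVAdd L.toAddSubgroup ℂ)
  have : VAddInvariantMeasure L ℂ volume :=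
    (inferInstance : VAddInvariantMeasure L.toAddSubgroup ℂ volume)
  set b := Module.Free.chooseBasis ℤ L with hb
  set Fd := ZSpan.fundamentalDomain (b.ofZLatticeBasis ℝ L) with hFd
  have hF : IsAddFundamentalDomain L Fd (volume : Measure ℂ) :=
    ZLattice.isAddFundamentalDomain b volume
  have hFm : MeasurableSet Fd := ZSpan.fundamentalDomain_measurableSet _
  have hFfin : volume Fd ≠ ⊤ :=
    (Bornology.IsBounded.measure_lt_top (ZSpan.fundamentalDomain_isBounded _)).ne
  have hcov : ENNReal.ofReal (ZLattice.covolume L) = volume Fd := by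
    rw [ZLattice.covolume_eq_measure_fundamentalDomain L volume hF, measureReal_def,
      ENNReal.ofReal_toReal hFfin]
  have hunf : ∀ S : Set ℂ, volume S = ∑' v : L, volume ((v +ᵥ S) ∩ Fd) := fun S =>
    hF.measure_eq_tsum S
  -- the integrated inequality
  have h1 : 2 * ∑' p : ι × L, volume (B L x p ∩ Fd) ≤ 2 * volume Fd +
      ∑' p : ι × L, ∑' q : ι × L, nd p q (volume (B L x p ∩ B L x q ∩ Fd)) := by
    have hm : ∀ p, Measurable ((B L x p).indicator (1 : ℂ → ℝ≥0∞)) := fun p =>
      measurable_one.indicator (measurableSet_B L x p)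
    have hpt : ∀ y, 2 * ∑' p, (B L x p).indicator (1 : ℂ → ℝ≥0∞) y ≤ 2 +
        ∑' p, ∑' q, nd p q ((B L x p ∩ B L x q).indicator (1 : ℂ → ℝ≥0∞) y) := by
      intro y
      have := indicator_ineq (fun p => (B L x p).indicator (1 : ℂ → ℝ≥0∞) y) (fun p => by
        by_cases h : y ∈ B L x p
        · right; simp [h]
        · left; simp [h])
      refine this.trans (le_of_eq ?_)
      congr 2
      ext p
      congr 1
      ext q
      congr 1
      by_cases hp : y ∈ B L x p <;> by_cases hq : y ∈ B L x q <;> simp [hp, hq]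
    have hI := lintegral_mono (μ := volume.restrict Fd) hpt
    have hm2 : ∀ p q, Measurable fun y =>
        nd p q ((B L x p ∩ B L x q).indicator (1 : ℂ → ℝ≥0∞) y) := by
      intro p q
      by_cases h : q = p
      · rw [h]; simp only [nd_self]; exact measurable_const
      · simp only [nd_ne h]
        exact measurable_one.indicator ((measurableSet_B L x p).inter (measurableSet_B L x q))
    rw [lintegral_const_mul _ (Measurable.tsum hm),
      lintegral_tsum (fun p => (hm p).aemeasurable), lintegral_add_left measurable_const,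
      lintegral_const, Measure.restrict_apply MeasurableSet.univ, univ_inter,
      lintegral_tsum (fun p => (Measurable.tsum fun q => hm2 p q).aemeasurable)] at hI
    refine le_trans (le_of_eq ?_) (hI.trans (le_of_eq ?_))
    · congr 2
      ext p
      rw [lintegral_indicator_one (measurableSet_B L x p),
        Measure.restrict_apply (measurableSet_B L x p)]
    · congr 2
      ext p
      rw [lintegral_tsum (fun q => (hm2 p q).aemeasurable)]
      congr 1
      ext q
      by_cases h : q = p
      · rw [h]; simp only [nd_self]; simp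
      · simp only [nd_ne h]
        have hmm := (measurableSet_B L x p).inter (measurableSet_B L x q)
        rw [lintegral_indicator_one hmm, Measure.restrict_apply hmm]
  -- unfolding of the left-hand side
  have h2 : ∑' p : ι × L, volume (B L x p ∩ Fd) = (Fintype.card ι : ℝ≥0∞) * ENNReal.ofReal π := by
    rw [ENNReal.tsum_prod', tsum_fintype]
    have : ∀ i : ι, ∑' v : L, volume (B L x (i, v) ∩ Fd) = ENNReal.ofReal π := by
      intro i
      have e := hunf (B L x (i, 0))
      have e2 : volume (B L x (i, 0)) = ENNReal.ofReal π := volume_ball_one _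
      rw [← e2, e]
      congr 1
      ext v
      congr 2
      have := vadd_inter L x v i (i, 0)
      simpa using this.symm
    simp only [this]
    rw [Finset.sum_const, Finset.card_univ, nsmul_eq_mul]
  -- unfolding of the right-hand side
  have h3 : ∑' p : ι × L, ∑' q : ι × L, nd p q (volume (B L x p ∩ B L x q ∩ Fd)) =
      ∑ i, ∑' q : ι × L, nd (i, 0) q (volume (B L x (i, 0) ∩ B L x q)) := by
    rw [ENNReal.tsum_prod', tsum_fintype]
    refine Finset.sum_congr rfl fun i _ => ?_
    have e1 : ∀ v : L, ∑' q : ι × L, nd (i, v) q (volume (B L x (i, v) ∩ B L x q ∩ Fd)) =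
        ∑' q : ι × L, nd (i, 0) q (volume ((v +ᵥ (B L x (i, 0) ∩ B L x q)) ∩ Fd)) := by
      intro v
      rw [← Equiv.tsum_eq ((Equiv.refl ι).prodCongr (Equiv.addRight v))]
      congr 1
      ext q
      have e2 : ((Equiv.refl ι).prodCongr (Equiv.addRight v)) q = (q.1, q.2 + v) := rfl
      rw [e2, vadd_inter]
      by_cases h : q = (i, 0)
      · rw [h]
        simp only [zero_add, nd_self]
      · rw [nd_ne h, nd_ne]
        intro hcon
        apply h
        rw [Prod.ext_iff] at hcon ⊢
        simpa using hcon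
    simp only [e1]
    rw [ENNReal.tsum_comm]
    congr 1
    ext q
    by_cases h : q = (i, 0)
    · rw [h]; simp only [nd_self]; simp
    · simp only [nd_ne h]
      exact (hunf _).symm
  -- the lens areas
  have h4 : ∀ i, ∑' q : ι × L, nd (i, 0) q (volume (B L x (i, 0) ∩ B L x q)) ≤
      ENNReal.ofReal (2 * ∑ z ∈ Z i, P (‖z‖ ^ 2)) := by
    intro i
    set zq : ι × L → ℂ := fun q => x q.1 + q.2 - x i with hzq
    have hinj : Function.Injective zq := by
      intro q q' h
      have h5 : x q.1 + (q.2 : ℂ) = x q'.1 + q'.2 := sub_left_injective h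
      have h6 : x q.1 - x q'.1 ∈ L := by
        have : x q.1 - x q'.1 = ((q'.2 - q.2 : L) : ℂ) := by
          push_cast
          linear_combination h5
        rw [this]
        exact (q'.2 - q.2).2
      have h7 := hx _ _ h6
      rw [h7] at h5
      have h8 : (q.2 : ℂ) = q'.2 := add_left_cancel h5
      exact Prod.ext h7 (Subtype.ext h8)
    set G : ℂ → ℝ≥0∞ := fun z => if z ∈ Z i then ENNReal.ofReal (2 * P (‖z‖ ^ 2)) else 0 with hG
    have h5 : ∀ q, nd (i, 0) q (volume (B L x (i, 0) ∩ B L x q)) ≤ G (zq q) := by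
      intro q
      by_cases h : q = (i, 0)
      · rw [h, nd_self]; exact zero_le
      rw [nd_ne h]
      have hz0 : zq q ≠ 0 := by
        intro hcon
        apply h
        apply hinj
        rw [hcon, hzq]
        simp
      have e : volume (B L x (i, 0) ∩ B L x q) = volume (ball (0:ℂ) 1 ∩ ball (zq q) 1) := by
        have hset : B L x (i, 0) ∩ B L x q = (fun w => w - x i) ⁻¹' (ball (0:ℂ) 1 ∩ ball (zq q) 1) := by
          ext w
          simp only [B, mem_inter_iff, mem_ball, mem_preimage, dist_eq_norm, sub_zero, hzq]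
          have e1 : w - (x i + ((0 : L) : ℂ)) = w - x i := by simp
          have e2 : w - (x q.1 + (q.2 : ℂ)) = w - x i - (x q.1 + q.2 - x i) := by ring
          rw [e1, e2]
        rw [hset, (measurePreserving_sub_right volume (x i)).measure_preimage
          (measurableSet_ball.inter measurableSet_ball).nullMeasurableSet]
      rw [e]
      by_cases h2 : ‖zq q‖ < 2
      · have hmem : zq q ∈ Z i := by
          refine hZ i _ ⟨q.1, ?_⟩ hz0 h2
          have : zq q - (x q.1 - x i) = q.2 := by rw [hzq]; ring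
          rw [this]
          exact q.2.2
        rw [hG]
        simp only [hmem, if_true]
        exact volume_lens_le _ hz0
      · have : ball (0:ℂ) 1 ∩ ball (zq q) 1 = ∅ := by
          rw [← disjoint_iff_inter_eq_empty]
          push Not at h2
          exact ball_disjoint_ball (by rw [dist_zero_left]; linarith)
        rw [this]
        simp
    calc ∑' q : ι × L, nd (i, 0) q (volume (B L x (i, 0) ∩ B L x q))
        ≤ ∑' q : ι × L, G (zq q) := ENNReal.tsum_le_tsum h5
      _ ≤ ∑' z, G z := ENNReal.tsum_comp_le_tsum_of_injective hinj G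
      _ = ∑ z ∈ Z i, ENNReal.ofReal (2 * P (‖z‖ ^ 2)) := by
          rw [tsum_eq_sum (s := Z i) (fun z hz => by simp [hG, hz])]
          exact Finset.sum_congr rfl fun z hz => by simp [hG, hz]
      _ = ENNReal.ofReal (2 * ∑ z ∈ Z i, P (‖z‖ ^ 2)) := by
          rw [← ENNReal.ofReal_sum_of_nonneg (fun z _ => mul_nonneg two_pos.le (P_nonneg _)),
            Finset.mul_sum]
  rw [h2, h3] at h1
  have hS0 : ∀ i, 0 ≤ 2 * ∑ z ∈ Z i, P (‖z‖ ^ 2) := fun i =>
    mul_nonneg two_pos.le (Finset.sum_nonneg fun z _ => P_nonneg _)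
  have hc0 : 0 ≤ ZLattice.covolume L := by
    rw [ZLattice.covolume_eq_measure_fundamentalDomain L volume hF]
    exact measureReal_nonneg
  have h6 : ENNReal.ofReal (2 * ((Fintype.card ι : ℝ) * π)) ≤
      ENNReal.ofReal (2 * ZLattice.covolume L + ∑ i, 2 * ∑ z ∈ Z i, P (‖z‖ ^ 2)) := by
    rw [ENNReal.ofReal_add (by positivity) (Finset.sum_nonneg fun i _ => hS0 i),
      ENNReal.ofReal_mul two_pos.le, ENNReal.ofReal_mul (by positivity), ENNReal.ofReal_natCast,
      ENNReal.ofReal_mul two_pos.le, hcov, ENNReal.ofReal_ofNat,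
      ENNReal.ofReal_sum_of_nonneg (fun i _ => hS0 i)]
    refine h1.trans ?_
    gcongr with i
    exact h4 i
  rw [ENNReal.ofReal_le_ofReal_iff (add_nonneg (by positivity)
    (Finset.sum_nonneg fun i _ => hS0 i)), ← Finset.mul_sum] at h6
  linarith

end

end Pool.Agent.H96.UO
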