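import Mathlib

/-!
# Steep universal optimality: permutations with displacements

Permutations of `F × ℂ` commuting with the translations of `ℂ`, with the Hamming distance. The sum of
the squares of the displacements of a word which is nearly a lattice translation is at most the
expected multiple of the sum for the generators.
-/

set_option autoImplicit false
set_option linter.unusedSectionVars false

open Finset Equiv

namespace Pool.Agent.H96.UO

variable {F : Type*} [Fintype F] [DecidableEq F]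

/-- permutations of `F × ℂ` commuting with the translations of `ℂ` -/
def Gam (F : Type*) : Subgroup (Perm (F × ℂ)) where
  carrier := {g | ∀ f z w, g (f, z + w) = ((g (f, z)).1, (g (f, z)).2 + w)}
  one_mem' := fun f z w => rfl
  mul_mem' := by
    intro g h hg hh f z w
    show g (h (f, z + w)) = ((g (h (f, z))).1, (g (h (f, z))).2 + w)
    rw [hh, hg]
  inv_mem' := by
    intro g hg f z w
    rw [Perm.inv_eq_iff_eq]
    have h1 := hg (g⁻¹ (f, z)).1 (g⁻¹ (f, z)).2 w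
    rw [h1]
    simp

/-- the target of a flag -/
def tgt (g : Perm (F × ℂ)) (f : F) : F := (g (f, 0)).1

/-- the displacement at a flag -/
def dsp (g : Perm (F × ℂ)) (f : F) : ℂ := (g (f, 0)).2

theorem gam_apply {g : Perm (F × ℂ)} (hg : g ∈ Gam F) (f : F) (z : ℂ) :
    g (f, z) = (tgt g f, dsp g f + z) := by
  have := hg f 0 z
  rwa [zero_add] at this

theorem mul_zero_apply {g h : Perm (F × ℂ)} (hg : g ∈ Gam F) (f : F) :
    (g * h) (f, 0) = (tgt g (tgt h f), dsp g (tgt h f) + dsp h f) := by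
  show g (h (f, 0)) = _
  have : h (f, 0) = (tgt h f, dsp h f) := rfl
  rw [this, gam_apply hg]

theorem tgt_mul {g h : Perm (F × ℂ)} (hg : g ∈ Gam F) (f : F) :
    tgt (g * h) f = tgt g (tgt h f) := by
  unfold tgt
  rw [mul_zero_apply hg]
  rfl

theorem dsp_mul {g h : Perm (F × ℂ)} (hg : g ∈ Gam F) (f : F) :
    dsp (g * h) f = dsp g (tgt h f) + dsp h f := by
  show ((g * h) (f, 0)).2 = _
  rw [mul_zero_apply hg]

theorem tgt_one (f : F) : tgt (1 : Perm (F × ℂ)) f = f := rfl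

theorem dsp_one (f : F) : dsp (1 : Perm (F × ℂ)) f = 0 := rfl

theorem tgt_bijective {g : Perm (F × ℂ)} (hg : g ∈ Gam F) : Function.Bijective (tgt g) := by
  have hg' : g⁻¹ ∈ Gam F := (Gam F).inv_mem hg
  refine Function.bijective_iff_has_inverse.mpr ⟨tgt g⁻¹, fun f => ?_, fun f => ?_⟩
  · rw [← tgt_mul hg', inv_mul_cancel, tgt_one]
  · rw [← tgt_mul hg, mul_inv_cancel, tgt_one]

/-- the permutation of the flags -/
noncomputable def tgtPerm {g : Perm (F × ℂ)} (hg : g ∈ Gam F) : Perm F :=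
  Equiv.ofBijective (tgt g) (tgt_bijective hg)

theorem tgtPerm_apply {g : Perm (F × ℂ)} (hg : g ∈ Gam F) (f : F) : tgtPerm hg f = tgt g f := rfl

/-- Hamming distance -/
noncomputable def ham (g h : Perm (F × ℂ)) : ℕ :=
  (univ.filter fun f : F => g (f, 0) ≠ h (f, 0)).card

theorem ham_self (g : Perm (F × ℂ)) : ham g g = 0 := by
  simp [ham]

theorem ham_comm (g h : Perm (F × ℂ)) : ham g h = ham h g := by
  unfold ham
  congr 1
  ext f
  simp [ne_comm]

theorem ham_triangle (g h k : Perm (F × ℂ)) : ham g k ≤ ham g h + ham h k := by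
  unfold ham
  refine (card_le_card ?_).trans (card_union_le _ _)
  intro f hf
  simp only [mem_union, mem_filter, mem_univ, true_and] at hf ⊢
  by_contra hcon
  push Not at hcon
  exact hf (hcon.1.trans hcon.2)

theorem ham_mul_left (k g h : Perm (F × ℂ)) : ham (k * g) (k * h) = ham g h := by
  unfold ham
  congr 1
  ext f
  simp only [mem_filter, mem_univ, true_and, Perm.coe_mul, Function.comp_apply, ne_eq,
    EmbeddingLike.apply_eq_iff_eq]

theorem ham_mul_right {k g h : Perm (F × ℂ)} (hk : k ∈ Gam F) (hg : g ∈ Gam F) (hh : h ∈ Gam F) :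
    ham (g * k) (h * k) = ham g h := by
  unfold ham
  refine card_bij (fun f _ => tgt k f) ?_ ?_ ?_
  · intro f hf
    simp only [mem_filter, mem_univ, true_and] at hf ⊢
    intro heq
    apply hf
    rw [mul_zero_apply hg, mul_zero_apply hh]
    have h1 : tgt g (tgt k f) = tgt h (tgt k f) := congrArg Prod.fst heq
    have h2 : dsp g (tgt k f) = dsp h (tgt k f) := congrArg Prod.snd heq
    rw [h1, h2]
  · intro f _ f' _ heq
    exact (tgt_bijective hk).1 heq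
  · intro f hf
    obtain ⟨f', rfl⟩ := (tgt_bijective hk).2 f
    refine ⟨f', ?_, rfl⟩
    simp only [mem_filter, mem_univ, true_and] at hf ⊢
    intro heq
    apply hf
    rw [mul_zero_apply hg, mul_zero_apply hh] at heq
    have h1 := congrArg Prod.fst heq
    have h2 := congrArg Prod.snd heq
    simp only [add_left_inj] at h1 h2
    exact Prod.ext h1 h2

theorem ham_inv {g h : Perm (F × ℂ)} (hg : g ∈ Gam F) (hh : h ∈ Gam F) :
    ham g⁻¹ h⁻¹ = ham g h := by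
  have h1 := ham_mul_right (g := h * g⁻¹) (h := h * h⁻¹) hg
    ((Gam F).mul_mem hh ((Gam F).inv_mem hg)) ((Gam F).mul_mem hh ((Gam F).inv_mem hh))
  rw [ham_mul_left] at h1
  rw [← h1, ham_comm]
  congr 1 <;> group

theorem ham_mul_le {a b c d : Perm (F × ℂ)} (ha : a ∈ Gam F) (hb : b ∈ Gam F) (hc : c ∈ Gam F) :
    ham (a * b) (c * d) ≤ ham a c + ham b d := by
  calc ham (a * b) (c * d) ≤ ham (a * b) (c * b) + ham (c * b) (c * d) := ham_triangle _ _ _
    _ = ham a c + ham b d := by rw [ham_mul_right hb ha hc, ham_mul_left]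

theorem ham_pow_comm_one {a b : Perm (F × ℂ)} (ha : a ∈ Gam F) (hb : b ∈ Gam F) (n : ℕ) :
    ham (a * b ^ n) (b ^ n * a) ≤ n * ham (a * b) (b * a) := by
  induction n with
  | zero => simp [ham_self]
  | succ n ih =>
    have hbn : b ^ n ∈ Gam F := (Gam F).pow_mem hb n
    calc ham (a * b ^ (n + 1)) (b ^ (n + 1) * a)
        ≤ ham (a * b ^ (n + 1)) (b ^ n * (a * b)) + ham (b ^ n * (a * b)) (b ^ (n + 1) * a) :=
          ham_triangle _ _ _
      _ = ham (a * b ^ n * b) (b ^ n * a * b) + ham (b ^ n * (a * b)) (b ^ n * (b * a)) := by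
          rw [pow_succ]
          simp only [mul_assoc]
      _ = ham (a * b ^ n) (b ^ n * a) + ham (a * b) (b * a) := by
          rw [ham_mul_right hb ((Gam F).mul_mem ha hbn) ((Gam F).mul_mem hbn ha), ham_mul_left]
      _ ≤ n * ham (a * b) (b * a) + ham (a * b) (b * a) := by gcongr
      _ = (n + 1) * ham (a * b) (b * a) := by ring

theorem ham_pow_comm {a b : Perm (F × ℂ)} (ha : a ∈ Gam F) (hb : b ∈ Gam F) (m n : ℕ) :
    ham (a ^ m * b ^ n) (b ^ n * a ^ m) ≤ m * n * ham (a * b) (b * a) := by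
  have hbn : b ^ n ∈ Gam F := (Gam F).pow_mem hb n
  have h1 := ham_pow_comm_one hbn ha m
  have h2 := ham_pow_comm_one ha hb n
  rw [ham_comm (b ^ n * a ^ m)] at h1
  rw [ham_comm (b ^ n * a)] at h1
  calc ham (a ^ m * b ^ n) (b ^ n * a ^ m) ≤ m * ham (a * b ^ n) (b ^ n * a) := h1
    _ ≤ m * (n * ham (a * b) (b * a)) := by gcongr
    _ = _ := by ring

/-- sum of the squares of the displacements -/
noncomputable def DD (g : Perm (F × ℂ)) : ℝ := ∑ f, ‖dsp g f‖ ^ 2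

theorem sum_tgt {g : Perm (F × ℂ)} (hg : g ∈ Gam F) (φ : F → ℝ) :
    ∑ f, φ (tgt g f) = ∑ f, φ f :=
  Equiv.sum_comp (tgtPerm hg) φ

/-- **The parallelogram inequality.** -/
theorem parallelogram {u w v δ : Perm (F × ℂ)} (hu : u ∈ Gam F) (hw : w ∈ Gam F)
    (hδ : δ ∈ Gam F) {B : ℝ} (hB : ∀ f, ‖dsp v f‖ ≤ B) (hδ2 : ∀ f, ‖dsp δ f‖ ≤ 2) :
    DD v + DD δ ≤ 2 * DD u + 2 * DD w +
      (ham v (w * u) + ham v (u * w) + ham u (δ * w) : ℕ) * (B ^ 2 + 4) := by
  classical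
  set X : Finset F := (univ.filter fun f => v (f, 0) ≠ (w * u) (f, 0)) ∪
    (univ.filter fun f => v (f, 0) ≠ (u * w) (f, 0)) ∪
    (univ.filter fun f => u (f, 0) ≠ (δ * w) (f, 0)) with hX
  have hXc : (X.card : ℝ) ≤ (ham v (w * u) + ham v (u * w) + ham u (δ * w) : ℕ) := by
    have h1 : X.card ≤ ham v (w * u) + ham v (u * w) + ham u (δ * w) :=
      (card_union_le _ _).trans (Nat.add_le_add_right (card_union_le _ _) _)
    exact_mod_cast h1
  have key : ∀ f, ‖dsp v f‖ ^ 2 + ‖dsp δ (tgt w f)‖ ^ 2 ≤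
      ‖dsp u f‖ ^ 2 + ‖dsp w (tgt u f)‖ ^ 2 + ‖dsp u (tgt w f)‖ ^ 2 + ‖dsp w f‖ ^ 2 +
        if f ∈ X then B ^ 2 + 4 else 0 := by
    intro f
    split_ifs with hf
    · have h1 : ‖dsp v f‖ ^ 2 ≤ B ^ 2 := by
        have := hB f
        gcongr
      have h2 : ‖dsp δ (tgt w f)‖ ^ 2 ≤ 2 ^ 2 := by
        have := hδ2 (tgt w f)
        gcongr
      have h3 : 0 ≤ ‖dsp u f‖ ^ 2 + ‖dsp w (tgt u f)‖ ^ 2 + ‖dsp u (tgt w f)‖ ^ 2 +
        ‖dsp w f‖ ^ 2 := by positivity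
      linarith
    · simp only [hX, mem_union, mem_filter, mem_univ, true_and, not_or, not_not] at hf
      obtain ⟨⟨e1, e2⟩, e3⟩ := hf
      have f1 : dsp v f = dsp w (tgt u f) + dsp u f := by
        rw [← dsp_mul hw]; exact congrArg Prod.snd e1
      have f2 : dsp v f = dsp u (tgt w f) + dsp w f := by
        rw [← dsp_mul hu]; exact congrArg Prod.snd e2
      have f3 : dsp u f = dsp δ (tgt w f) + dsp w f := by
        rw [← dsp_mul hδ]; exact congrArg Prod.snd e3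
      set A := dsp u f
      set Bv := dsp w (tgt u f)
      set A' := dsp u (tgt w f)
      set B' := dsp w f
      have f4 : dsp δ (tgt w f) = A - B' := by rw [f3]; ring
      have f5 : A' = Bv + A - B' := by
        have := f1.symm.trans f2
        linear_combination -this
      rw [f4, f1, f5]
      have hid : ‖Bv + A‖ ^ 2 + ‖A - B'‖ ^ 2 + ‖Bv - B'‖ ^ 2 =
          ‖A‖ ^ 2 + ‖Bv‖ ^ 2 + ‖Bv + A - B'‖ ^ 2 + ‖B'‖ ^ 2 := by
        simp only [Complex.sq_norm, Complex.normSq_apply, Complex.add_re, Complex.add_im,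
          Complex.sub_re, Complex.sub_im]
        ring
      have := sq_nonneg ‖Bv - B'‖
      linarith
  have hsum := Finset.sum_le_sum fun f (_ : f ∈ (univ : Finset F)) => key f
  simp only [Finset.sum_add_distrib] at hsum
  rw [sum_tgt hw fun f => ‖dsp δ f‖ ^ 2, sum_tgt hu fun f => ‖dsp w f‖ ^ 2,
    sum_tgt hw fun f => ‖dsp u f‖ ^ 2, Finset.sum_ite_mem, univ_inter, Finset.sum_const,
    nsmul_eq_mul] at hsum
  have h5 : (X.card : ℝ) * (B ^ 2 + 4) ≤
      (ham v (w * u) + ham v (u * w) + ham u (δ * w) : ℕ) * (B ^ 2 + 4) := by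
    gcongr
  unfold DD
  linarith

/-- the permutation with displacement made of a permutation of the flags and a displacement -/
def mk (τ : Perm F) (d : F → ℂ) : Perm (F × ℂ) where
  toFun p := (τ p.1, d p.1 + p.2)
  invFun p := (τ⁻¹ p.1, p.2 - d (τ⁻¹ p.1))
  left_inv p := by simp
  right_inv p := by simp

theorem mk_mem (τ : Perm F) (d : F → ℂ) : mk τ d ∈ Gam F := by
  intro f z w
  simp [mk, add_assoc]

theorem tgt_mk (τ : Perm F) (d : F → ℂ) (f : F) : tgt (mk τ d) f = τ f := rfl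

theorem dsp_mk (τ : Perm F) (d : F → ℂ) (f : F) : dsp (mk τ d) f = d f := by
  simp [dsp, mk]

section

variable (σ τ : Perm F) (d : F → ℂ)

/-- the translation in the direction `k` -/
def T (k : ℤ) : Perm (F × ℂ) := mk (σ ^ (-k) * τ * σ ^ k) fun f => d ((σ ^ k) f)

theorem T_mem (k : ℤ) : T σ τ d k ∈ Gam F := mk_mem _ _

theorem T_conj (k : ℤ) : T σ τ d (k + 1) = (mk σ 0)⁻¹ * T σ τ d k * mk σ 0 := by
  ext1 p
  rw [Perm.mul_apply, Perm.mul_apply, Perm.eq_inv_iff_eq]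
  have h1 : σ ((σ ^ (-(k + 1))) (τ ((σ ^ (k + 1)) p.1))) = (σ ^ (-k)) (τ ((σ ^ k) (σ p.1))) := by
    rw [← Perm.mul_apply σ, ← Perm.mul_apply (σ ^ k) σ]
    have e1 : σ * σ ^ (-(k + 1)) = σ ^ (-k) := by
      rw [← zpow_one_add]
      congr 1
      ring
    have e2 : σ ^ k * σ = σ ^ (k + 1) := by rw [zpow_add_one]
    rw [e1, e2]
  have h2 : (σ ^ (k + 1)) p.1 = (σ ^ k) (σ p.1) := by
    rw [← Perm.mul_apply (σ ^ k) σ, zpow_add_one]
  refine Prod.ext ?_ ?_
  · show σ ((σ ^ (-(k + 1)) * τ * σ ^ (k + 1)) p.1) = (σ ^ (-k) * τ * σ ^ k) (σ p.1)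
    simp only [Perm.mul_apply]
    exact h1
  · show (0 : ℂ) + (d ((σ ^ (k + 1)) p.1) + p.2) = d ((σ ^ k) (σ p.1)) + (0 + p.2)
    rw [h2]
    ring

theorem DD_T (k : ℤ) : DD (T σ τ d k) = ∑ f, ‖d f‖ ^ 2 := by
  unfold DD T
  simp only [dsp_mk]
  exact Equiv.sum_comp (σ ^ k) fun f => ‖d f‖ ^ 2

theorem norm_dsp_T (hd : ∀ f, ‖d f‖ ≤ 2) (k : ℤ) (f : F) : ‖dsp (T σ τ d k) f‖ ≤ 2 := by
  unfold T
  rw [dsp_mk]
  exact hd _

theorem ham_conj_succ (k l m : ℤ) : ham (T σ τ d (k + 1) * T σ τ d (l + 1)) (T σ τ d (m + 1)) =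
    ham (T σ τ d k * T σ τ d l) (T σ τ d m) := by
  have hs : mk σ 0 ∈ Gam F := mk_mem _ _
  have h1 : T σ τ d (k + 1) * T σ τ d (l + 1) =
      (mk σ 0)⁻¹ * ((T σ τ d k * T σ τ d l) * mk σ 0) := by
    rw [T_conj, T_conj]
    group
  rw [h1, T_conj σ τ d m, mul_assoc (mk σ 0)⁻¹ (T σ τ d m), ham_mul_left, ham_mul_right hs
    ((Gam F).mul_mem (T_mem _ _ _ _) (T_mem _ _ _ _)) (T_mem _ _ _ _)]

theorem ham_conj (j k l m : ℤ) : ham (T σ τ d (k + j) * T σ τ d (l + j)) (T σ τ d (m + j)) =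
    ham (T σ τ d k * T σ τ d l) (T σ τ d m) := by
  induction j using Int.induction_on with
  | zero => simp
  | succ j ih =>
    rw [← ih, ← add_assoc, ← add_assoc, ← add_assoc, ham_conj_succ]
  | pred j ih =>
    rw [← ih, ← ham_conj_succ σ τ d (k + (-(j:ℤ) - 1)) (l + (-(j:ℤ) - 1)) (m + (-(j:ℤ) - 1)),
      show k + (-(j:ℤ) - 1) + 1 = k + -(j:ℤ) by ring, show l + (-(j:ℤ) - 1) + 1 = l + -(j:ℤ) by ring,
      show m + (-(j:ℤ) - 1) + 1 = m + -(j:ℤ) by ring]

theorem ham_conj_one_succ (k l : ℤ) : ham (T σ τ d (k + 1) * T σ τ d (l + 1)) 1 =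
    ham (T σ τ d k * T σ τ d l) 1 := by
  have hs : mk σ 0 ∈ Gam F := mk_mem _ _
  have h1 : T σ τ d (k + 1) * T σ τ d (l + 1) =
      (mk σ 0)⁻¹ * ((T σ τ d k * T σ τ d l) * mk σ 0) := by
    rw [T_conj, T_conj]
    group
  have h2 : (1 : Perm (F × ℂ)) = (mk σ 0)⁻¹ * (1 * mk σ 0) := by group
  rw [h1]
  conv_lhs => rw [h2]
  rw [ham_mul_left, ham_mul_right hs ((Gam F).mul_mem (T_mem _ _ _ _) (T_mem _ _ _ _))
    (Gam F).one_mem]

theorem ham_conj_one (j k l : ℤ) : ham (T σ τ d (k + j) * T σ τ d (l + j)) 1 =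
    ham (T σ τ d k * T σ τ d l) 1 := by
  induction j using Int.induction_on with
  | zero => simp
  | succ j ih =>
    rw [← ih, ← add_assoc, ← add_assoc, ham_conj_one_succ]
  | pred j ih =>
    rw [← ih, ← ham_conj_one_succ σ τ d (k + (-(j:ℤ) - 1)) (l + (-(j:ℤ) - 1)),
      show k + (-(j:ℤ) - 1) + 1 = k + -(j:ℤ) by ring, show l + (-(j:ℤ) - 1) + 1 = l + -(j:ℤ) by ring]

variable {β : ℕ} (h1 : ham (T σ τ d 2 * T σ τ d 0) (T σ τ d 1) ≤ β)
  (h2 : ham (T σ τ d 3 * T σ τ d 0) 1 ≤ β)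

include h2 in
theorem ham_inv_T (k : ℤ) : ham (T σ τ d (k + 3)) (T σ τ d k)⁻¹ ≤ β := by
  have e := ham_conj_one σ τ d k 3 0
  have e2 := ham_mul_right (k := (T σ τ d k)⁻¹) (g := T σ τ d (k + 3) * T σ τ d k) (h := 1)
    ((Gam F).inv_mem (T_mem _ _ _ _)) ((Gam F).mul_mem (T_mem _ _ _ _) (T_mem _ _ _ _))
    (Gam F).one_mem
  rw [mul_inv_cancel_right, one_mul] at e2
  rw [e2]
  rw [show (3:ℤ) + k = k + 3 by ring, zero_add] at e
  rw [e]
  exact h2

include h1 h2 in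
/-- the other triangle -/
theorem ham_other (j : ℤ) : ham (T σ τ d j * T σ τ d (j + 2)) (T σ τ d (j + 1)) ≤ 4 * β := by
  have a1 := ham_inv_T σ τ d h2 (j - 3)
  have a2 := ham_inv_T σ τ d h2 (j - 1)
  have a3 := ham_inv_T σ τ d h2 (j - 2)
  rw [show j - 3 + 3 = j by ring] at a1
  rw [show j - 1 + 3 = j + 2 by ring] at a2
  rw [show j - 2 + 3 = j + 1 by ring] at a3
  have a4 := ham_conj σ τ d (j - 3) 2 0 1
  rw [show (2:ℤ) + (j - 3) = j - 1 by ring, zero_add, show (1:ℤ) + (j - 3) = j - 2 by ring] at a4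
  have m : ∀ k, T σ τ d k ∈ Gam F := T_mem σ τ d
  have mi : ∀ k, (T σ τ d k)⁻¹ ∈ Gam F := fun k => (Gam F).inv_mem (m k)
  have a5 : ham ((T σ τ d (j - 3))⁻¹ * (T σ τ d (j - 1))⁻¹) (T σ τ d (j - 2))⁻¹ ≤ β := by
    rw [← mul_inv_rev, ham_inv ((Gam F).mul_mem (m _) (m _)) (m _), a4]
    exact h1
  calc ham (T σ τ d j * T σ τ d (j + 2)) (T σ τ d (j + 1))
      ≤ ham (T σ τ d j * T σ τ d (j + 2)) ((T σ τ d (j - 3))⁻¹ * (T σ τ d (j - 1))⁻¹) +
        (ham ((T σ τ d (j - 3))⁻¹ * (T σ τ d (j - 1))⁻¹) (T σ τ d (j - 2))⁻¹ +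
          ham (T σ τ d (j - 2))⁻¹ (T σ τ d (j + 1))) :=
        (ham_triangle _ _ _).trans (Nat.add_le_add_left (ham_triangle _ _ _) _)
    _ ≤ (β + β) + (β + β) := by
        refine Nat.add_le_add ((ham_mul_le (m _) (m _) (mi _)).trans (Nat.add_le_add a1 a2))
          (Nat.add_le_add a5 ?_)
        rw [ham_comm]
        exact a3
    _ = 4 * β := by ring

include h1 h2 in
theorem ham_comm01 : ham (T σ τ d 0 * T σ τ d 1) (T σ τ d 1 * T σ τ d 0) ≤ 5 * β := by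
  have m : ∀ k, T σ τ d k ∈ Gam F := T_mem σ τ d
  have a1 := ham_other σ τ d h1 h2 0
  rw [zero_add, zero_add] at a1
  calc ham (T σ τ d 0 * T σ τ d 1) (T σ τ d 1 * T σ τ d 0)
      ≤ ham (T σ τ d 0 * T σ τ d 1) (T σ τ d 0 * (T σ τ d 2 * T σ τ d 0)) +
        ham (T σ τ d 0 * (T σ τ d 2 * T σ τ d 0)) (T σ τ d 1 * T σ τ d 0) := ham_triangle _ _ _
    _ = ham (T σ τ d 2 * T σ τ d 0) (T σ τ d 1) + ham (T σ τ d 0 * T σ τ d 2) (T σ τ d 1) := by
        rw [ham_mul_left, ← mul_assoc, ham_mul_right (m 0) ((Gam F).mul_mem (m _) (m _)) (m _),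
          ham_comm]
    _ ≤ β + 4 * β := Nat.add_le_add h1 a1
    _ = 5 * β := by ring

/-- the lattice translation by `(m, n)` -/
def V (m n : ℕ) : Perm (F × ℂ) := T σ τ d 1 ^ n * T σ τ d 0 ^ m

theorem V_mem (m n : ℕ) : V σ τ d m n ∈ Gam F :=
  (Gam F).mul_mem ((Gam F).pow_mem (T_mem _ _ _ _) _) ((Gam F).pow_mem (T_mem _ _ _ _) _)

theorem norm_dsp_pow {g : Perm (F × ℂ)} (hg : g ∈ Gam F) {B : ℝ} (hB : ∀ f, ‖dsp g f‖ ≤ B) (n : ℕ)
    (f : F) : ‖dsp (g ^ n) f‖ ≤ n * B := by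
  induction n generalizing f with
  | zero => simp [dsp_one]
  | succ n ih =>
    rw [pow_succ, dsp_mul ((Gam F).pow_mem hg n)]
    refine (norm_add_le _ _).trans ?_
    have := ih (tgt g f)
    have := hB f
    push_cast
    linarith

theorem norm_dsp_V (hd : ∀ f, ‖d f‖ ≤ 2) (m n : ℕ) (f : F) :
    ‖dsp (V σ τ d m n) f‖ ≤ 2 * (m + n : ℕ) := by
  unfold V
  rw [dsp_mul ((Gam F).pow_mem (T_mem _ _ _ _) _)]
  refine (norm_add_le _ _).trans ?_
  have h1 := norm_dsp_pow (T_mem σ τ d 1) (norm_dsp_T σ τ d hd 1) n (tgt (T σ τ d 0 ^ m) f)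
  have h2 := norm_dsp_pow (T_mem σ τ d 0) (norm_dsp_T σ τ d hd 0) m f
  push_cast
  linarith

include h1 h2

theorem ham_V_mul (a b a' b' : ℕ) :
    ham (V σ τ d (a + a') (b + b')) (V σ τ d a b * V σ τ d a' b') ≤ a * b' * (5 * β) := by
  have m : ∀ k, T σ τ d k ∈ Gam F := T_mem σ τ d
  have mp : ∀ k (n : ℕ), T σ τ d k ^ n ∈ Gam F := fun k n => (Gam F).pow_mem (m k) n
  unfold V
  have e1 : T σ τ d 1 ^ (b + b') * T σ τ d 0 ^ (a + a') =
      T σ τ d 1 ^ b * ((T σ τ d 1 ^ b' * T σ τ d 0 ^ a) * T σ τ d 0 ^ a') := by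
    rw [pow_add, pow_add]
    simp only [mul_assoc]
  have e2 : T σ τ d 1 ^ b * T σ τ d 0 ^ a * (T σ τ d 1 ^ b' * T σ τ d 0 ^ a') =
      T σ τ d 1 ^ b * ((T σ τ d 0 ^ a * T σ τ d 1 ^ b') * T σ τ d 0 ^ a') := by
    simp only [mul_assoc]
  rw [e1, e2, ham_mul_left, ham_mul_right (mp _ _) ((Gam F).mul_mem (mp _ _) (mp _ _))
    ((Gam F).mul_mem (mp _ _) (mp _ _)), ham_comm]
  refine (ham_pow_comm (m 0) (m 1) a b').trans ?_
  have := ham_comm01 σ τ d h1 h2
  gcongr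

theorem ham_step0 (a b : ℕ) :
    ham (V σ τ d (a + 1) b) (T σ τ d 0 * V σ τ d a b) ≤ b * (5 * β) := by
  have h := ham_V_mul σ τ d h1 h2 1 0 a b
  have e : V σ τ d 1 0 = T σ τ d 0 := by simp [V]
  rw [e, zero_add, add_comm 1 a, one_mul] at h
  exact h

omit h1 h2 in
theorem V_step1 (a b : ℕ) : V σ τ d a (b + 1) = T σ τ d 1 * V σ τ d a b := by
  unfold V
  rw [pow_succ', mul_assoc]

theorem ham_step5 (a b : ℕ) :
    ham (V σ τ d (a + 1) b) (T σ τ d (-1) * V σ τ d a (b + 1)) ≤ b * (5 * β) + 4 * β := by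
  have m : ∀ k, T σ τ d k ∈ Gam F := T_mem σ τ d
  rw [V_step1, ← mul_assoc]
  have h3 := ham_other σ τ d h1 h2 (-1)
  rw [show (-1:ℤ) + 2 = 1 by norm_num, show (-1:ℤ) + 1 = 0 by norm_num] at h3
  calc ham (V σ τ d (a + 1) b) (T σ τ d (-1) * T σ τ d 1 * V σ τ d a b)
      ≤ ham (V σ τ d (a + 1) b) (T σ τ d 0 * V σ τ d a b) +
        ham (T σ τ d 0 * V σ τ d a b) (T σ τ d (-1) * T σ τ d 1 * V σ τ d a b) :=
        ham_triangle _ _ _
    _ ≤ b * (5 * β) + 4 * β := by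
        refine Nat.add_le_add (ham_step0 σ τ d h1 h2 a b) ?_
        rw [ham_mul_right (V_mem _ _ _ _ _) (m 0) ((Gam F).mul_mem (m _) (m _)), ham_comm]
        exact h3

/-- **Sum of the squares of the displacements.** -/
theorem DD_V_le (hd : ∀ f, ‖d f‖ ≤ 2) (m n : ℕ) :
    DD (V σ τ d m n) ≤ ((m:ℝ) ^ 2 + m * n + n ^ 2) * ∑ f, ‖d f‖ ^ 2 + 11 * β * (m + n : ℝ) ^ 8 := by
  set D0 := ∑ f, ‖d f‖ ^ 2 with hD0
  suffices H : ∀ S : ℕ, ∀ m n : ℕ, m + n = S → DD (V σ τ d m n) ≤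
      ((m:ℝ) ^ 2 + m * n + n ^ 2) * D0 + 11 * β * (m + n : ℝ) ^ 8 from H _ m n rfl
  intro S
  induction S using Nat.strong_induction_on with
  | _ S ih =>
  intro m n hmn
  have hβ : (0:ℝ) ≤ β := by positivity
  rcases Nat.lt_or_ge S 2 with hS | hS
  · -- small cases
    have hcases : (m = 0 ∧ n = 0) ∨ (m = 1 ∧ n = 0) ∨ (m = 0 ∧ n = 1) := by omega
    rcases hcases with ⟨rfl, rfl⟩ | ⟨rfl, rfl⟩ | ⟨rfl, rfl⟩
    · simp [V, DD, dsp_one]
    · have : DD (V σ τ d 1 0) = D0 := by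
        simp only [V, pow_zero, pow_one, one_mul]
        exact DD_T σ τ d 0
      rw [this]
      norm_num
    · have : DD (V σ τ d 0 1) = D0 := by
        simp only [V, pow_zero, pow_one, mul_one]
        exact DD_T σ τ d 1
      rw [this]
      norm_num
  · -- induction step
    have main : ∀ (a b a' b' : ℕ) (δ : Perm (F × ℂ)) (qδ : ℝ) (x : ℕ), δ ∈ Gam F →
        (∀ f, ‖dsp δ f‖ ≤ 2) → DD δ = qδ * D0 → m = a + a' → n = b + b' →
        2 * (a + b) ≤ m + n + 1 → 2 * (a' + b') ≤ m + n + 1 →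
        ham (V σ τ d a b) (δ * V σ τ d a' b') ≤ x → x ≤ (m + n) * (5 * β) + 4 * β →
        2 * ((a:ℝ) ^ 2 + a * b + b ^ 2) + 2 * ((a':ℝ) ^ 2 + a' * b' + b' ^ 2) - qδ =
          (m:ℝ) ^ 2 + m * n + n ^ 2 →
        DD (V σ τ d m n) ≤ ((m:ℝ) ^ 2 + m * n + n ^ 2) * D0 + 11 * β * (m + n : ℝ) ^ 8 := by
      intro a b a' b' δ qδ x hδ hδ2 hDδ hm hn ha ha' hx hx2 hq
      have hp := parallelogram (u := V σ τ d a b) (w := V σ τ d a' b') (v := V σ τ d m n)
        (V_mem _ _ _ _ _) (V_mem _ _ _ _ _) hδ (norm_dsp_V σ τ d hd m n) hδ2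
      have i1 := ih (a + b) (by omega) a b rfl
      have i2 := ih (a' + b') (by omega) a' b' rfl
      have k1 : ham (V σ τ d m n) (V σ τ d a' b' * V σ τ d a b) ≤ (m + n) * (m + n) * (5 * β) := by
        have := ham_V_mul σ τ d h1 h2 a' b' a b
        rw [hm, hn, add_comm a a', add_comm b b']
        refine this.trans ?_
        have : a' * b ≤ (a' + a + (b' + b)) * (a' + a + (b' + b)) :=
          Nat.mul_le_mul (by omega) (by omega)
        gcongr
      have k2 : ham (V σ τ d m n) (V σ τ d a b * V σ τ d a' b') ≤ (m + n) * (m + n) * (5 * β) := by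
        have := ham_V_mul σ τ d h1 h2 a b a' b'
        rw [hm, hn]
        refine this.trans ?_
        have : a * b' ≤ (a + a' + (b + b')) * (a + a' + (b + b')) :=
          Nat.mul_le_mul (by omega) (by omega)
        gcongr
      set S' : ℝ := (m:ℝ) + n with hS'
      have hS2 : (2:ℝ) ≤ S' := by
        have : 2 ≤ m + n := by omega
        rw [hS']
        exact_mod_cast this
      have hsum : ((ham (V σ τ d m n) (V σ τ d a' b' * V σ τ d a b) +
          ham (V σ τ d m n) (V σ τ d a b * V σ τ d a' b') +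
          ham (V σ τ d a b) (δ * V σ τ d a' b') : ℕ) : ℝ) ≤ 20 * β * S' ^ 2 := by
        have : ham (V σ τ d m n) (V σ τ d a' b' * V σ τ d a b) +
          ham (V σ τ d m n) (V σ τ d a b * V σ τ d a' b') +
          ham (V σ τ d a b) (δ * V σ τ d a' b') ≤ (m + n) * (m + n) * (5 * β) +
            (m + n) * (m + n) * (5 * β) + ((m + n) * (5 * β) + 4 * β) := by omega
        have h3 : ((ham (V σ τ d m n) (V σ τ d a' b' * V σ τ d a b) +
          ham (V σ τ d m n) (V σ τ d a b * V σ τ d a' b') +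
          ham (V σ τ d a b) (δ * V σ τ d a' b') : ℕ) : ℝ) ≤ (((m + n) * (m + n) * (5 * β) +
            (m + n) * (m + n) * (5 * β) + ((m + n) * (5 * β) + 4 * β) : ℕ) : ℝ) := by
          exact_mod_cast this
        refine h3.trans ?_
        push_cast
        rw [← hS']
        nlinarith [mul_nonneg hβ (sub_nonneg.mpr hS2),
          mul_nonneg hβ (mul_nonneg (sub_nonneg.mpr hS2) (sub_nonneg.mpr hS2))]
      have hB : (0:ℝ) ≤ (2 * ((m + n : ℕ) : ℝ)) ^ 2 + 4 := by positivity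
      have k3 := mul_le_mul_of_nonneg_right hsum hB
      have k4 : 20 * β * S' ^ 2 * ((2 * ((m + n : ℕ) : ℝ)) ^ 2 + 4) ≤ 100 * β * S' ^ 4 := by
        push_cast
        rw [← hS']
        have : (2 * S') ^ 2 + 4 ≤ 5 * S' ^ 2 := by nlinarith
        calc 20 * β * S' ^ 2 * ((2 * S') ^ 2 + 4) ≤ 20 * β * S' ^ 2 * (5 * S' ^ 2) := by gcongr
          _ = _ := by ring
      have pw : ∀ t : ℝ, 0 ≤ t → 2 * t ≤ S' + 1 → t ^ 8 ≤ (3 / 4) ^ 8 * S' ^ 8 := by
        intro t ht ht2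
        rw [← mul_pow]
        exact pow_le_pow_left₀ ht (by linarith) 8
      have ha2 : 2 * ((a:ℝ) + b) ≤ S' + 1 := by
        rw [hS']
        exact_mod_cast ha
      have ha2' : 2 * ((a':ℝ) + b') ≤ S' + 1 := by
        rw [hS']
        exact_mod_cast ha'
      have p1 := pw ((a:ℝ) + b) (by positivity) ha2
      have p2 := pw ((a':ℝ) + b') (by positivity) ha2'
      have hS8 : 16 * S' ^ 4 ≤ S' ^ 8 := by
        have : (2:ℝ) ^ 4 ≤ S' ^ 4 := by gcongr
        have e : S' ^ 8 = S' ^ 4 * S' ^ 4 := by ring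
        rw [e]
        nlinarith [pow_nonneg (by linarith : (0:ℝ) ≤ S') 4]
      have q1 : 11 * β * ((a:ℝ) + b) ^ 8 ≤ 11 * β * ((3 / 4) ^ 8 * S' ^ 8) := by gcongr
      have q2 : 11 * β * ((a':ℝ) + b') ^ 8 ≤ 11 * β * ((3 / 4) ^ 8 * S' ^ 8) := by gcongr
      have q3 : 100 * β * S' ^ 4 + 4 * (11 * β * ((3 / 4) ^ 8 * S' ^ 8)) ≤ 11 * β * S' ^ 8 := by
        have : 100 * (β:ℝ) * S' ^ 4 ≤ 100 / 16 * β * S' ^ 8 := by
          have := mul_le_mul_of_nonneg_left hS8 (by positivity : (0:ℝ) ≤ 100 / 16 * β)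
          linarith
        have h9 : 0 ≤ (β:ℝ) * S' ^ 8 := by positivity
        nlinarith
      have hq' : ((m:ℝ) ^ 2 + m * n + n ^ 2) * D0 = 2 * (((a:ℝ) ^ 2 + a * b + b ^ 2) * D0) +
          2 * (((a':ℝ) ^ 2 + a' * b' + b' ^ 2) * D0) - qδ * D0 := by
        rw [← hq]; ring
      rw [hq', ← hDδ]
      linarith
    obtain ⟨a, ha⟩ : ∃ a, m = 2 * a ∨ m = 2 * a + 1 := ⟨m / 2, by omega⟩
    obtain ⟨b, hb⟩ : ∃ b, n = 2 * b ∨ n = 2 * b + 1 := ⟨n / 2, by omega⟩
    rcases ha with ha | ha <;> rcases hb with hb | hb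
    · refine main a b a b 1 0 0 (Gam F).one_mem (fun f => by simp [dsp_one]) (by simp [DD, dsp_one])
        (by omega) (by omega) (by omega) (by omega) (by simp [ham_self]) (by simp) ?_
      rw [ha, hb]; push_cast; ring
    · refine main a (b + 1) a b (T σ τ d 1) 1 0 (T_mem _ _ _ _) (norm_dsp_T σ τ d hd 1)
        (by rw [DD_T, one_mul]) (by omega) (by omega) (by omega) (by omega)
        (by rw [V_step1, ham_self]) (by simp) ?_
      rw [ha, hb]; push_cast; ring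
    · refine main (a + 1) b a b (T σ τ d 0) 1 (b * (5 * β)) (T_mem _ _ _ _)
        (norm_dsp_T σ τ d hd 0) (by rw [DD_T, one_mul]) (by omega) (by omega) (by omega) (by omega)
        (ham_step0 σ τ d h1 h2 a b) ?_ ?_
      · have : b * (5 * β) ≤ (m + n) * (5 * β) := Nat.mul_le_mul_right _ (by omega)
        omega
      · rw [ha, hb]; push_cast; ring
    · refine main (a + 1) b a (b + 1) (T σ τ d (-1)) 1 (b * (5 * β) + 4 * β) (T_mem _ _ _ _)
        (norm_dsp_T σ τ d hd (-1)) (by rw [DD_T, one_mul]) (by omega) (by omega) (by omega)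
        (by omega) (ham_step5 σ τ d h1 h2 a b) ?_ ?_
      · have : b * (5 * β) ≤ (m + n) * (5 * β) := Nat.mul_le_mul_right _ (by omega)
        omega
      · rw [ha, hb]; push_cast; ring

end

end Pool.Agent.H96.UO
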