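import Pool.Agent.H96.UO.Hex
import Pool.Agent.H96.UO.Group

/-!
# Steep universal optimality: the flags of a configuration

A flag is a pair of a point (modulo periods) and one of its six neighbours.
-/

set_option autoImplicit false
set_option linter.unusedSectionVars false

open Real Set
open Equiv (Perm)

namespace Pool.Agent.H96.UO

section

variable {ι : Type*} [Fintype ι] [DecidableEq ι] (L : Submodule ℤ ℂ) (x : ι → ℂ)

/-- the vectors from the point `x i` to the points of the configuration -/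
def Vec (i : ι) : Set ℂ := {z | ∃ j, z - (x j - x i) ∈ L}

/-- configurations with minimal distance at least `17/10` -/
structure Sep : Prop where
  inj : ∀ i j, x i - x j ∈ L → i = j
  sep : ∀ i, ∀ z ∈ Vec L x i, z ≠ 0 → 17 / 10 ≤ ‖z‖

variable {L x}

theorem vec_sub {i j : ι} {z w : ℂ} (hz : z ∈ Vec L x i) (hw : w - (x j - x i) ∈ L) :
    z - w ∈ Vec L x j := by
  obtain ⟨k, hk⟩ := hz
  refine ⟨k, ?_⟩
  have : z - w - (x k - x j) = (z - (x k - x i)) - (w - (x j - x i)) := by ring
  rw [this]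
  exact L.sub_mem hk hw

theorem zero_mem_vec (i : ι) : (0 : ℂ) ∈ Vec L x i := ⟨i, by simp⟩

theorem vec_neg {i j : ι} {w : ℂ} (hw : w - (x j - x i) ∈ L) : -w ∈ Vec L x j := by
  have := vec_sub (zero_mem_vec (L := L) (x := x) i) hw
  rwa [zero_sub] at this

theorem Sep.eq_class (h : Sep L x) {i j k : ι} {w : ℂ} (hj : w - (x j - x i) ∈ L)
    (hk : w - (x k - x i) ∈ L) : j = k := by
  apply h.inj
  have : x j - x k = (w - (x k - x i)) - (w - (x j - x i)) := by ring
  rw [this]
  exact L.sub_mem hk hj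

theorem Sep.eq_of_near (h : Sep L x) {i : ι} {z w : ℂ} (hz : z ∈ Vec L x i) (hw : w ∈ Vec L x i)
    (hn : ‖z - w‖ < 17 / 10) : z = w := by
  obtain ⟨j, hj⟩ := hw
  by_contra hne
  have := h.sep j (z - w) (vec_sub hz hj) (sub_ne_zero.mpr hne)
  linarith

variable (L x)

/-- good points -/
def gd (i : ι) : Prop := ∃ w, Good (Vec L x i) w

open Classical in
/-- the displacement of a flag -/
noncomputable def dd (f : ι × Fin 6) : ℂ := if h : gd L x f.1 then h.choose f.2 else 0

variable {L x}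

theorem good_spec {i : ι} (h : gd L x i) : Good (Vec L x i) fun k => dd L x (i, k) := by
  have : (fun k => dd L x (i, k)) = h.choose := by
    ext k
    simp [dd, h]
  rw [this]
  exact h.choose_spec

theorem dd_bad {f : ι × Fin 6} (h : ¬ gd L x f.1) : dd L x f = 0 := by simp [dd, h]

theorem dd_sq {f : ι × Fin 6} (h : gd L x f.1) : |‖dd L x f‖ ^ 2 - 3| ≤ 1 / 50 :=
  (good_spec h).near f.2

theorem norm_dd_le (f : ι × Fin 6) : ‖dd L x f‖ ≤ 2 := by
  by_cases h : gd L x f.1
  · have := (abs_le.mp (dd_sq h)).2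
    nlinarith [norm_nonneg (dd L x f)]
  · rw [dd_bad h]; simp

theorem norm_dd_bounds {f : ι × Fin 6} (h : gd L x f.1) :
    1726 / 1000 ≤ ‖dd L x f‖ ∧ ‖dd L x f‖ ≤ 1738 / 1000 := by
  have h1 := abs_le.mp (dd_sq h)
  constructor
  · by_contra hcon
    push Not at hcon
    nlinarith [norm_nonneg (dd L x f), h1.1]
  · by_contra hcon
    push Not at hcon
    nlinarith [norm_nonneg (dd L x f), h1.2]

variable (L x)

open Classical in
/-- the class of the neighbour -/
noncomputable def tc (f : ι × Fin 6) : ι :=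
  if h : ∃ j, dd L x f - (x j - x f.1) ∈ L then h.choose else f.1

/-- flags from a good point to a good point -/
def Dom (f : ι × Fin 6) : Prop := gd L x f.1 ∧ gd L x (tc L x f)

open Classical in
/-- the next flag -/
noncomputable def nx (f : ι × Fin 6) : ι × Fin 6 :=
  if h : ∃ l, dd L x (tc L x f, l) = - dd L x f then (tc L x f, h.choose + 3) else f

variable {L x}

theorem tc_spec {f : ι × Fin 6} (h : gd L x f.1) : dd L x f - (x (tc L x f) - x f.1) ∈ L := by
  have h1 : ∃ j, dd L x f - (x j - x f.1) ∈ L := (good_spec h).mem f.2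
  unfold tc
  rw [dif_pos h1]
  exact h1.choose_spec

theorem Sep.tc_eq (hS : Sep L x) {f : ι × Fin 6} {j : ι} (h : gd L x f.1)
    (hj : dd L x f - (x j - x f.1) ∈ L) : tc L x f = j :=
  hS.eq_class (tc_spec h) hj

theorem fin6_add (l : Fin 6) : l + 3 + 3 = l := by
  revert l; decide

theorem exists_back {f : ι × Fin 6} (h : Dom L x f) :
    ∃ l, dd L x (tc L x f, l) = - dd L x f := by
  have h1 := vec_neg (tc_spec h.1)
  obtain ⟨b1, b2⟩ := norm_dd_bounds h.1
  obtain ⟨l, hl⟩ := (good_spec h.2).all _ h1 (by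
      rw [neg_ne_zero, ← norm_pos_iff]; linarith) (by rw [norm_neg]; linarith)
  exact ⟨l, hl⟩

theorem nx_fst {f : ι × Fin 6} (h : Dom L x f) : (nx L x f).1 = tc L x f := by
  unfold nx
  rw [dif_pos (exists_back h)]

theorem nx_back {f : ι × Fin 6} (h : Dom L x f) :
    dd L x (tc L x f, (nx L x f).2 + 3) = - dd L x f := by
  have h1 := exists_back h
  have h2 : (nx L x f).2 + 3 = h1.choose := by
    unfold nx
    rw [dif_pos h1]
    exact fin6_add _
  rw [h2]
  exact h1.choose_spec

theorem dd_inj {i : ι} (h : gd L x i) {k l : Fin 6} (he : dd L x (i, k) = dd L x (i, l)) : k = l :=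
  (good_spec h).inj he

theorem Sep.nx_inj (hS : Sep L x) : Set.InjOn (nx L x) {f | Dom L x f} := by
  intro f hf f' hf' he
  have e1 : tc L x f = tc L x f' := by rw [← nx_fst hf, he, nx_fst hf']
  have e2 : dd L x f = dd L x f' := by
    have a := nx_back hf
    have b := nx_back hf'
    rw [he, e1, b] at a
    exact (neg_injective a).symm
  have e3 : f.1 = f'.1 := by
    apply hS.inj
    have a := tc_spec hf.1
    have b := tc_spec hf'.1
    have : x f.1 - x f'.1 = (dd L x f - (x (tc L x f) - x f.1)) -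
        (dd L x f' - (x (tc L x f') - x f'.1)) := by
      rw [e1, e2]; ring
    rw [this]
    exact L.sub_mem a b
  refine Prod.ext e3 ?_
  refine dd_inj hf.1 (k := f.2) (l := f'.2) ?_
  have e4 : (f.1, f'.2) = f' := by rw [e3]
  rw [e4]
  exact e2

/-- the rotation of the flags -/
def sg (ι : Type*) : Perm (ι × Fin 6) := (Equiv.refl ι).prodCongr (Equiv.addRight 1)

theorem sg_apply (f : ι × Fin 6) : sg ι f = (f.1, f.2 + 1) := rfl

theorem sg_two (f : ι × Fin 6) : sg ι (sg ι f) = (f.1, f.2 + 2) := by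
  rw [sg_apply, sg_apply]
  simp only [add_assoc]
  rfl

theorem sg_three (f : ι × Fin 6) : sg ι (sg ι (sg ι f)) = (f.1, f.2 + 3) := by
  rw [sg_apply, sg_apply, sg_apply]
  simp only [add_assoc]
  rfl

theorem Sep.exists_tau (hS : Sep L x) : ∃ τ : Perm (ι × Fin 6), ∀ f, Dom L x f → τ f = nx L x f := by
  classical
  have h1 : Fintype.card (ι × Fin 6) = (Finset.univ : Finset (ι × Fin 6)).card :=
    Finset.card_univ.symm
  obtain ⟨g, hg⟩ := Finset.exists_equiv_extend_of_card_eq h1
    (s := Finset.univ.filter fun f => Dom L x f) (f := nx L x) (Finset.subset_univ _)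
    (fun f hf f' hf' he => hS.nx_inj (by simpa using hf) (by simpa using hf') he)
  refine ⟨g.trans (Equiv.subtypeUnivEquiv fun f => Finset.mem_univ f), fun f hf => ?_⟩
  have := hg f (by simpa using hf)
  rw [← this]
  rfl

section

variable (hS : Sep L x) {τ : Perm (ι × Fin 6)} (hτ : ∀ f, Dom L x f → τ f = nx L x f)

include hτ

theorem tau_fst {f : ι × Fin 6} (h : Dom L x f) : (τ f).1 = tc L x f := by
  rw [hτ f h, nx_fst h]

theorem tau_good {f : ι × Fin 6} (h : Dom L x f) : gd L x (τ f).1 := by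
  rw [tau_fst hτ h]; exact h.2

theorem tau_back {f : ι × Fin 6} (h : Dom L x f) :
    dd L x (sg ι (sg ι (sg ι (τ f)))) = - dd L x f := by
  rw [sg_three, tau_fst hτ h, hτ f h]
  exact nx_back h

include hS

/-- the way back -/
theorem tau_back_dom {f : ι × Fin 6} (h : Dom L x f) : Dom L x (sg ι (sg ι (sg ι (τ f)))) ∧
    τ (sg ι (sg ι (sg ι (τ f)))) = sg ι (sg ι (sg ι f)) := by
  set g := sg ι (sg ι (sg ι (τ f))) with hg
  have hb := tau_back hτ h
  rw [← hg] at hb
  have hg1 : g.1 = tc L x f := by rw [hg, sg_three, tau_fst hτ h]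
  have hgg : gd L x g.1 := by rw [hg1]; exact h.2
  have htc : tc L x g = f.1 := by
    refine hS.tc_eq hgg ?_
    rw [hb, hg1]
    have : -dd L x f - (x f.1 - x (tc L x f)) = -(dd L x f - (x (tc L x f) - x f.1)) := by ring
    rw [this]
    exact L.neg_mem (tc_spec h.1)
  have hD : Dom L x g := ⟨hgg, by rw [htc]; exact h.1⟩
  refine ⟨hD, ?_⟩
  have h1 := tau_fst hτ hD
  rw [htc] at h1
  have h2 := tau_back hτ hD
  rw [hb, neg_neg, sg_three, h1] at h2
  have h3 : (τ g).2 + 3 = f.2 := dd_inj (i := f.1) h.1 h2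
  rw [sg_three]
  refine Prod.ext h1 ?_
  show (τ g).2 = f.2 + 3
  rw [← h3, fin6_add]

/-- the triangle relation -/
theorem tau_triangle {f : ι × Fin 6} (h : Dom L x f) (h' : Dom L x (sg ι f)) :
    dd L x (sg ι (sg ι (τ f))) + dd L x f = dd L x (sg ι f) ∧
    Dom L x (sg ι (sg ι (τ f))) ∧ τ (sg ι (sg ι (τ f))) = sg ι (τ (sg ι f)) := by
  set i := f.1 with hi
  set j := tc L x f with hj
  set m := tc L x (sg ι f) with hm
  set g := sg ι (sg ι (τ f)) with hg
  have hgj : g.1 = j := by rw [hg, sg_two, tau_fst hτ h]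
  have hgg : gd L x g.1 := by rw [hgj]; exact h.2
  have hb := tau_back hτ h
  -- approximate equalities
  have r1 : ‖dd L x (sg ι f) - om * dd L x f‖ ≤ 2 / 5 := (good_spec h.1).rot f.2
  have r2 : ‖dd L x (sg ι g) - om * dd L x g‖ ≤ 2 / 5 := (good_spec hgg).rot g.2
  rw [hg, hb, ← hg] at r2
  have homega : (1 - om) * om = 1 := by
    have := om_sq
    linear_combination -this
  have e1 : ‖dd L x g - (dd L x (sg ι f) - dd L x f)‖ ≤ 4 / 5 := by
    have : dd L x g - (dd L x (sg ι f) - dd L x f) =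
        -((1 - om) * (-dd L x f - om * dd L x g)) - (dd L x (sg ι f) - om * dd L x f) := by
      linear_combination (-dd L x g) * homega
    rw [this]
    refine (norm_sub_le _ _).trans ?_
    rw [norm_neg, norm_mul]
    have h1 : ‖1 - om‖ = 1 := by
      have := congrArg norm homega
      rwa [norm_mul, norm_om, mul_one, norm_one] at this
    rw [h1, one_mul]
    linarith
  have hmem1 : dd L x (sg ι f) - dd L x f ∈ Vec L x j :=
    vec_sub ((good_spec h.1).mem (f.2 + 1)) (tc_spec h.1)
  have hmem2 : dd L x g ∈ Vec L x j := by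
    rw [← hgj]; exact (good_spec hgg).mem g.2
  have heq : dd L x g = dd L x (sg ι f) - dd L x f :=
    hS.eq_of_near hmem2 hmem1 (by linarith)
  have htc : tc L x g = m := by
    refine hS.tc_eq hgg ?_
    rw [heq, hgj]
    have : dd L x (sg ι f) - dd L x f - (x m - x j) =
        (dd L x (sg ι f) - (x m - x i)) - (dd L x f - (x j - x i)) := by ring
    rw [this]
    exact L.sub_mem (tc_spec h'.1) (tc_spec h.1)
  have hD : Dom L x g := ⟨hgg, by rw [htc]; exact h'.2⟩
  refine ⟨by rw [heq]; ring, hD, ?_⟩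
  -- both flags are at `m`
  have t1 : (τ g).1 = m := by rw [tau_fst hτ hD, htc]
  have t2 : (τ (sg ι f)).1 = m := tau_fst hτ h'
  have b1 := tau_back hτ hD
  have b2 := tau_back hτ h'
  rw [sg_three, t1] at b1
  rw [sg_three, t2] at b2
  have hgm : gd L x m := h'.2
  have r3 : ‖dd L x (m, (τ (sg ι f)).2 + 3 + 1) - om * dd L x (m, (τ (sg ι f)).2 + 3)‖ ≤ 2 / 5 :=
    (good_spec hgm).rot _
  rw [b2] at r3
  have e2 : dd L x (m, (τ g).2 + 3) = dd L x (m, (τ (sg ι f)).2 + 3 + 1) := by
    refine hS.eq_of_near (i := m) ((good_spec hgm).mem _) ((good_spec hgm).mem _) ?_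
    rw [b1, heq]
    have : -(dd L x (sg ι f) - dd L x f) - dd L x (m, (τ (sg ι f)).2 + 3 + 1) =
        -(1 - om) * (dd L x (sg ι f) - om * dd L x f) -
          (dd L x (m, (τ (sg ι f)).2 + 3 + 1) - om * -dd L x (sg ι f)) := by
      linear_combination (-dd L x f) * homega
    rw [this]
    refine lt_of_le_of_lt (norm_sub_le _ _) ?_
    rw [norm_mul, norm_neg]
    have h1 : ‖1 - om‖ = 1 := by
      have := congrArg norm homega
      rwa [norm_mul, norm_om, mul_one, norm_one] at this
    rw [h1, one_mul]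
    linarith
  have e3 := dd_inj hgm e2
  rw [sg_apply]
  refine Prod.ext (t1.trans t2.symm) ?_
  show (τ g).2 = (τ (sg ι f)).2 + 1
  have e4 : (τ g).2 + 3 + 3 = (τ (sg ι f)).2 + 3 + 1 + 3 := by rw [e3]
  rw [fin6_add] at e4
  rw [e4]
  have : ∀ l : Fin 6, l + 3 + 1 + 3 = l + 1 := by decide
  exact this _

end

end

end Pool.Agent.H96.UO
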