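import Pool.Agent.H96.UO.Norm

/-!
# Steep universal optimality: log-convex potentials, scaling
-/

set_option autoImplicit false
set_option linter.unusedSectionVars false

open Real Set
open scoped ENNReal

namespace Pool.Agent.H96.UO

/-- Steep log-convex potentials: `g > 0` and `log g` is convex on `(0, ∞)`, and `t ^ 200 * g t` is
nonincreasing on `[A, ∞)`. -/
structure Steep (g : ℝ → ℝ) (A : ℝ) : Prop where
  pos : ∀ t, 0 < t → 0 < g t
  conv : ConvexOn ℝ (Ioi 0) fun t => log (g t)
  anti : AntitoneOn (fun t => t ^ 200 * g t) (Ici A)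

theorem tangent_line {h : ℝ → ℝ} (hh : ConvexOn ℝ (Ioi 0) h) {a t : ℝ} (ha : 0 < a) (ht : 0 < t) :
    h a + derivWithin h (Ioi a) a * (t - a) ≤ h t := by
  have hint : a ∈ interior (Ioi (0:ℝ)) := by rw [interior_Ioi]; exact ha
  rcases lt_trichotomy t a with h1 | h1 | h1
  · have h2 := hh.slope_le_leftDeriv_of_mem_interior (x := t) (y := a) ht hint h1
    have h3 := hh.leftDeriv_le_rightDeriv_of_mem_interior hint
    have h4 := h2.trans h3
    rw [slope_def_field, div_le_iff₀ (by linarith)] at h4
    linarith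
  · rw [h1]; simp
  · have h2 := hh.rightDeriv_le_slope_of_mem_interior hint (y := t) ht h1
    rw [slope_def_field, le_div_iff₀ (by linarith)] at h2
    linarith

section

variable {g : ℝ → ℝ}

/-- the right derivative is very negative -/
theorem slope_le (hg : Steep g 3) {a t : ℝ} (ha : 3 ≤ a) (hat : a < t) :
    derivWithin (fun t => log (g t)) (Ioi a) a ≤ -200 / t := by
  have h1 := tangent_line hg.conv (a := a) (t := t) (by linarith) (by linarith)
  have h2 := hg.anti (show a ∈ Ici 3 from ha) (show t ∈ Ici 3 by simp only [mem_Ici]; linarith) hat.le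
  simp only at h1 h2
  have ha0 : 0 < a := by linarith
  have ht0 : 0 < t := by linarith
  have h3 : 200 * log t + log (g t) ≤ 200 * log a + log (g a) := by
    have := log_le_log (mul_pos (pow_pos ht0 _) (hg.pos t ht0)) h2
    rw [log_mul (by positivity) (hg.pos t ht0).ne', log_mul (by positivity) (hg.pos a ha0).ne',
      log_pow, log_pow] at this
    exact_mod_cast this
  have h4 : 1 - a / t ≤ log t - log a := by
    have := log_le_sub_one_of_pos (show 0 < a / t by positivity)
    rw [log_div ha0.ne' ht0.ne'] at this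
    linarith
  have h5 : derivWithin (fun t => log (g t)) (Ioi a) a * (t - a) ≤ -200 / t * (t - a) := by
    have : -200 / t * (t - a) = -200 * (1 - a / t) := by field_simp
    rw [this]
    linarith
  exact le_of_mul_le_mul_right h5 (by linarith)

theorem exp_tangent (hg : Steep g 3) {a t : ℝ} (ha : 0 < a) (ht : 0 < t) :
    g a * exp (-(-derivWithin (fun t => log (g t)) (Ioi a) a * (t - a))) ≤ g t := by
  have h1 := tangent_line hg.conv ha ht
  have h2 := exp_le_exp.mpr h1
  rw [exp_add, exp_log (hg.pos a ha), exp_log (hg.pos t ht)] at h2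
  refine le_trans (le_of_eq ?_) h2
  congr 2
  ring

theorem exists_pot (hg : Steep g 3) : ∃ s, 66 ≤ s ∧ Pot g s := by
  set D : ℝ → ℝ := fun a => derivWithin (fun t => log (g t)) (Ioi a) a with hD
  have hDneg : ∀ a, 3 ≤ a → D a ≤ 0 := by
    intro a ha
    have h1 := slope_le hg ha (show a < a + 1 by linarith)
    have : -200 / (a + 1) ≤ 0 := by
      apply div_nonpos_of_nonpos_of_nonneg <;> linarith
    exact h1.trans this
  have hmono : ∀ a, 3 ≤ a → D 3 ≤ D a := by
    intro a ha
    refine hg.conv.monotoneOn_rightDeriv ?_ ?_ ha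
    · rw [interior_Ioi]; norm_num
    · rw [interior_Ioi]; exact lt_of_lt_of_le (by norm_num) ha
  refine ⟨-D 3, ?_, ?_⟩
  · have h1 := slope_le hg le_rfl (show (3:ℝ) < 100 / 33 by norm_num)
    have : -200 / (100 / 33 : ℝ) = -66 := by norm_num
    rw [this] at h1
    linarith
  · refine ⟨fun t ht => (hg.pos t ht).le, ?_, ?_, ?_⟩
    · intro t ht
      exact exp_tangent hg (by norm_num) ht
    · intro q hq
      have hq3 : (3:ℝ) ≤ q := by exact_mod_cast hq
      refine ⟨-D (3 * q), ?_, ?_, ?_⟩
      · have := hDneg (3 * q) (by linarith)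
        linarith
      · have := hmono (3 * q) (by linarith)
        linarith
      · intro t ht
        have hq0 : (0:ℝ) < 3 * q := by linarith
        refine le_trans ?_ (exp_tangent hg hq0 ht)
        have h1 := add_one_le_exp (-(-derivWithin (fun t => log (g t)) (Ioi (3 * (q:ℝ))) (3 * q) *
          (t - 3 * q)))
        have h2 := (hg.pos _ hq0).le
        refine mul_le_mul_of_nonneg_left ?_ h2
        refine le_trans (le_of_eq ?_) h1
        simp only [hD]
        ring
    · intro q hq
      have hq3 : (3:ℝ) ≤ q := by exact_mod_cast hq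
      have h2 := hg.anti (show (3:ℝ) ∈ Ici 3 from Set.self_mem_Ici) (show 3 * (q:ℝ) ∈ Ici 3 by
        simp only [mem_Ici]; linarith) (by linarith)
      simp only at h2
      rw [mul_pow, mul_assoc] at h2
      have h3 : (0:ℝ) < 3 ^ 200 := by positivity
      have h4 := le_of_mul_le_mul_left h2 h3
      linarith

theorem Steep.scale {A : ℝ} (hA : 0 < A) (hg : Steep g A) :
    Steep (fun t => g (A / 3 * t)) 3 := by
  have hc : 0 < A / 3 := by positivity
  refine ⟨fun t ht => hg.pos _ (by positivity), ?_, ?_⟩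
  · refine ⟨convex_Ioi 0, fun x hx y hy a b ha hb hab => ?_⟩
    have hx' : (0:ℝ) < x := hx
    have hy' : (0:ℝ) < y := hy
    have := hg.conv.2 (show A / 3 * x ∈ Ioi 0 from mul_pos hc hx')
      (show A / 3 * y ∈ Ioi 0 from mul_pos hc hy') ha hb hab
    simp only [smul_eq_mul] at this ⊢
    have e : A / 3 * (a * x + b * y) = a * (A / 3 * x) + b * (A / 3 * y) := by ring
    rw [e]
    exact this
  · intro x hx y hy hxy
    have hx' : (3:ℝ) ≤ x := hx
    have hy' : (3:ℝ) ≤ y := hy
    have e1 : A ≤ A / 3 * x := by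
      have : A / 3 * 3 ≤ A / 3 * x := by gcongr
      linarith
    have e2 : A ≤ A / 3 * y := e1.trans (by gcongr)
    have := hg.anti (show A / 3 * x ∈ Ici A from e1) (show A / 3 * y ∈ Ici A from e2) (by gcongr)
    simp only at this ⊢
    rw [mul_pow, mul_pow, mul_assoc, mul_assoc] at this
    exact le_of_mul_le_mul_left this (by positivity)

end

/-! ### scaling lattices -/

/-- multiplication by a nonzero real number -/
noncomputable def mulE (c : ℝ) (hc : c ≠ 0) : ℂ ≃L[ℝ] ℂ :=
  ContinuousLinearEquiv.smulLeft (Units.mk0 c hc)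

theorem mulE_apply (c : ℝ) (hc : c ≠ 0) (z : ℂ) : mulE c hc z = c * z := by
  simp [mulE]

section

variable {L : Submodule ℤ ℂ} [DiscreteTopology L] [IsZLattice ℝ L]

theorem mem_scale {c : ℝ} (hc : c ≠ 0) {z : ℂ} :
    z ∈ ZLattice.comap ℝ L (mulE c hc).toLinearMap ↔ (c:ℂ) * z ∈ L := by
  rw [← mulE_apply c hc]
  rfl

theorem covolume_scale {c : ℝ} (hc : c ≠ 0) :
    ZLattice.covolume (ZLattice.comap ℝ L (mulE c hc).toLinearMap) * c ^ 2 =
      ZLattice.covolume L := by
  classical
  have : Module.Finite ℤ L := ZLattice.module_finite ℝ L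
  have : Module.Free ℤ L := ZLattice.module_free ℝ L
  set b := Module.Free.chooseBasis ℤ L with hb
  set b₀ := b.ofZLatticeBasis ℝ L with hb0
  have h1 := ZLattice.covolume_eq_det_mul_measureReal
    (ZLattice.comap ℝ L (mulE c hc).toLinearMap) MeasureTheory.volume
    (b.ofZLatticeComap ℝ L (mulE c hc).toLinearEquiv) b₀
  have h2 := ZLattice.covolume_eq_det_mul_measureReal L MeasureTheory.volume b b₀
  have e : ((↑) ∘ (b.ofZLatticeComap ℝ L (mulE c hc).toLinearEquiv) : _ → ℂ) =
      fun i => (c⁻¹ : ℝ) • (((↑) ∘ b : _ → ℂ) i) := by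
    ext i
    simp only [Function.comp_apply]
    rw [Module.Basis.ofZLatticeComap_apply]
    have h3 : mulE c hc ((c⁻¹ : ℝ) • ((b i : L) : ℂ)) = ((b i : L) : ℂ) := by
      rw [mulE_apply, Complex.real_smul, Complex.ofReal_inv, mul_inv_cancel_left₀]
      exact_mod_cast hc
    have h4 : (mulE c hc).toLinearEquiv.symm ((b i : L) : ℂ) = (c⁻¹ : ℝ) • ((b i : L) : ℂ) := by
      rw [LinearEquiv.symm_apply_eq]
      exact h3.symm
    rw [h4]
  rw [e] at h1
  have h5 := (b₀.det).map_smul_univ (fun _ => (c⁻¹ : ℝ)) ((↑) ∘ b : _ → ℂ)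
  rw [h5, Finset.prod_const, Finset.card_univ, ← Module.finrank_eq_card_basis b₀,
    Complex.finrank_real_complex] at h1
  rw [h1, h2, smul_eq_mul, abs_mul, abs_of_nonneg (by positivity : (0:ℝ) ≤ c⁻¹ ^ 2)]
  field_simp

end

end Pool.Agent.H96.UO
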