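import Pool.Agent.H96.UO.Riesz2

/-!
# Periodic Riesz energies in the plane, `s ≥ 400`: grids and the constant
-/

set_option autoImplicit false
set_option linter.unusedSectionVars false

open Real Set Filter Topology
open scoped ENNReal

namespace Pool.Agent.H96.UO

/-- the half-open fundamental cell of `V2` -/
def Om2 : Set ℂ := {z | ∃ α β : ℝ, 0 ≤ α ∧ α < 1 ∧ 0 ≤ β ∧ β < 1 ∧ z = h2 * (α + β * om)}

/-- the points of `(1 / m) V2` in the cell -/
noncomputable def grid (m : ℕ) (i : Fin (m ^ 2)) : ℂ :=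
  h2 / m * ((((i : ℕ) / m : ℕ) : ℂ) + (((i : ℕ) % m : ℕ) : ℂ) * om)

theorem coord_inj {a b c d : ℝ} (h : (a:ℂ) + b * om = c + d * om) : a = c ∧ b = d := by
  have h1 : ((a - c : ℝ) : ℂ) + ((b - d : ℝ) : ℂ) * om = 0 := by
    push_cast
    linear_combination h
  obtain ⟨h2, h3⟩ := lin_om h1
  exact ⟨by linarith, by linarith⟩

section

variable {m : ℕ}

theorem grid_inj (hm : 0 < m) : Function.Injective (grid m) := by
  intro i j h
  have hm' : (m:ℂ) ≠ 0 := by exact_mod_cast hm.ne'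
  unfold grid at h
  have h1 := mul_left_cancel₀ (div_ne_zero h2_ne hm') h
  have h2 := coord_inj (a := ((i:ℕ) / m : ℕ)) (b := ((i:ℕ) % m : ℕ)) (c := ((j:ℕ) / m : ℕ))
    (d := ((j:ℕ) % m : ℕ)) (by exact_mod_cast h1)
  have h3 : (i:ℕ) / m = (j:ℕ) / m := by exact_mod_cast h2.1
  have h4 : (i:ℕ) % m = (j:ℕ) % m := by exact_mod_cast h2.2
  apply Fin.ext
  rw [← Nat.div_add_mod (i:ℕ) m, ← Nat.div_add_mod (j:ℕ) m, h3, h4]

theorem div_lt (hm : 0 < m) (i : Fin (m ^ 2)) : (i:ℕ) / m < m := by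
  rw [Nat.div_lt_iff_lt_mul hm, ← pow_two]
  exact i.2

theorem grid_mem (hm : 0 < m) (i : Fin (m ^ 2)) : grid m i ∈ Om2 ∧ (m:ℂ) * grid m i ∈ V2 := by
  have hm' : (m:ℂ) ≠ 0 := by exact_mod_cast hm.ne'
  have hmR : (0:ℝ) < m := by exact_mod_cast hm
  constructor
  · refine ⟨((i:ℕ) / m : ℕ) / m, ((i:ℕ) % m : ℕ) / m, by positivity, ?_, by positivity, ?_, ?_⟩
    · rw [div_lt_one hmR]
      exact_mod_cast div_lt hm i
    · rw [div_lt_one hmR]
      exact_mod_cast Nat.mod_lt _ hm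
    · unfold grid
      push_cast
      field_simp
  · refine mem_V2.mpr ⟨((i:ℕ) / m : ℕ), ((i:ℕ) % m : ℕ), ?_⟩
    unfold grid
    generalize (i:ℕ) / m = p
    generalize (i:ℕ) % m = q
    push_cast
    field_simp

theorem range_grid (hm : 0 < m) : Set.range (grid m) = {z | z ∈ Om2 ∧ (m:ℂ) * z ∈ V2} := by
  have hm' : (m:ℂ) ≠ 0 := by exact_mod_cast hm.ne'
  have hmR : (0:ℝ) < m := by exact_mod_cast hm
  ext z
  constructor
  · rintro ⟨i, rfl⟩
    exact grid_mem hm i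
  · rintro ⟨⟨α, β, ha0, ha1, hb0, hb1, hz⟩, h⟩
    obtain ⟨a, b, hab⟩ := mem_V2.mp h
    have h1 : ((m * α : ℝ) : ℂ) + ((m * β : ℝ) : ℂ) * om = ((a:ℝ):ℂ) + ((b:ℝ):ℂ) * om := by
      apply mul_left_cancel₀ h2_ne
      rw [hz] at hab
      push_cast
      linear_combination hab
    obtain ⟨e1, e2⟩ := coord_inj h1
    have a0 : 0 ≤ a := by
      have : (0:ℝ) ≤ a := by rw [← e1]; positivity
      exact_mod_cast this
    have b0 : 0 ≤ b := by
      have : (0:ℝ) ≤ b := by rw [← e2]; positivity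
      exact_mod_cast this
    have a1 : a < m := by
      have : (a:ℝ) < m := by rw [← e1]; nlinarith
      exact_mod_cast this
    have b1 : b < m := by
      have : (b:ℝ) < m := by rw [← e2]; nlinarith
      exact_mod_cast this
    obtain ⟨p, rfl⟩ := Int.eq_ofNat_of_zero_le a0
    obtain ⟨q, rfl⟩ := Int.eq_ofNat_of_zero_le b0
    have hp : p < m := by exact_mod_cast a1
    have hq : q < m := by exact_mod_cast b1
    have hlt : m * p + q < m ^ 2 := by nlinarith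
    refine ⟨⟨m * p + q, hlt⟩, ?_⟩
    unfold grid
    simp only
    rw [Nat.mul_add_div hm, Nat.div_eq_of_lt hq, add_zero, Nat.mul_add_mod, Nat.mod_eq_of_lt hq]
    apply mul_left_cancel₀ hm'
    rw [hab]
    push_cast
    field_simp

theorem grid_distinct (hm : 0 < m) : ∀ i j, grid m i - grid m j ∈ V2 → i = j := by
  intro i j h
  have hm' : (m:ℂ) ≠ 0 := by exact_mod_cast hm.ne'
  have hmR : (0:ℝ) < m := by exact_mod_cast hm
  obtain ⟨⟨α, β, ha0, ha1, hb0, hb1, hz⟩, -⟩ := grid_mem hm i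
  obtain ⟨⟨α', β', ha0', ha1', hb0', hb1', hz'⟩, -⟩ := grid_mem hm j
  obtain ⟨a, b, hab⟩ := mem_V2.mp h
  rw [hz, hz'] at hab
  have h1 : ((α - α' : ℝ) : ℂ) + ((β - β' : ℝ) : ℂ) * om = ((a:ℝ):ℂ) + ((b:ℝ):ℂ) * om := by
    apply mul_left_cancel₀ h2_ne
    push_cast
    linear_combination hab
  obtain ⟨e1, e2⟩ := coord_inj h1
  have a0 : a = 0 := by
    have h3 : (a:ℝ) < 1 := by rw [← e1]; linarith
    have h4 : (-1:ℝ) < a := by rw [← e1]; linarith
    have h5 : a < 1 := by exact_mod_cast h3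
    have h6 : -1 < a := by exact_mod_cast h4
    omega
  have b0 : b = 0 := by
    have h3 : (b:ℝ) < 1 := by rw [← e2]; linarith
    have h4 : (-1:ℝ) < b := by rw [← e2]; linarith
    have h5 : b < 1 := by exact_mod_cast h3
    have h6 : -1 < b := by exact_mod_cast h4
    omega
  rw [a0] at e1
  rw [b0] at e2
  simp only [Int.cast_zero] at e1 e2
  apply grid_inj hm
  rw [hz, hz', show α = α' by linarith, show β = β' by linarith]

theorem grid_isHex (hm : 0 < m) : IsHex V2 (grid m) (2 / √3 * (1 / ((m ^ 2 : ℕ) : ℝ))) := by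
  have hm' : (m:ℂ) ≠ 0 := by exact_mod_cast hm.ne'
  have hmR : (0:ℝ) < m := by exact_mod_cast hm
  refine ⟨0, h2 / m, ?_, fun z => ?_⟩
  · rw [norm_div, div_pow, Complex.norm_real, norm_eq_abs, sq_abs, h2_sq, Complex.norm_natCast]
    push_cast
    ring
  · show (∃ i, z - grid m i ∈ V2) ↔ ∃ a b : ℤ, z = 0 + h2 / m * (a + b * om)
    constructor
    · rintro ⟨i, hi⟩
      obtain ⟨a, b, hab⟩ := mem_V2.mp hi
      refine ⟨m * a + ((i:ℕ) / m : ℕ), m * b + ((i:ℕ) % m : ℕ), ?_⟩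
      have : z = grid m i + h2 * (a + b * om) := by rw [← hab]; ring
      rw [this]
      unfold grid
      generalize (i:ℕ) / m = p
      generalize (i:ℕ) % m = q
      push_cast
      field_simp
      ring
    · rintro ⟨a, b, hz⟩
      have hmZ : (0:ℤ) < m := by exact_mod_cast hm
      have a0 := Int.emod_nonneg a hmZ.ne'
      have a1 := Int.emod_lt_of_pos a hmZ
      have b0 := Int.emod_nonneg b hmZ.ne'
      have b1 := Int.emod_lt_of_pos b hmZ
      have hw : (h2:ℂ) / m * (((a % m : ℤ) : ℂ) + ((b % m : ℤ) : ℂ) * om) ∈ Set.range (grid m) := by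
        rw [range_grid hm]
        refine ⟨⟨((a % m : ℤ) : ℝ) / m, ((b % m : ℤ) : ℝ) / m, ?_, ?_, ?_, ?_, ?_⟩, ?_⟩
        · have : (0:ℝ) ≤ ((a % m : ℤ) : ℝ) := by exact_mod_cast a0
          positivity
        · rw [div_lt_one hmR]
          exact_mod_cast a1
        · have : (0:ℝ) ≤ ((b % m : ℤ) : ℝ) := by exact_mod_cast b0
          positivity
        · rw [div_lt_one hmR]
          exact_mod_cast b1
        · push_cast
          field_simp
        · refine mem_V2.mpr ⟨a % m, b % m, ?_⟩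
          field_simp
      obtain ⟨i, hi⟩ := hw
      refine ⟨i, mem_V2.mpr ⟨a / m, b / m, ?_⟩⟩
      have ea : (a:ℂ) = ((a % m : ℤ) : ℂ) + m * ((a / m : ℤ) : ℂ) := by
        have := Int.emod_add_mul_ediv a m
        exact_mod_cast this.symm
      have eb : (b:ℂ) = ((b % m : ℤ) : ℂ) + m * ((b / m : ℤ) : ℂ) := by
        have := Int.emod_add_mul_ediv b m
        exact_mod_cast this.symm
      rw [hi, hz, ea, eb]
      field_simp
      ring

theorem Ep_grid {s : ℝ} (hs : 400 ≤ s) (hm : 0 < m) :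
    Ep s V2 (grid m) = optVal s V2 (m ^ 2) := by
  have hN : 0 < m ^ 2 := by positivity
  exact (Ep_ge hs hN covolume_V2 (grid m)).2.mpr ⟨grid_distinct hm, grid_isHex hm⟩

/-- **the grids are optimal** -/
theorem grid_optimal {s : ℝ} (hs : 400 ≤ s) (hm : 0 < m) :
    Ep s V2 (grid m) = EpMin s V2 Om2 (m ^ 2) := by
  have hN : 0 < m ^ 2 := by positivity
  apply le_antisymm
  · unfold EpMin
    refine le_iInf fun x => ?_
    rw [Ep_grid hs hm]
    exact (Ep_ge hs hN covolume_V2 _).1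
  · unfold EpMin
    exact iInf_le (fun x : Fin (m ^ 2) → Om2 => Ep s V2 fun i => (x i : ℂ))
      fun i => ⟨grid m i, (grid_mem hm i).1⟩

end

theorem sum_castLE {N M : ℕ} (h : N ≤ M) (F : Fin M → ℝ) (hF : ∀ i, 0 ≤ F i) :
    ∑ i : Fin N, F (Fin.castLE h i) ≤ ∑ i, F i := by
  have : ∑ i : Fin N, F (Fin.castLE h i) =
      ∑ i ∈ Finset.univ.map (Fin.castLEEmb h), F i := by
    rw [Finset.sum_map]
    rfl
  rw [this]
  exact Finset.sum_le_sum_of_subset_of_nonneg (Finset.subset_univ _) fun i _ _ => hF i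

theorem cs_nonneg {s : ℝ} (hs : 2 < s) : 0 ≤ cs s := by
  unfold cs
  have : 0 < Real.Gamma (s / 2) := Real.Gamma_pos_of_pos (by linarith)
  have h2 : 0 < s - 2 := by linarith
  positivity

/-- upper bound for the minimal energy of any number of points -/
theorem EpMin_le {s : ℝ} (hs : 400 ≤ s) {m N : ℕ} (hm : 0 < m) (hNm : N ≤ m ^ 2) :
    EpMin s V2 Om2 N ≤ ((((m ^ 2 : ℕ) : ℝ) ^ (1 + s / 2) * zetaL s V2 : ℝ) : EReal) := by
  have hs2 : 2 < s := by linarith
  have h1 : EpMin s V2 Om2 N ≤ Ep s V2 (fun i => grid m (Fin.castLE hNm i)) :=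
    iInf_le (fun x : Fin N → Om2 => Ep s V2 fun i => (x i : ℂ))
      fun i => ⟨grid m (Fin.castLE hNm i), (grid_mem hm _).1⟩
  refine h1.trans ?_
  rw [Ep_coe s (x := fun i => grid m (Fin.castLE hNm i)) fun i j h =>
    Fin.castLE_injective hNm (grid_distinct hm _ _ h), EReal.coe_le_coe_iff]
  have h2 : ∑ i : Fin N, ∑ j : Fin N, (if i = j then 0 else
      pairE s V2 (grid m (Fin.castLE hNm i) - grid m (Fin.castLE hNm j))) ≤
      ∑ i, ∑ j, (if i = j then 0 else pairE s V2 (grid m i - grid m j)) := by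
    have h0 : ∀ i j : Fin (m ^ 2), 0 ≤ (if i = j then 0 else pairE s V2 (grid m i - grid m j)) := by
      intro i j
      split_ifs
      · exact le_rfl
      · exact pairE_nonneg s _
    refine le_trans (Finset.sum_le_sum fun i _ => ?_) (sum_castLE hNm
      (fun i => ∑ j, (if i = j then 0 else pairE s V2 (grid m i - grid m j)))
      fun i => Finset.sum_nonneg fun j _ => h0 i j)
    refine le_trans (Finset.sum_le_sum fun j _ => le_of_eq ?_) (sum_castLE hNm
      (fun j => (if Fin.castLE hNm i = j then 0 else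
        pairE s V2 (grid m (Fin.castLE hNm i) - grid m j))) fun j => h0 _ j)
    by_cases hij : i = j
    · rw [if_pos hij, if_pos (by rw [hij])]
    · rw [if_neg hij, if_neg fun h => hij (Fin.castLE_injective hNm h)]
  have hN : 0 < m ^ 2 := by positivity
  have h3 := (tot_ge hs hN covolume_V2 (grid_distinct hm)).2.mpr (grid_isHex hm)
  have h4 : ∑ i, ∑ j, (if i = j then 0 else pairE s V2 (grid m i - grid m j)) ≤
      tot s V2 (grid m) := by
    unfold tot
    have := mul_nonneg (Nat.cast_nonneg (α := ℝ) (m ^ 2)) (zetaL_nonneg (L := V2) s)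
    linarith
  have h5 : 0 ≤ (N:ℝ) * (N - 1) * cs s := by
    have h6 := cs_nonneg hs2
    rcases Nat.eq_zero_or_pos N with h | h
    · rw [h]; simp
    · have : (1:ℝ) ≤ N := by exact_mod_cast h
      have : 0 ≤ (N:ℝ) - 1 := by linarith
      positivity
  linarith

/-- **the value of `C_{s,2}`** -/
theorem tendsto_EpMin {s : ℝ} (hs : 400 ≤ s) :
    (∀ N : ℕ, 0 < N → ∃ r : ℝ, EpMin s V2 Om2 N = r) ∧
    Tendsto (fun N : ℕ => (EpMin s V2 Om2 N).toReal / (N:ℝ) ^ (1 + s / 2)) atTop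
      (𝓝 (zetaL s V2)) := by
  have hs2 : 2 < s := by linarith
  have hlow : ∀ N : ℕ, 0 < N → (optVal s V2 N : EReal) ≤ EpMin s V2 Om2 N := fun N hN => by
    unfold EpMin
    exact le_iInf fun x => (Ep_ge hs hN covolume_V2 _).1
  have hup : ∀ N : ℕ, EpMin s V2 Om2 N ≤
      (((((Nat.sqrt N + 1) ^ 2 : ℕ) : ℝ) ^ (1 + s / 2) * zetaL s V2 : ℝ) : EReal) := fun N =>
    EpMin_le hs (Nat.succ_pos _) (Nat.lt_succ_sqrt' N).le
  have hreal : ∀ N : ℕ, 0 < N → ((EpMin s V2 Om2 N).toReal : EReal) = EpMin s V2 Om2 N := by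
    intro N hN
    apply EReal.coe_toReal
    · exact ne_top_of_le_ne_top (EReal.coe_ne_top _) (hup N)
    · intro h
      have := hlow N hN
      rw [h, le_bot_iff] at this
      exact EReal.coe_ne_bot _ this
  refine ⟨fun N hN => ⟨_, (hreal N hN).symm⟩, ?_⟩
  have hz := zetaL_nonneg (L := V2) s
  have hc := cs_nonneg hs2
  have t1 : Tendsto (fun N : ℕ => zetaL s V2 - (zetaL s V2 + cs s) * (N:ℝ) ^ (-(s / 2 - 1)))
      atTop (𝓝 (zetaL s V2)) := by
    have h1 : Tendsto (fun N : ℕ => (N:ℝ) ^ (-(s / 2 - 1))) atTop (𝓝 0) :=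
      (tendsto_rpow_neg_atTop (by linarith : 0 < s / 2 - 1)).comp tendsto_natCast_atTop_atTop
    have h2 := (h1.const_mul (zetaL s V2 + cs s)).const_sub (zetaL s V2)
    simpa using h2
  have t2 : Tendsto (fun N : ℕ => ((1 + 1 / √(N:ℝ)) ^ 2) ^ (1 + s / 2) * zetaL s V2)
      atTop (𝓝 (zetaL s V2)) := by
    have h1 : Tendsto (fun N : ℕ => 1 / √(N:ℝ)) atTop (𝓝 0) :=
      (tendsto_const_nhds.div_atTop (tendsto_sqrt_atTop.comp tendsto_natCast_atTop_atTop))
    have h2 : Tendsto (fun N : ℕ => (1 + 1 / √(N:ℝ)) ^ 2) atTop (𝓝 ((1 + 0) ^ 2)) :=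
      (h1.const_add 1).pow 2
    have h3 := (h2.rpow_const (p := 1 + s / 2) (Or.inl (by norm_num))).mul_const (zetaL s V2)
    simpa using h3
  refine tendsto_of_tendsto_of_tendsto_of_le_of_le' t1 t2 ?_ ?_
  · filter_upwards [eventually_gt_atTop 0] with N hN
    have hNR : (0:ℝ) < N := by exact_mod_cast hN
    have hN1 : (1:ℝ) ≤ N := by exact_mod_cast hN
    have h1 := hlow N hN
    rw [← hreal N hN, EReal.coe_le_coe_iff] at h1
    rw [le_div_iff₀ (by positivity)]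
    refine le_trans ?_ h1
    unfold optVal
    have e1 : (N:ℝ) ^ (-(s / 2 - 1)) * (N:ℝ) ^ (1 + s / 2) = N ^ 2 := by
      rw [← rpow_add hNR]
      rw [show -(s / 2 - 1) + (1 + s / 2) = ((2:ℕ):ℝ) by push_cast; ring, rpow_natCast]
    have e2 : (zetaL s V2 - (zetaL s V2 + cs s) * (N:ℝ) ^ (-(s / 2 - 1))) * (N:ℝ) ^ (1 + s / 2) =
        (N:ℝ) ^ (1 + s / 2) * zetaL s V2 - (zetaL s V2 + cs s) * N ^ 2 := by
      rw [← e1]; ring
    rw [e2]
    nlinarith [mul_nonneg (mul_nonneg hNR.le (by linarith : (0:ℝ) ≤ N - 1)) hz,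
      mul_nonneg hNR.le hc]
  · filter_upwards [eventually_gt_atTop 0] with N hN
    have hNR : (0:ℝ) < N := by exact_mod_cast hN
    have h1 := hup N
    rw [← hreal N hN, EReal.coe_le_coe_iff] at h1
    rw [div_le_iff₀ (by positivity)]
    refine h1.trans ?_
    have hsq : (0:ℝ) < √(N:ℝ) := sqrt_pos.mpr hNR
    have e1 : (((Nat.sqrt N + 1) ^ 2 : ℕ) : ℝ) ≤ (1 + 1 / √(N:ℝ)) ^ 2 * N := by
      have h2 : ((Nat.sqrt N : ℕ) : ℝ) ≤ √(N:ℝ) := Real.nat_sqrt_le_real_sqrt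
      push_cast
      have e : (1 + 1 / √(N:ℝ)) ^ 2 * N = (√(N:ℝ) + 1) ^ 2 := by
        have h3 : (N:ℝ) = √(N:ℝ) ^ 2 := (sq_sqrt hNR.le).symm
        have h4 : (1 + 1 / √(N:ℝ)) ^ 2 * (√(N:ℝ) ^ 2) = (√(N:ℝ) + 1) ^ 2 := by
          field_simp
        calc (1 + 1 / √(N:ℝ)) ^ 2 * N = (1 + 1 / √(N:ℝ)) ^ 2 * (√(N:ℝ) ^ 2) := by rw [← h3]
          _ = _ := h4
      rw [e]
      gcongr
    calc (((Nat.sqrt N + 1) ^ 2 : ℕ) : ℝ) ^ (1 + s / 2) * zetaL s V2
        ≤ ((1 + 1 / √(N:ℝ)) ^ 2 * N) ^ (1 + s / 2) * zetaL s V2 := by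
          refine mul_le_mul_of_nonneg_right ?_ hz
          exact rpow_le_rpow (by positivity) e1 (by linarith)
      _ = ((1 + 1 / √(N:ℝ)) ^ 2) ^ (1 + s / 2) * zetaL s V2 * (N:ℝ) ^ (1 + s / 2) := by
          rw [mul_rpow (by positivity) hNR.le]
          ring

end Pool.Agent.H96.UO
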