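import Pool.Agent.H96.UO.Glue

/-!
# Steep universal optimality: arbitrary periodic configurations in the normalisation
-/

set_option autoImplicit false
set_option linter.unusedSectionVars false

open Real Set
open scoped ENNReal
open Equiv (Perm)

namespace Pool.Agent.H96.UO

section

variable {α : Type*} [Fintype α] [DecidableEq α] {L : Submodule ℤ ℂ} [DiscreteTopology L]
  {x : α → ℂ}

/-- there are finitely many vectors in a ball -/
theorem finite_vec (i : α) (R : ℝ) : {z : ℂ | z ∈ Vec L x i ∧ ‖z‖ < R}.Finite := by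
  have h1 : ∀ j : α, ({z : ℂ | z - (x j - x i) ∈ L ∧ ‖z‖ < R}).Finite := by
    intro j
    have hfin : (Metric.closedBall (0:ℂ) (R + ‖x j - x i‖) ∩ (L : Set ℂ)).Finite := by
      refine Metric.finite_isBounded_inter_isClosed (DiscreteTopology.isDiscrete) Metric.isBounded_closedBall ?_
      exact AddSubgroup.isClosed_of_discrete (H := L.toAddSubgroup)
    refine (hfin.image fun w => w + (x j - x i)).subset ?_
    rintro z ⟨hz, hz2⟩
    refine ⟨z - (x j - x i), ⟨?_, hz⟩, by simp⟩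
    rw [mem_closedBall_zero_iff]
    exact (norm_sub_le _ _).trans (by linarith)
  have h2 : {z : ℂ | z ∈ Vec L x i ∧ ‖z‖ < R} ⊆ ⋃ j, {z : ℂ | z - (x j - x i) ∈ L ∧ ‖z‖ < R} := by
    rintro z ⟨⟨j, hj⟩, hz⟩
    exact Set.mem_iUnion.mpr ⟨j, hj, hz⟩
  exact (Set.finite_iUnion h1).subset h2

/-- the separated part of a configuration -/
theorem exists_sub (hx : ∀ i j, x i - x j ∈ L → i = j) : ∃ K : Finset α,
    Sep L (fun i : K => x i) ∧ ∀ i ∉ K, ∃ z ∈ Vec L x i, z ≠ 0 ∧ ‖z‖ < 17 / 10 := by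
  classical
  have hne : (Finset.univ.filter fun K : Finset α => Sep L (fun i : K => x i)).Nonempty := by
    refine ⟨∅, ?_⟩
    rw [Finset.mem_filter]
    refine ⟨Finset.mem_univ _, ⟨fun i => absurd i.2 (Finset.notMem_empty _),
      fun i => absurd i.2 (Finset.notMem_empty _)⟩⟩
  obtain ⟨K, hK, hmax⟩ := Finset.exists_max_image _ Finset.card hne
  rw [Finset.mem_filter] at hK
  refine ⟨K, hK.2, fun i hi => ?_⟩
  by_contra hcon
  push Not at hcon
  have hS : Sep L (fun j : (insert i K : Finset α) => x j) := by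
    refine ⟨fun a b hab => Subtype.ext (hx _ _ hab), fun a z hz hz0 => ?_⟩
    obtain ⟨b, hb⟩ := hz
    rcases Finset.mem_insert.mp a.2 with ha | ha
    · have hb2 : z - (x (b : α) - x (a : α)) ∈ L := hb
      have h1 : x (a : α) = x i := by rw [ha]
      rw [h1] at hb2
      exact hcon z ⟨b, hb2⟩ hz0
    · rcases Finset.mem_insert.mp b.2 with hb' | hb'
      · have h1 : -z ∈ Vec L x (b : α) := by
          have : z - (x (b : α) - x (a : α)) ∈ L := hb
          exact vec_neg this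
        rw [hb'] at h1
        have := hcon (-z) h1 (neg_ne_zero.mpr hz0)
        rwa [norm_neg] at this
      · exact hK.2.sep ⟨a, ha⟩ z ⟨⟨b, hb'⟩, hb⟩ hz0
  have h2 := hmax (insert i K) (by rw [Finset.mem_filter]; exact ⟨Finset.mem_univ _, hS⟩)
  rw [Finset.card_insert_of_notMem hi] at h2
  omega

end

theorem exp_bound {s : ℝ} (hs : 66 ≤ s) : 41 / 2 * s ≤ exp (-(s * ((17 / 10) ^ 2 - 3))) := by
  have e : -(s * ((17 / 10) ^ 2 - 3)) = 7 + (11 / 100 * s - 7) := by ring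
  rw [e, exp_add]
  have h1 : (2.7182818283 : ℝ) < exp 1 := exp_one_gt_d9
  have h2 : (1090 : ℝ) ≤ exp 7 := by
    have : exp 7 = (exp 1) ^ 7 := by rw [← exp_nat_mul]; norm_num
    rw [this]
    calc (1090 : ℝ) ≤ 2.7182818283 ^ 7 := by norm_num
      _ ≤ exp 1 ^ 7 := by gcongr
  have h3 : 11 / 100 * s - 7 + 1 ≤ exp (11 / 100 * s - 7) := add_one_le_exp _
  have h4 : 0 ≤ 11 / 100 * s - 7 + 1 := by linarith
  calc 41 / 2 * s ≤ 1090 * (11 / 100 * s - 7 + 1) := by linarith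
    _ ≤ exp 7 * exp (11 / 100 * s - 7) := by gcongr

section

variable {α : Type*} [Fintype α] [DecidableEq α] {L : Submodule ℤ ℂ} [DiscreteTopology L]
  [IsZLattice ℝ L] {x : α → ℂ} (hx : ∀ i j, x i - x j ∈ L → i = j)
  (hcov : ZLattice.covolume L = (Fintype.card α : ℝ) * (3 * √3 / 2))

include hx hcov

theorem full_bound {g : ℝ → ℝ} {s : ℝ} (hg : Pot g s) (hs : 66 ≤ s) : ∃ K : Finset α,
    Sep L (fun i : K => x i) ∧ ∀ W : Finset (ℕ × ℕ), (∀ v ∈ W, 1 ≤ v.1 ∧ v ≠ (1, 0)) →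
    ENNReal.ofReal ((Fintype.card α : ℝ) * (6 * g 3 + ∑ v ∈ W, 6 * g (3 * qn v)) +
      s / 50000 * (((Fintype.card α : ℝ) - Fintype.card K) + nbad L (fun i : K => x i) +
        S2 L (fun i : K => x i)) * g 3) ≤
      ∑ i, ∑' z, {z | z ∈ Vec L x i ∧ z ≠ 0}.indicator
        (fun z => ENNReal.ofReal (g (‖z‖ ^ 2))) z := by
  classical
  obtain ⟨K, hS, hK⟩ := exists_sub hx
  refine ⟨K, hS, fun W hW => ?_⟩
  have hfin : ∀ i : K, {z : ℂ | z ∈ Vec L (fun i : K => x i) i ∧ ‖z‖ < 2}.Finite :=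
    fun i => finite_vec i 2
  set Z : K → Finset ℂ := fun i => (hfin i).toFinset.filter fun z => z ≠ 0 with hZdef
  have hZ : ∀ i z, z ∈ Z i ↔ z ∈ Vec L (fun i : K => x i) i ∧ z ≠ 0 ∧ ‖z‖ < 2 := by
    intro i z
    simp only [hZdef, Finset.mem_filter, Set.Finite.mem_toFinset, Set.mem_ofPred_eq]
    tauto
  obtain ⟨τ, hτ⟩ := hS.exists_tau
  have hcard : (Fintype.card K : ℝ) ≤ (Fintype.card α : ℝ) := by
    rw [Fintype.card_coe]
    exact_mod_cast Finset.card_le_univ K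
  have hmain := main_ineq hS hZ hcov hcard hτ hg hs W hW
  set F : ℂ → ℝ≥0∞ := fun z => ENNReal.ofReal (g (‖z‖ ^ 2)) with hF
  have hcl := classes_le hτ hZ F W hW
  -- the separated part
  have h1 : ∑ i : K, ∑' z, {z | z ∈ Vec L (fun i : K => x i) i ∧ z ≠ 0}.indicator F z ≤
      ∑ i ∈ K, ∑' z, {z | z ∈ Vec L x i ∧ z ≠ 0}.indicator F z := by
    rw [← Finset.sum_coe_sort K fun i => ∑' z, {z | z ∈ Vec L x i ∧ z ≠ 0}.indicator F z]
    refine Finset.sum_le_sum fun i _ => ENNReal.tsum_le_tsum fun z => ?_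
    refine Set.indicator_le_indicator_of_subset ?_ (fun _ => zero_le) z
    rintro w ⟨⟨j, hj⟩, hw⟩
    exact ⟨⟨j, hj⟩, hw⟩
  -- the other part
  have hg3 : 0 ≤ g 3 := hg.pos 3 (by norm_num)
  have h2 : ∀ i ∉ K, ENNReal.ofReal (41 / 2 * s * g 3) ≤
      ∑' z, {z | z ∈ Vec L x i ∧ z ≠ 0}.indicator F z := by
    intro i hi
    obtain ⟨z, hz, hz0, hzn⟩ := hK i hi
    have a1 : {z | z ∈ Vec L x i ∧ z ≠ 0}.indicator F z = F z := Set.indicator_of_mem
      (show z ∈ {z | z ∈ Vec L x i ∧ z ≠ 0} from ⟨hz, hz0⟩) F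
    refine le_trans ?_ (ENNReal.le_tsum z)
    rw [a1]
    refine ENNReal.ofReal_le_ofReal ?_
    have hzp : 0 < ‖z‖ ^ 2 := by
      have := norm_pos_iff.mpr hz0
      positivity
    refine le_trans ?_ (hg.tan3 _ hzp)
    have h3 := exp_bound hs
    have h4 : exp (-(s * ((17 / 10) ^ 2 - 3))) ≤ exp (-(s * (‖z‖ ^ 2 - 3))) := by
      apply exp_le_exp.mpr
      have : ‖z‖ ^ 2 ≤ (17 / 10) ^ 2 := by gcongr
      nlinarith
    rw [mul_comm]
    gcongr
    linarith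
  have h3 : ∑ i ∈ Finset.univ \ K, ENNReal.ofReal (41 / 2 * s * g 3) ≤
      ∑ i ∈ Finset.univ \ K, ∑' z, {z | z ∈ Vec L x i ∧ z ≠ 0}.indicator F z :=
    Finset.sum_le_sum fun i hi => h2 i (Finset.mem_sdiff.mp hi).2
  have h4 : ∑ i, ∑' z, {z | z ∈ Vec L x i ∧ z ≠ 0}.indicator F z =
      ∑ i ∈ Finset.univ \ K, ∑' z, {z | z ∈ Vec L x i ∧ z ≠ 0}.indicator F z +
      ∑ i ∈ K, ∑' z, {z | z ∈ Vec L x i ∧ z ≠ 0}.indicator F z :=
    (Finset.sum_sdiff (Finset.subset_univ K)).symm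
  rw [h4]
  refine le_trans ?_ (add_le_add h3 (hcl.trans h1))
  have h5 : ∑ i ∈ Finset.univ \ K, ENNReal.ofReal (41 / 2 * s * g 3) =
      ENNReal.ofReal (((Fintype.card α : ℝ) - Fintype.card K) * (41 / 2 * s * g 3)) := by
    rw [Finset.sum_const, nsmul_eq_mul, ← ENNReal.ofReal_natCast, ← ENNReal.ofReal_mul (by positivity),
      Finset.card_sdiff_of_subset (Finset.subset_univ K), Finset.card_univ, Nat.cast_sub
        (Finset.card_le_univ K), Fintype.card_coe]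
  have h6 : ∑ i, ∑ z ∈ Z i, F z = ENNReal.ofReal (∑ i, ∑ z ∈ Z i, g (‖z‖ ^ 2)) := by
    have hn : ∀ i, ∀ z ∈ Z i, 0 ≤ g (‖z‖ ^ 2) := by
      intro i z hz
      have := norm_pos_iff.mpr ((hZ i z).mp hz).2.1
      exact hg.pos _ (by positivity)
    rw [ENNReal.ofReal_sum_of_nonneg fun i _ => Finset.sum_nonneg (hn i)]
    refine Finset.sum_congr rfl fun i _ => ?_
    rw [ENNReal.ofReal_sum_of_nonneg (hn i)]
  have h7' : ∀ v ∈ W, ∀ f ∈ RS L (fun i : K => x i) τ v,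
      0 ≤ g (‖dsp (V (sg K) τ (dd L (fun i : K => x i)) v.1 v.2) f‖ ^ 2) := by
    intro v hv f hf
    have := RS_far hτ (hW v hv).1 (hW v hv).2 hf
    exact hg.pos _ (by positivity)
  have h7 : ∑ v ∈ W, ∑ f ∈ RS L (fun i : K => x i) τ v,
      F (dsp (V (sg K) τ (dd L (fun i : K => x i)) v.1 v.2) f) =
      ENNReal.ofReal (∑ v ∈ W, ∑ f ∈ RS L (fun i : K => x i) τ v,
        g (‖dsp (V (sg K) τ (dd L (fun i : K => x i)) v.1 v.2) f‖ ^ 2)) := by
    rw [ENNReal.ofReal_sum_of_nonneg fun v hv => Finset.sum_nonneg (h7' v hv)]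
    refine Finset.sum_congr rfl fun v hv => ?_
    rw [ENNReal.ofReal_sum_of_nonneg (h7' v hv)]
  have hn6 : 0 ≤ ∑ i, ∑ z ∈ Z i, g (‖z‖ ^ 2) :=
    Finset.sum_nonneg fun i _ => Finset.sum_nonneg fun z hz => by
      have := norm_pos_iff.mpr ((hZ i z).mp hz).2.1
      exact hg.pos _ (by positivity)
  have hn7 : 0 ≤ ∑ v ∈ W, ∑ f ∈ RS L (fun i : K => x i) τ v,
        g (‖dsp (V (sg K) τ (dd L (fun i : K => x i)) v.1 v.2) f‖ ^ 2) :=
    Finset.sum_nonneg fun v hv => Finset.sum_nonneg (h7' v hv)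
  rw [h5, h6, h7, ← ENNReal.ofReal_add hn6 hn7, ← ENNReal.ofReal_add
    (mul_nonneg (by linarith) (by positivity)) (add_nonneg hn6 hn7)]
  refine ENNReal.ofReal_le_ofReal ?_
  have h8 : 0 ≤ s * ((Fintype.card α : ℝ) - Fintype.card K) * g 3 := by
    have : 0 ≤ (Fintype.card α : ℝ) - Fintype.card K := by linarith
    positivity
  linarith

end

end Pool.Agent.H96.UO
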