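import Pool.Agent.H96.HD.Arcs
import Pool.Agent.H96.UO.Conv

/-!
# Steep universal optimality: angles

Packing of arcs with given half-angles, and the cyclic order of six points.
-/

set_option autoImplicit false
set_option linter.unusedSectionVars false

open Real Set MeasureTheory
open Pool.Agent.H96.HD (interval_packing angle_le psi psi_spec psi_nonneg psi_lt)

namespace Pool.Agent.H96.UO

section

variable {ι : Type*} [DecidableEq ι] (J : Finset ι) (z : ι → ℂ) (b : ι → ℝ)
  (hz : ∀ j ∈ J, z j ≠ 0) (hb : ∀ j ∈ J, 0 < b j) (hb2 : ∀ j ∈ J, b j ≤ π)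
  (hs : ∀ j ∈ J, ∀ k ∈ J, j ≠ k → b j + b k ≤ InnerProductGeometry.angle (z j) (z k))

include hz hb hs

theorem sep_abs {j k : ι} (hj : j ∈ J) (hk : k ∈ J) (hjk : j ≠ k) (x : ℝ) (n : ℤ)
    (h : Complex.arg (z j) - Complex.arg (z k) = x + 2 * π * n) : b j + b k ≤ |x| :=
  (hs j hj k hk hjk).trans (angle_le (hz j hj) (hz k hk) x n h)

theorem psi_sep {j₀ j k : ι} (hj : j ∈ J) (hk : k ∈ J) (hjk : j ≠ k) :
    b j + b k ≤ |psi z j₀ j - psi z j₀ k| := by
  obtain ⟨n, hn⟩ := psi_spec z j₀ j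
  obtain ⟨m, hm⟩ := psi_spec z j₀ k
  refine sep_abs J z b hz hb hs hj hk hjk _ (n - m) ?_
  push_cast
  linarith

theorem psi_low {j₀ j : ι} (hj₀ : j₀ ∈ J) (hj : j ∈ J) (hne : j ≠ j₀) :
    b j₀ + b j ≤ psi z j₀ j := by
  obtain ⟨n, hn⟩ := psi_spec z j₀ j
  have := sep_abs J z b hz hb hs hj hj₀ hne _ n hn
  rw [abs_of_nonneg (psi_nonneg z j₀ j)] at this
  linarith

theorem psi_high {j₀ j : ι} (hj₀ : j₀ ∈ J) (hj : j ∈ J) (hne : j ≠ j₀) :
    psi z j₀ j ≤ 2 * π - b j₀ - b j := by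
  obtain ⟨n, hn⟩ := psi_spec z j₀ j
  have := sep_abs J z b hz hb hs hj hj₀ hne (psi z j₀ j - 2 * π) (n + 1) (by push_cast; linarith)
  rw [abs_of_nonpos (by linarith [psi_lt z j₀ j])] at this
  linarith

omit hz hb hs in
theorem psi_self (j₀ : ι) : psi z j₀ j₀ = 0 := by
  unfold psi
  rw [sub_self]
  exact (toIcoMod_eq_self two_pi_pos).mpr ⟨le_rfl, by linarith [two_pi_pos]⟩

include hb2 in
/-- the arcs fit into the circle -/
theorem arcs_total : ∑ j ∈ J, b j ≤ π := by
  rcases J.eq_empty_or_nonempty with rfl | ⟨j₀, hj₀⟩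
  · simp [pi_pos.le]
  · have h := interval_packing (J.erase j₀) (psi z j₀) b (b j₀)
      (2 * π - b j₀) (by linarith [hb2 j₀ hj₀])
      (fun j hj => by
        have := psi_low J z b hz hb hs hj₀ (Finset.mem_of_mem_erase hj) (Finset.ne_of_mem_erase hj)
        linarith)
      (fun j hj => by
        have := psi_high J z b hz hb hs hj₀ (Finset.mem_of_mem_erase hj) (Finset.ne_of_mem_erase hj)
        linarith)
      (fun j hj => (hb j (Finset.mem_of_mem_erase hj)).le)
      (fun j hj k hk hjk => psi_sep J z b hz hb hs (Finset.mem_of_mem_erase hj)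
        (Finset.mem_of_mem_erase hk) hjk)
    rw [← Finset.mul_sum] at h
    rw [← Finset.add_sum_erase J _ hj₀]
    linarith

end

/-- **Cyclic order.** Six points at mutual angles at least `2 c` are `w 0, ..., w 5` with
consecutive angles between `2 c` and `2 π - 10 c`. -/
theorem cyclic_order (J : Finset ℂ) (c : ℝ) (hc : 0 < c) (hz : ∀ z ∈ J, z ≠ 0)
    (hs : ∀ z ∈ J, ∀ w ∈ J, z ≠ w → 2 * c ≤ InnerProductGeometry.angle z w) (h6 : J.card = 6) :
    ∃ (w : Fin 6 → ℂ) (Δ : Fin 6 → ℝ), Function.Injective w ∧ (∀ k, w k ∈ J) ∧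
      (∀ z ∈ J, ∃ k, w k = z) ∧ (∀ k, 2 * c ≤ Δ k ∧ Δ k ≤ 2 * π - 10 * c) ∧
      ∀ k, w (k + 1) * ‖w k‖ = ‖w (k + 1)‖ * Complex.exp (Δ k * Complex.I) * w k := by
  classical
  obtain ⟨j₀, hj₀⟩ : J.Nonempty := Finset.card_pos.mp (by omega)
  have hs' : ∀ z ∈ J, ∀ w ∈ J, z ≠ w →
      (fun _ => c) z + (fun _ => c) w ≤ InnerProductGeometry.angle ((id : ℂ → ℂ) z) ((id : ℂ → ℂ) w) :=
    fun z hz w hw hne => by
      simp only [id]
      linarith [hs z hz w hw hne]
  have hsep : ∀ z ∈ J, ∀ w ∈ J, z ≠ w → c + c ≤ |psi id j₀ z - psi id j₀ w| :=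
    fun z hz' w hw hne => psi_sep J id (fun _ => c) hz (fun _ _ => hc) hs' hz' hw hne
  have hhigh : ∀ z ∈ J, z ≠ j₀ → psi id j₀ z ≤ 2 * π - c - c :=
    fun z hz' hne => psi_high J id (fun _ => c) hz (fun _ _ => hc) hs' hj₀ hz' hne
  have hinj : Set.InjOn (psi (id : ℂ → ℂ) j₀) J := by
    intro z hz' w hw h
    by_contra hne
    have := hsep z hz' w hw hne
    rw [h, sub_self, abs_zero] at this
    linarith
  set I : Finset ℝ := J.image (psi id j₀) with hI
  have hIc : I.card = 6 := by rw [hI, Finset.card_image_of_injOn hinj, h6]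
  set e := I.orderEmbOfFin hIc with he
  have heI : ∀ k, e k ∈ I := fun k => Finset.orderEmbOfFin_mem I hIc k
  have hex : ∀ k, ∃ z ∈ J, psi id j₀ z = e k := fun k => by
    have := heI k
    rw [hI, Finset.mem_image] at this
    exact this
  choose w hwJ hw using hex
  have hwinj : Function.Injective w := by
    intro k l h
    have h1 : e k = e l := by rw [← hw k, ← hw l, h]
    exact e.injective h1
  have hwsurj : ∀ z ∈ J, ∃ k, w k = z := by
    intro z hz'
    have h1 : psi id j₀ z ∈ I := Finset.mem_image_of_mem _ hz'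
    have h2 : psi id j₀ z ∈ Set.range e := by
      rw [he, Finset.range_orderEmbOfFin]
      exact h1
    obtain ⟨k, hk⟩ := h2
    exact ⟨k, hinj (hwJ k) hz' (by rw [hw k, hk])⟩
  have hlt : ∀ k l : Fin 6, k < l → e k + 2 * c ≤ e l := by
    intro k l hkl
    have h1 : e k < e l := e.strictMono hkl
    have h2 := hsep (w k) (hwJ k) (w l) (hwJ l) (fun h => hkl.ne (hwinj h))
    rw [hw k, hw l, abs_of_neg (by linarith)] at h2
    linarith
  have he0 : e 0 = 0 := by
    obtain ⟨k, hk⟩ := hwsurj j₀ hj₀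
    have h1 : e k = 0 := by rw [← hw k, hk, psi_self]
    have h2 : 0 ≤ e 0 := by rw [← hw 0]; exact psi_nonneg _ _ _
    have h3 : e 0 ≤ e k := e.monotone (Fin.zero_le k)
    linarith
  have h5 : e 5 ≤ 2 * π - 2 * c := by
    rw [← hw 5]
    have : w 5 ≠ j₀ := by
      intro h
      have h1 : e 5 = 0 := by rw [← hw 5, h, psi_self]
      have := hlt 0 5 (by decide)
      linarith
    linarith [hhigh (w 5) (hwJ 5) this]
  have a0 := hlt 0 1 (by decide)
  have a1 := hlt 1 2 (by decide)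
  have a2 := hlt 2 3 (by decide)
  have a3 := hlt 3 4 (by decide)
  have a4 := hlt 4 5 (by decide)
  have harg : ∀ k, ∃ n : ℤ, Complex.arg (w k) - Complex.arg j₀ = e k + 2 * π * n := fun k => by
    obtain ⟨n, hn⟩ := psi_spec (id : ℂ → ℂ) j₀ (w k)
    rw [hw k] at hn
    exact ⟨n, hn⟩
  have hrot : ∀ (k l : Fin 6) (x : ℝ) (m : ℤ), e l - e k = x + 2 * π * m →
      w l * ‖w k‖ = ‖w l‖ * Complex.exp (x * Complex.I) * w k := by
    intro k l x m hx
    obtain ⟨n, hn⟩ := harg k
    obtain ⟨n', hn'⟩ := harg l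
    have e1 := Complex.norm_mul_exp_arg_mul_I (w k)
    have e2 := Complex.norm_mul_exp_arg_mul_I (w l)
    have e3 : Complex.exp (Complex.arg (w l) * Complex.I) =
        Complex.exp (x * Complex.I) * Complex.exp (Complex.arg (w k) * Complex.I) := by
      rw [← Complex.exp_add]
      have : (Complex.arg (w l) : ℂ) * Complex.I = x * Complex.I + Complex.arg (w k) * Complex.I +
          (n' - n + m : ℤ) * (2 * π * Complex.I) := by
        have h' : (Complex.arg (w l) : ℂ) = Complex.arg (w k) + x + 2 * π * (n' - n + m : ℤ) := by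
          have : Complex.arg (w l) = Complex.arg (w k) + x + 2 * π * (n' - n + m : ℤ) := by
            push_cast
            linarith
          rw [this]
          push_cast
          ring
        rw [h']; ring
      rw [this, Complex.exp_add _ ((n' - n + m : ℤ) * (2 * π * Complex.I)),
        Complex.exp_int_mul_two_pi_mul_I, mul_one]
    conv_lhs => rw [← e2, e3]
    conv_rhs => rw [← e1]
    ring
  refine ⟨w, ![e 1 - e 0, e 2 - e 1, e 3 - e 2, e 4 - e 3, e 5 - e 4, 2 * π - e 5], hwinj, hwJ,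
    hwsurj, ?_, ?_⟩
  · intro k
    fin_cases k <;> simp <;> constructor <;> linarith
  · intro k
    fin_cases k
    · exact hrot 0 1 _ 0 (by simp)
    · exact hrot 1 2 _ 0 (by simp)
    · exact hrot 2 3 _ 0 (by simp)
    · exact hrot 3 4 _ 0 (by simp)
    · exact hrot 4 5 _ 0 (by simp)
    · exact hrot 5 0 _ (-1) (by simp [he0]; ring)

end Pool.Agent.H96.UO
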