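import Pool.Agent.H96.UO.Hex

/-!
# Steep universal optimality: Eisenstein integers
-/

set_option autoImplicit false
set_option linter.unusedSectionVars false

open Real Set

namespace Pool.Agent.H96.UO

/-- coordinates of `(m + n ω) ω ^ k` -/
def co (k : Fin 6) (m n : ℤ) : ℤ × ℤ :=
  ![(m, n), (-n, m + n), (-m - n, m), (-m, -n), (n, -m - n), (m + n, -m)] k

theorem co_spec (k : Fin 6) (m n : ℤ) :
    ((m:ℂ) + n * om) * om ^ (k : ℕ) = ((co k m n).1 : ℂ) + ((co k m n).2 : ℂ) * om := by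
  have h := om_sq
  have h3 := om_cube
  have h4 : om ^ 4 = -om := by
    have : om ^ 4 = om ^ 3 * om := by ring
    rw [this, h3]; ring
  have h5 : om ^ 5 = -om ^ 2 := by
    have : om ^ 5 = om ^ 3 * om ^ 2 := by ring
    rw [this, h3]; ring
  fin_cases k
  · simp [co]
  · simp [co]
    linear_combination (n:ℂ) * h
  · simp [co]
    linear_combination ((m:ℂ) + n * om) * h + (n:ℂ) * h
  · simp [co]
    linear_combination ((m:ℂ) + n * om) * h3
  · simp [co]
    linear_combination ((m:ℂ) + n * om) * h4 - (n:ℂ) * h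
  · simp [co]
    linear_combination ((m:ℂ) + n * om) * h5 - ((m:ℂ) + n * om) * h - (n:ℂ) * h

theorem co_inj {k k' : Fin 6} {m n m' n' : ℤ} (hm : 1 ≤ m) (hn : 0 ≤ n) (hm' : 1 ≤ m')
    (hn' : 0 ≤ n') (h : co k m n = co k' m' n') : k = k' ∧ m = m' ∧ n = n' := by
  fin_cases k <;> fin_cases k' <;> simp [co] at h ⊢ <;> omega

theorem co_surj (a b : ℤ) (h : (a, b) ≠ (0, 0)) : ∃ (k : Fin 6) (m n : ℕ), 1 ≤ m ∧
    co k m n = (a, b) := by
  have h' : ¬ (a = 0 ∧ b = 0) := by simpa using h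
  by_cases h0 : 1 ≤ a ∧ 0 ≤ b
  · exact ⟨0, a.toNat, b.toNat, by omega, by simp [co]; omega⟩
  by_cases h1 : a ≤ 0 ∧ 1 ≤ a + b
  · exact ⟨1, (a + b).toNat, (-a).toNat, by omega, by simp [co]; omega⟩
  by_cases h2 : 1 ≤ b ∧ a + b ≤ 0
  · exact ⟨2, b.toNat, (-a - b).toNat, by omega, by simp [co]; omega⟩
  by_cases h3 : a ≤ -1 ∧ b ≤ 0
  · exact ⟨3, (-a).toNat, (-b).toNat, by omega, by simp [co]; omega⟩
  by_cases h4 : 0 ≤ a ∧ a + b ≤ -1
  · exact ⟨4, (-a - b).toNat, a.toNat, by omega, by simp [co]; omega⟩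
  · exact ⟨5, (-b).toNat, (a + b).toNat, by omega, by simp [co]; omega⟩

/-- the quadratic form -/
def qf (a b : ℤ) : ℤ := a ^ 2 + a * b + b ^ 2

theorem qf_co (k : Fin 6) (m n : ℤ) : qf (co k m n).1 (co k m n).2 = qf m n := by
  fin_cases k <;> simp [co, qf] <;> ring

theorem qf_pos {a b : ℤ} (h : ¬ (a = 0 ∧ b = 0)) : 1 ≤ qf a b := by
  unfold qf
  by_contra hcon
  push Not at hcon
  have h1 : (2 * a + b) ^ 2 + 3 * b ^ 2 ≤ 0 := by nlinarith
  have h2 : b = 0 := by nlinarith [sq_nonneg (2 * a + b), sq_nonneg b]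
  have h3 : a = 0 := by rw [h2] at h1; nlinarith [sq_nonneg a]
  exact h ⟨h3, h2⟩

theorem norm_eis (a b : ℤ) : ‖(a:ℂ) + b * om‖ ^ 2 = qf a b := by
  have s3 : √3 * √3 = 3 := mul_self_sqrt (by norm_num)
  rw [Complex.sq_norm, Complex.normSq_apply]
  simp only [Complex.add_re, Complex.add_im, Complex.mul_re, Complex.mul_im, om_re, om_im,
    Complex.intCast_re, Complex.intCast_im, qf]
  push_cast
  nlinarith

theorem eis_sep {a b a' b' : ℤ} (h : ‖((a:ℂ) + b * om) - (a' + b' * om)‖ < 1) :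
    a = a' ∧ b = b' := by
  have e : ((a:ℂ) + b * om) - (a' + b' * om) = ((a - a' : ℤ) : ℂ) + ((b - b' : ℤ) : ℂ) * om := by
    push_cast; ring
  rw [e] at h
  by_contra hcon
  have h1 := qf_pos (a := a - a') (b := b - b') (by omega)
  have h2 := norm_eis (a - a') (b - b')
  have h3 : ‖((a - a' : ℤ) : ℂ) + ((b - b' : ℤ) : ℂ) * om‖ ^ 2 < 1 := by
    have := norm_nonneg (((a - a' : ℤ) : ℂ) + ((b - b' : ℤ) : ℂ) * om)
    nlinarith
  rw [h2] at h3
  have : (1:ℝ) ≤ (qf (a - a') (b - b') : ℝ) := by exact_mod_cast h1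
  linarith

/-- the targets of two words along nearly regular flags at one point are different -/
theorem targets_inj {u z z' : ℂ} {k k' : Fin 6} {m n m' n' : ℕ} (hu : 1726 / 1000 ≤ ‖u‖)
    (hm : 1 ≤ m) (hm' : 1 ≤ m')
    (h : ‖z - ((m:ℂ) + n * om) * (om ^ (k : ℕ) * u)‖ ≤ 1 / 5)
    (h' : ‖z' - ((m':ℂ) + n' * om) * (om ^ (k' : ℕ) * u)‖ ≤ 1 / 5) (he : z = z') :
    k = k' ∧ m = m' ∧ n = n' := by
  have e1 := co_spec k m n
  have e2 := co_spec k' m' n'
  push_cast at e1 e2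
  set p := co k m n with hp
  set p' := co k' m' n' with hp'
  have h1 : ‖((p.1:ℂ) + p.2 * om - (p'.1 + p'.2 * om)) * u‖ ≤ 2 / 5 := by
    have : ((p.1:ℂ) + p.2 * om - (p'.1 + p'.2 * om)) * u =
        -(z - ((m:ℂ) + n * om) * (om ^ (k : ℕ) * u)) +
          (z' - ((m':ℂ) + n' * om) * (om ^ (k' : ℕ) * u)) := by
      rw [← e1, ← e2, he]; ring
    rw [this]
    refine (norm_add_le _ _).trans ?_
    rw [norm_neg]
    linarith
  rw [norm_mul] at h1
  have h2 : ‖(p.1:ℂ) + p.2 * om - (p'.1 + p'.2 * om)‖ < 1 := by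
    by_contra hcon
    push Not at hcon
    nlinarith
  obtain ⟨a1, a2⟩ := eis_sep h2
  have h3 := co_inj (k := k) (k' := k') (m := m) (n := n) (m' := m') (n' := n')
    (by exact_mod_cast hm) (by positivity) (by exact_mod_cast hm') (by positivity)
    (Prod.ext a1 a2)
  refine ⟨h3.1, ?_, ?_⟩
  · exact_mod_cast h3.2.1
  · exact_mod_cast h3.2.2

theorem far_target {d z : ℂ} {m n : ℕ} (hd : 1726 / 1000 ≤ ‖d‖) (hm : 1 ≤ m)
    (hne : (m, n) ≠ (1, 0)) (h : ‖z - ((m:ℂ) + n * om) * d‖ ≤ 1 / 5) : 2 ≤ ‖z‖ := by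
  have h1 : (3:ℝ) ≤ ‖(m:ℂ) + n * om‖ ^ 2 := by
    have e := norm_eis m n
    push_cast at e
    rw [e]
    have : (3:ℤ) ≤ qf m n := by
      unfold qf
      have hne' : ¬ (m = 1 ∧ n = 0) := by simpa using hne
      rcases Nat.eq_zero_or_pos n with h0 | h0
      · have : 2 ≤ m := by omega
        subst h0
        have : (2:ℤ) ≤ m := by exact_mod_cast this
        push_cast
        nlinarith
      · have h2 : (1:ℤ) ≤ n := by exact_mod_cast h0
        have h3 : (1:ℤ) ≤ m := by exact_mod_cast hm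
        nlinarith
    exact_mod_cast this
  have h2 : 17 / 10 ≤ ‖(m:ℂ) + n * om‖ := by
    by_contra hcon
    push Not at hcon
    have := norm_nonneg ((m:ℂ) + n * om)
    nlinarith
  have h3 : ‖((m:ℂ) + n * om) * d‖ ≤ ‖z‖ + 1 / 5 := by
    have : ((m:ℂ) + n * om) * d = z - (z - ((m:ℂ) + n * om) * d) := by ring
    rw [this]
    exact (norm_sub_le _ _).trans (by linarith)
  rw [norm_mul] at h3
  nlinarith

end Pool.Agent.H96.UO
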