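import Pool.Agent.H96.UO.Tail

/-!
# Steep universal optimality: different words have different targets
-/

set_option autoImplicit false
set_option linter.unusedSectionVars false

open Real Set
open scoped ENNReal
open Equiv (Perm)

namespace Pool.Agent.H96.UO

theorem sg_pow {ι : Type*} [Fintype ι] [DecidableEq ι] (f : ι × Fin 6) (j : ℕ) :
    (sg ι ^ j) f = (f.1, f.2 + j • (1 : Fin 6)) := by
  induction j with
  | zero => simp
  | succ j ih =>
    rw [pow_succ', Equiv.Perm.mul_apply, ih, sg_apply, succ_nsmul, ← add_assoc]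

section

variable {ι : Type*} [Fintype ι] [DecidableEq ι] {L : Submodule ℤ ℂ} [DiscreteTopology L]
  [IsZLattice ℝ L] {x : ι → ℂ}

theorem rot_near {η : ℝ} {f : ι × Fin 6} (h : ∀ j < 6, Aset L x η ((sg ι ^ j) f)) (k : Fin 6) :
    ‖dd L x (f.1, k) - om ^ (k : ℕ) * dd L x (f.1, 0)‖ ≤ 5 * η := by
  have hA : ∀ l : Fin 6, ‖dd L x (f.1, l + 1) - om * dd L x (f.1, l)‖ ≤ η := by
    intro l
    have h1 := (h (l - f.2).val (l - f.2).isLt).2
    rw [sg_pow, sg_apply] at h1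
    have h2 : f.2 + (l - f.2).val • (1 : Fin 6) = l := by
      have : ∀ a b : Fin 6, a + (b - a).val • (1 : Fin 6) = b := by decide
      exact this _ _
    simp only [h2] at h1
    exact h1
  have hη : 0 ≤ η := (norm_nonneg _).trans (hA 0)
  have hind : ∀ n : ℕ, ‖dd L x (f.1, n • (1 : Fin 6)) - om ^ n * dd L x (f.1, 0)‖ ≤ n * η := by
    intro n
    induction n with
    | zero => simp
    | succ n ih =>
      have h1 := hA (n • (1 : Fin 6))
      have e : dd L x (f.1, (n + 1) • (1 : Fin 6)) - om ^ (n + 1) * dd L x (f.1, 0) =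
          (dd L x (f.1, n • (1 : Fin 6) + 1) - om * dd L x (f.1, n • (1 : Fin 6))) +
            om * (dd L x (f.1, n • (1 : Fin 6)) - om ^ n * dd L x (f.1, 0)) := by
        rw [succ_nsmul]; ring
      rw [e]
      refine (norm_add_le _ _).trans ?_
      rw [norm_mul, norm_om, one_mul]
      push_cast
      linarith
  have h3 := hind k.val
  have h3' : k.val • (1 : Fin 6) = k := by
    have : ∀ a : Fin 6, a.val • (1 : Fin 6) = a := by decide
    exact this _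
  rw [h3'] at h3
  refine h3.trans ?_
  have : (k.val : ℝ) ≤ 5 := by
    have := k.isLt
    have h4 : k.val ≤ 5 := by omega
    exact_mod_cast h4
  gcongr

variable {τ : Perm (ι × Fin 6)} (hτ : ∀ f, Dom L x f → τ f = nx L x f)

include hτ

theorem RS_near0 {v : ℕ × ℕ} (h1 : 1 ≤ v.1) {i : ι} {k : Fin 6} (hf : (i, k) ∈ RS L x τ v) :
    ‖dsp (V (sg ι) τ (dd L x) v.1 v.2) (i, k) -
      (v.1 + v.2 * om) * (om ^ (k : ℕ) * dd L x (i, 0))‖ ≤ 1 / 5 := by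
  have h2 := RS_near hτ h1 hf
  have h3 := rot_near (mem_RS.mp hf).2.2 k
  simp only at h2 h3
  have e : dsp (V (sg ι) τ (dd L x) v.1 v.2) (i, k) -
      (v.1 + v.2 * om) * (om ^ (k : ℕ) * dd L x (i, 0)) =
      (dsp (V (sg ι) τ (dd L x) v.1 v.2) (i, k) - (v.1 + v.2 * om) * dd L x (i, k)) +
      (v.1 + v.2 * om) * (dd L x (i, k) - om ^ (k : ℕ) * dd L x (i, 0)) := by ring
  rw [e]
  refine (norm_add_le _ _).trans ?_
  rw [norm_mul]
  have h4 : ‖(v.1 : ℂ) + v.2 * om‖ ≤ ((v.1 + v.2 : ℕ) : ℝ) := by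
    refine (norm_add_le _ _).trans ?_
    rw [norm_mul, norm_om, mul_one]
    simp
  have hS : (1:ℝ) ≤ ((v.1 + v.2 : ℕ) : ℝ) := by
    have : 1 ≤ v.1 + v.2 := by omega
    exact_mod_cast this
  have h5 : ‖(v.1 : ℂ) + v.2 * om‖ * ‖dd L x (i, k) - om ^ (k : ℕ) * dd L x (i, 0)‖ ≤
      ((v.1 + v.2 : ℕ) : ℝ) * (5 * eta v) := by gcongr
  have h6 : ((v.1 + v.2 : ℕ) : ℝ) * (5 * eta v) ≤ 5 / 100 := by
    unfold eta
    set S : ℝ := ((v.1 + v.2 : ℕ) : ℝ)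
    have : S * (5 * (1 / (100 * S ^ 2))) = 5 / 100 * (1 / S) := by
      field_simp
    rw [this]
    have : 1 / S ≤ 1 := by
      rw [div_le_one (by linarith)]; exact hS
    linarith
  linarith

theorem RS_mem {v : ℕ × ℕ} {i : ι} {k : Fin 6} (hf : (i, k) ∈ RS L x τ v) :
    dsp (V (sg ι) τ (dd L x) v.1 v.2) (i, k) ∈ Vec L x i := by
  have h := mem_RS.mp hf
  exact ⟨_, (path hτ (eta_nonneg v) v.1 v.2 h.1 h.2.1).2.2⟩

theorem RS_inj {v v' : ℕ × ℕ} {i : ι} {k k' : Fin 6} (h1 : 1 ≤ v.1) (h1' : 1 ≤ v'.1)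
    (hf : (i, k) ∈ RS L x τ v) (hf' : (i, k') ∈ RS L x τ v')
    (he : dsp (V (sg ι) τ (dd L x) v.1 v.2) (i, k) = dsp (V (sg ι) τ (dd L x) v'.1 v'.2) (i, k')) :
    v = v' ∧ k = k' := by
  have hg : gd L x i := by
    have := ((mem_RS.mp hf).2.2 0 (by norm_num)).1
    simpa using this
  obtain ⟨a, b, c⟩ := targets_inj (norm_dd_bounds (f := (i, 0)) hg).1 h1 h1'
    (RS_near0 hτ h1 hf) (RS_near0 hτ h1' hf') he
  exact ⟨Prod.ext b c, a⟩

variable (hS : Sep L x) {Z : ι → Finset ℂ}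
  (hZ : ∀ i z, z ∈ Z i ↔ z ∈ Vec L x i ∧ z ≠ 0 ∧ ‖z‖ < 2)

include hZ

theorem class_le (F : ℂ → ℝ≥0∞) (W : Finset (ℕ × ℕ)) (hW : ∀ v ∈ W, 1 ≤ v.1 ∧ v ≠ (1, 0)) (i : ι) :
    ∑ z ∈ Z i, F z + ∑ v ∈ W, ∑ k, (if (i, k) ∈ RS L x τ v then
      F (dsp (V (sg ι) τ (dd L x) v.1 v.2) (i, k)) else 0) ≤
      ∑' z, {z | z ∈ Vec L x i ∧ z ≠ 0}.indicator F z := by
  classical
  set B := (W ×ˢ (Finset.univ : Finset (Fin 6))).filter fun p => (i, p.2) ∈ RS L x τ p.1 with hB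
  set φ : (ℕ × ℕ) × Fin 6 → ℂ := fun p => dsp (V (sg ι) τ (dd L x) p.1.1 p.1.2) (i, p.2) with hφ
  have hBmem : ∀ p ∈ B, (1 ≤ p.1.1 ∧ p.1 ≠ (1, 0)) ∧ (i, p.2) ∈ RS L x τ p.1 := by
    intro p hp
    rw [hB, Finset.mem_filter, Finset.mem_product] at hp
    exact ⟨hW _ hp.1.1, hp.2⟩
  have hinj : Set.InjOn φ B := by
    intro p hp p' hp' he
    obtain ⟨a, b⟩ := hBmem p hp
    obtain ⟨a', b'⟩ := hBmem p' hp'
    obtain ⟨c, d⟩ := RS_inj hτ a.1 a'.1 b b' he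
    exact Prod.ext c d
  have hfar : ∀ p ∈ B, 2 ≤ ‖φ p‖ := fun p hp => by
    obtain ⟨a, b⟩ := hBmem p hp
    exact RS_far hτ a.1 a.2 b
  have e1 : ∑ v ∈ W, ∑ k, (if (i, k) ∈ RS L x τ v then
      F (dsp (V (sg ι) τ (dd L x) v.1 v.2) (i, k)) else 0) = ∑ z ∈ B.image φ, F z := by
    rw [Finset.sum_image hinj, hB, Finset.sum_filter, Finset.sum_product]
  have hdisj : Disjoint (Z i) (B.image φ) := by
    rw [Finset.disjoint_left]
    intro z hz hz'
    rw [Finset.mem_image] at hz'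
    obtain ⟨p, hp, rfl⟩ := hz'
    have h1 := hfar p hp
    have h2 := ((hZ i _).mp hz).2.2
    linarith
  rw [e1, ← Finset.sum_union hdisj]
  calc ∑ z ∈ Z i ∪ B.image φ, F z
      = ∑ z ∈ Z i ∪ B.image φ, {z | z ∈ Vec L x i ∧ z ≠ 0}.indicator F z := by
        refine Finset.sum_congr rfl fun z hz => ?_
        rw [Set.indicator_of_mem]
        rcases Finset.mem_union.mp hz with h | h
        · exact ⟨((hZ i _).mp h).1, ((hZ i _).mp h).2.1⟩
        · rw [Finset.mem_image] at h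
          obtain ⟨p, hp, rfl⟩ := h
          obtain ⟨a, b⟩ := hBmem p hp
          refine ⟨RS_mem hτ b, ?_⟩
          have := hfar p hp
          rw [← norm_pos_iff]
          linarith
    _ ≤ _ := ENNReal.sum_le_tsum _

theorem classes_le (F : ℂ → ℝ≥0∞) (W : Finset (ℕ × ℕ)) (hW : ∀ v ∈ W, 1 ≤ v.1 ∧ v ≠ (1, 0)) :
    ∑ i, ∑ z ∈ Z i, F z + ∑ v ∈ W, ∑ f ∈ RS L x τ v,
      F (dsp (V (sg ι) τ (dd L x) v.1 v.2) f) ≤
      ∑ i, ∑' z, {z | z ∈ Vec L x i ∧ z ≠ 0}.indicator F z := by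
  classical
  have h1 := Finset.sum_le_sum fun (i : ι) (_ : i ∈ Finset.univ) => class_le hτ hZ F W hW i
  rw [Finset.sum_add_distrib] at h1
  refine le_trans (add_le_add le_rfl (le_of_eq ?_)) h1
  rw [Finset.sum_comm]
  refine Finset.sum_congr rfl fun v _ => ?_
  have h2 : ∑ f ∈ RS L x τ v, F (dsp (V (sg ι) τ (dd L x) v.1 v.2) f) =
      ∑ f, (if f ∈ RS L x τ v then F (dsp (V (sg ι) τ (dd L x) v.1 v.2) f) else 0) := by
    rw [Finset.sum_ite_mem]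
    simp
  rw [h2, Fintype.sum_prod_type]

end

end Pool.Agent.H96.UO
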