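import Pool.Agent.H96.UO.Local

/-!
# Steep universal optimality: hexagons

Six neighbours at squared distances near `3` form a nearly regular hexagon.
-/

set_option autoImplicit false
set_option linter.unusedSectionVars false

open Real Set

namespace Pool.Agent.H96.UO

/-- the rotation by `π / 3` -/
noncomputable def om : ℂ := Complex.exp ((π / 3 : ℝ) * Complex.I)

theorem om_eq : om = ⟨1 / 2, √3 / 2⟩ := by
  unfold om
  rw [Complex.exp_mul_I, ← Complex.ofReal_cos, ← Complex.ofReal_sin, cos_pi_div_three,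
    sin_pi_div_three]
  apply Complex.ext <;> simp

theorem om_re : om.re = 1 / 2 := by rw [om_eq]

theorem om_im : om.im = √3 / 2 := by rw [om_eq]

theorem norm_om : ‖om‖ = 1 := by
  unfold om
  exact Complex.norm_exp_ofReal_mul_I _

theorem om_ne : om ≠ 0 := by
  rw [← norm_pos_iff, norm_om]; norm_num

theorem om_sq : om ^ 2 = om - 1 := by
  have h33 : √3 * √3 = 3 := mul_self_sqrt (by norm_num)
  rw [om_eq]
  apply Complex.ext <;> simp [pow_two] <;> nlinarith

theorem om_cube : om ^ 3 = -1 := by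
  have : om ^ 3 = om * om ^ 2 := by ring
  rw [this, om_sq]
  have : om * (om - 1) = om ^ 2 - om := by ring
  rw [this, om_sq]
  ring

/-- the neighbour structure of a point; `V` is the set of the vectors to the other points -/
structure Good (V : Set ℂ) (w : Fin 6 → ℂ) : Prop where
  inj : Function.Injective w
  mem : ∀ k, w k ∈ V
  all : ∀ z ∈ V, z ≠ 0 → ‖z‖ < 19 / 10 → ∃ k, w k = z
  near : ∀ k, |‖w k‖ ^ 2 - 3| ≤ 1 / 50
  rot : ∀ k, ‖w (k + 1) - om * w k‖ ≤ 2 / 5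

theorem exists_good {V : Set ℂ} {Z : Finset ℂ} (hZ : ∀ z, z ∈ Z ↔ z ∈ V ∧ z ≠ 0 ∧ ‖z‖ < 2)
    (hs : ∀ z ∈ Z, ∀ w ∈ Z, z ≠ w → 17 / 10 ≤ ‖z - w‖)
    (h6 : (Z.filter fun z => ‖z‖ < 19 / 10).card = 6)
    (hn : ∀ z ∈ Z.filter (fun z => ‖z‖ < 19 / 10), |‖z‖ ^ 2 - 3| ≤ 1 / 50) :
    ∃ w, Good V w := by
  set J := Z.filter fun z => ‖z‖ < 19 / 10 with hJ
  have hJZ : ∀ z ∈ J, z ∈ Z := fun z hz => (Finset.mem_filter.mp hz).1
  have hz0 : ∀ z ∈ J, z ≠ 0 := fun z hz => ((hZ z).mp (hJZ z hz)).2.1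
  have hsq : ∀ z ∈ J, 298 / 100 ≤ ‖z‖ ^ 2 ∧ ‖z‖ ^ 2 ≤ 302 / 100 := by
    intro z hz
    have := abs_le.mp (hn z hz)
    constructor <;> linarith [this.1, this.2]
  have hlo : ∀ z ∈ J, 1726 / 1000 ≤ ‖z‖ := by
    intro z hz
    by_contra hcon
    push Not at hcon
    have := (hsq z hz).1
    nlinarith [norm_nonneg z]
  have hhi : ∀ z ∈ J, ‖z‖ ≤ 1738 / 1000 := by
    intro z hz
    by_contra hcon
    push Not at hcon
    have := (hsq z hz).2
    nlinarith [norm_nonneg z]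
  have hp := pi_gt_three
  have hang : ∀ z ∈ J, ∀ w ∈ J, z ≠ w →
      2 * (505 / 1000 : ℝ) ≤ InnerProductGeometry.angle z w := by
    intro z hz w hw hne
    have hc := cos_two_mul_ge (x := 505 / 1000) (by norm_num)
    refine angle_ge (hz0 z hz) (hz0 w hw) (c := 522 / 1000) (by linarith) ?_ ?_
    · refine le_trans ?_ hc
      norm_num
    · have hd : (17 / 10) ^ 2 ≤ ‖z - w‖ ^ 2 := by
        have := hs z (hJZ z hz) w (hJZ w hw) hne
        gcongr
      have a1 := hsq z hz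
      have a2 := hsq w hw
      have a3 := hlo z hz
      have a4 := hlo w hw
      have a5 := hhi z hz
      have a6 := hhi w hw
      have a7 : (‖z‖ - ‖w‖) ^ 2 ≤ (12 / 1000) ^ 2 := sq_le_sq' (by linarith) (by linarith)
      nlinarith
  obtain ⟨w, Δ, hinj, hwJ, hsurj, hΔ, hrot⟩ := cyclic_order J (505 / 1000) (by norm_num) hz0 hang h6
  refine ⟨w, hinj, fun k => ((hZ _).mp (hJZ _ (hwJ k))).1, ?_, fun k => hn _ (hwJ k), ?_⟩
  · intro z hz hz0' hz19
    exact hsurj z (Finset.mem_filter.mpr ⟨(hZ z).mpr ⟨hz, hz0', by linarith⟩, hz19⟩)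
  · intro k
    have hk0 : ‖w k‖ ≠ 0 := norm_ne_zero_iff.mpr (hz0 _ (hwJ k))
    have e1 : (‖w k‖ : ℂ) * (w (k + 1) - om * w k) =
        w k * (‖w (k + 1)‖ * Complex.exp (Δ k * Complex.I) - ‖w k‖ * om) := by
      have := hrot k
      linear_combination this
    have e2 : ‖w (k + 1) - om * w k‖ =
        ‖(‖w (k + 1)‖ : ℂ) * Complex.exp (Δ k * Complex.I) - ‖w k‖ * om‖ := by
      have := congrArg norm e1
      rw [norm_mul, norm_mul, Complex.norm_real, norm_norm] at this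
      exact mul_left_cancel₀ hk0 this
    rw [e2]
    have e3 : (‖w (k + 1)‖ : ℂ) * Complex.exp (Δ k * Complex.I) - ‖w k‖ * om =
        ((‖w (k + 1)‖ - ‖w k‖ : ℝ) : ℂ) * Complex.exp (Δ k * Complex.I) +
          ‖w k‖ * (Complex.exp (Δ k * Complex.I) - om) := by
      push_cast
      ring
    have e4 : ‖Complex.exp (Δ k * Complex.I) - om‖ ≤ |Δ k - π / 3| := by
      have e5 : Complex.exp (Δ k * Complex.I) - om =
          om * (Complex.exp (Complex.I * ((Δ k - π / 3 : ℝ) : ℂ)) - 1) := by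
        unfold om
        rw [mul_sub, mul_one, ← Complex.exp_add]
        congr 2
        push_cast
        ring
      rw [e5, norm_mul, norm_om, one_mul]
      exact (Real.norm_exp_I_mul_ofReal_sub_one_le).trans (by rw [Real.norm_eq_abs])
    have hp2 := pi_lt_d2
    have hp3 := pi_gt_d2
    obtain ⟨d1, d2⟩ := hΔ k
    have e6 : |Δ k - π / 3| ≤ 2 / 10 := by
      rw [abs_le]
      constructor <;> linarith
    have e7 : |‖w (k + 1)‖ - ‖w k‖| ≤ 12 / 1000 := by
      rw [abs_le]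
      constructor <;> linarith [hlo _ (hwJ k), hlo _ (hwJ (k + 1)), hhi _ (hwJ k), hhi _ (hwJ (k + 1))]
    rw [e3]
    calc ‖((‖w (k + 1)‖ - ‖w k‖ : ℝ) : ℂ) * Complex.exp (Δ k * Complex.I) +
          ‖w k‖ * (Complex.exp (Δ k * Complex.I) - om)‖
        ≤ ‖((‖w (k + 1)‖ - ‖w k‖ : ℝ) : ℂ) * Complex.exp (Δ k * Complex.I)‖ +
          ‖(‖w k‖ : ℂ) * (Complex.exp (Δ k * Complex.I) - om)‖ := norm_add_le _ _
      _ = |‖w (k + 1)‖ - ‖w k‖| + ‖w k‖ * ‖Complex.exp (Δ k * Complex.I) - om‖ := by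
          rw [norm_mul, norm_mul, Complex.norm_exp_ofReal_mul_I, mul_one, Complex.norm_real,
            Complex.norm_real, Real.norm_eq_abs, norm_norm]
      _ ≤ 12 / 1000 + 1738 / 1000 * (2 / 10) := by
          have := e4.trans e6
          have h9 := hhi _ (hwJ k)
          gcongr
      _ ≤ 2 / 5 := by norm_num

end Pool.Agent.H96.UO
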