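import Pool.Agent.H96.UO.Arcs

/-!
# Steep universal optimality: the local inequality

Points of the annulus `17/10 ≤ |z| < 2` at mutual distances at least `17/10`.
-/

set_option autoImplicit false
set_option linter.unusedSectionVars false

open Real Set

namespace Pool.Agent.H96.UO

theorem angle_ge {z w : ℂ} (hz : z ≠ 0) (hw : w ≠ 0) {θ c : ℝ} (h1 : θ ≤ π)
    (hc : c ≤ cos θ) (h : ‖z‖ ^ 2 + ‖w‖ ^ 2 - ‖z - w‖ ^ 2 ≤ 2 * c * (‖z‖ * ‖w‖)) :
    θ ≤ InnerProductGeometry.angle z w := by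
  have hz0 := norm_pos_iff.mpr hz
  have hw0 := norm_pos_iff.mpr hw
  have h2 : cos (InnerProductGeometry.angle z w) ≤ cos θ := by
    refine le_trans ?_ hc
    rw [InnerProductGeometry.cos_angle,
      real_inner_eq_norm_mul_self_add_norm_mul_self_sub_norm_sub_mul_self_div_two,
      div_le_iff₀ (by positivity)]
    nlinarith
  by_contra hcon
  push Not at hcon
  have := cos_lt_cos_of_nonneg_of_le_pi (InnerProductGeometry.angle_nonneg z w) h1 hcon
  linarith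

theorem cos_two_mul_ge {x : ℝ} (h : x ^ 2 / 2 ≤ 1) : 2 * (1 - x ^ 2 / 2) ^ 2 - 1 ≤ cos (2 * x) := by
  have h1 := one_sub_sq_div_two_le_cos (x := x)
  rw [cos_two_mul]
  have h2 : 0 ≤ 1 - x ^ 2 / 2 := by linarith
  nlinarith

/-- the half-angles of the two kinds of neighbours -/
noncomputable def bb (z : ℂ) : ℝ := if ‖z‖ < 19 / 10 then 91 / 200 else 83 / 200

section

variable {Z : Finset ℂ} (h1 : ∀ z ∈ Z, 17 / 10 ≤ ‖z‖) (h2 : ∀ z ∈ Z, ‖z‖ < 2)
  (hs : ∀ z ∈ Z, ∀ w ∈ Z, z ≠ w → 17 / 10 ≤ ‖z - w‖)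

include h1 h2 hs

theorem bb_sep {z w : ℂ} (hz : z ∈ Z) (hw : w ∈ Z) (hne : z ≠ w) :
    bb z + bb w ≤ InnerProductGeometry.angle z w := by
  have z1 := h1 z hz
  have z2 := h2 z hz
  have w1 := h1 w hw
  have w2 := h2 w hw
  have hzw := hs z hz w hw hne
  have hp := pi_gt_three
  have hz0 : z ≠ 0 := norm_pos_iff.mp (by linarith)
  have hw0 : w ≠ 0 := norm_pos_iff.mp (by linarith)
  have hd : (17 / 10) ^ 2 ≤ ‖z - w‖ ^ 2 := by gcongr
  unfold bb
  split_ifs with ha hb hb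
  · have hc := cos_two_mul_ge (x := 91 / 200) (by norm_num)
    refine angle_ge hz0 hw0 (c := 605 / 1000) (by linarith) ?_ ?_
    · rw [show (91:ℝ) / 200 + 91 / 200 = 2 * (91 / 200) by norm_num]
      refine le_trans ?_ hc
      norm_num
    · nlinarith [mul_nonneg (sub_nonneg.mpr z1) (sub_nonneg.mpr ha.le),
        mul_nonneg (sub_nonneg.mpr w1) (sub_nonneg.mpr hb.le),
        mul_nonneg (sub_nonneg.mpr ha.le) (sub_nonneg.mpr hb.le),
        mul_nonneg (sub_nonneg.mpr z1) (sub_nonneg.mpr w1)]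
  · push Not at hb
    have hc := cos_two_mul_ge (x := 87 / 200) (by norm_num)
    refine angle_ge hz0 hw0 (c := 635 / 1000) (by linarith) ?_ ?_
    · rw [show (91:ℝ) / 200 + 83 / 200 = 2 * (87 / 200) by norm_num]
      refine le_trans ?_ hc
      norm_num
    · nlinarith [mul_nonneg (sub_nonneg.mpr z1) (sub_nonneg.mpr ha.le),
        mul_nonneg (sub_nonneg.mpr w2.le) (sub_nonneg.mpr hb),
        mul_nonneg (sub_nonneg.mpr ha.le) (sub_nonneg.mpr hb),
        mul_nonneg (sub_nonneg.mpr ha.le) (sub_nonneg.mpr w2.le),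
        mul_nonneg (sub_nonneg.mpr z1) (sub_nonneg.mpr hb),
        mul_nonneg (sub_nonneg.mpr z1) (sub_nonneg.mpr w2.le)]
  · push Not at ha
    have hc := cos_two_mul_ge (x := 87 / 200) (by norm_num)
    refine angle_ge hz0 hw0 (c := 635 / 1000) (by linarith) ?_ ?_
    · rw [show (83:ℝ) / 200 + 91 / 200 = 2 * (87 / 200) by norm_num]
      refine le_trans ?_ hc
      norm_num
    · nlinarith [mul_nonneg (sub_nonneg.mpr w1) (sub_nonneg.mpr hb.le),
        mul_nonneg (sub_nonneg.mpr z2.le) (sub_nonneg.mpr ha),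
        mul_nonneg (sub_nonneg.mpr hb.le) (sub_nonneg.mpr ha),
        mul_nonneg (sub_nonneg.mpr hb.le) (sub_nonneg.mpr z2.le),
        mul_nonneg (sub_nonneg.mpr w1) (sub_nonneg.mpr ha),
        mul_nonneg (sub_nonneg.mpr w1) (sub_nonneg.mpr z2.le)]
  · push Not at ha hb
    have hc := cos_two_mul_ge (x := 83 / 200) (by norm_num)
    refine angle_ge hz0 hw0 (c := 66 / 100) (by linarith) ?_ ?_
    · rw [show (83:ℝ) / 200 + 83 / 200 = 2 * (83 / 200) by norm_num]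
      refine le_trans ?_ hc
      norm_num
    · nlinarith [mul_nonneg (sub_nonneg.mpr z2.le) (sub_nonneg.mpr ha),
        mul_nonneg (sub_nonneg.mpr w2.le) (sub_nonneg.mpr hb),
        mul_nonneg (sub_nonneg.mpr ha) (sub_nonneg.mpr hb),
        mul_nonneg (sub_nonneg.mpr z2.le) (sub_nonneg.mpr w2.le)]

/-- the two kinds of neighbours compete -/
theorem counts : 91 / 200 * ((Z.filter fun z => ‖z‖ < 19 / 10).card : ℝ) +
    83 / 200 * ((Z.filter fun z => ¬ ‖z‖ < 19 / 10).card : ℝ) ≤ π := by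
  classical
  have hp := pi_gt_three
  have h := arcs_total Z (id : ℂ → ℂ) bb (fun z hz => norm_pos_iff.mp (by
      have := h1 z hz
      simp only [id]
      linarith))
    (fun z _ => by unfold bb; split_ifs <;> norm_num)
    (fun z _ => by unfold bb; split_ifs <;> linarith)
    (fun z hz w hw hne => bb_sep h1 h2 hs hz hw hne)
  rw [← Finset.sum_filter_add_sum_filter_not Z (fun z => ‖z‖ < 19 / 10)] at h
  have e1 : ∑ z ∈ Z.filter (fun z => ‖z‖ < 19 / 10), bb z =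
      91 / 200 * ((Z.filter fun z => ‖z‖ < 19 / 10).card : ℝ) := by
    rw [Finset.sum_congr rfl (g := fun _ => (91 / 200 : ℝ))]
    · rw [Finset.sum_const, nsmul_eq_mul]; ring
    · intro z hz
      unfold bb
      rw [if_pos (Finset.mem_filter.mp hz).2]
  have e2 : ∑ z ∈ Z.filter (fun z => ¬ ‖z‖ < 19 / 10), bb z =
      83 / 200 * ((Z.filter fun z => ¬ ‖z‖ < 19 / 10).card : ℝ) := by
    rw [Finset.sum_congr rfl (g := fun _ => (83 / 200 : ℝ))]
    · rw [Finset.sum_const, nsmul_eq_mul]; ring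
    · intro z hz
      unfold bb
      rw [if_neg (Finset.mem_filter.mp hz).2]
  rw [e1, e2] at h
  exact h

theorem inner_card_le : (Z.filter fun z => ‖z‖ < 19 / 10).card ≤ 6 := by
  have h := counts h1 h2 hs
  have hp := pi_lt_d2
  by_contra hcon
  push Not at hcon
  have h3 : (7:ℝ) ≤ (Z.filter fun z => ‖z‖ < 19 / 10).card := by exact_mod_cast hcon
  have h4 : (0:ℝ) ≤ (Z.filter fun z => ¬ ‖z‖ < 19 / 10).card := by positivity
  linarith

theorem inner_eq (h6 : (Z.filter fun z => ‖z‖ < 19 / 10).card = 6) :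
    (Z.filter fun z => ‖z‖ < 19 / 10) = Z := by
  have h := counts h1 h2 hs
  have hp := pi_lt_d4
  rw [h6] at h
  have h4 : (Z.filter fun z => ¬ ‖z‖ < 19 / 10).card = 0 := by
    by_contra hcon
    have : (1:ℝ) ≤ (Z.filter fun z => ¬ ‖z‖ < 19 / 10).card := by
      exact_mod_cast Nat.one_le_iff_ne_zero.mpr hcon
    push_cast at h
    linarith
  rw [Finset.card_eq_zero, Finset.filter_eq_empty_iff] at h4
  rw [Finset.filter_eq_self]
  intro z hz
  have := h4 hz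
  push Not at this
  exact this

theorem P_three_bounds : 90 / 1000 ≤ P 3 ∧ P 3 ≤ 92 / 1000 := by
  rw [P_three]
  have h3 : √3 < 1.7321 := by
    rw [sqrt_lt' (by norm_num)]; norm_num
  have h3' : 1.732 < √3 := by
    rw [lt_sqrt (by norm_num)]; norm_num
  have p1 := pi_gt_d4
  have p2 := pi_lt_d4
  constructor <;> linarith

/-- **Local inequality, six neighbours.** -/
theorem local_six {s : ℝ} (hs3 : 3 ≤ s) (h6 : (Z.filter fun z => ‖z‖ < 19 / 10).card = 6) :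
    6 + K s * (∑ z ∈ Z, P (‖z‖ ^ 2) - 6 * P 3) + s / 10 * ∑ z ∈ Z, (‖z‖ ^ 2 - 3) ^ 2 ≤
      ∑ z ∈ Z, exp (-(s * (‖z‖ ^ 2 - 3))) := by
  have hZ := inner_eq h1 h2 hs h6
  have hc : Z.card = 6 := by rw [← hZ, h6]
  have h := Finset.sum_le_sum fun z (hz : z ∈ Z) => tangent (t := ‖z‖ ^ 2) hs3
    (by nlinarith [h1 z hz]) (by nlinarith [h2 z hz, norm_nonneg z])
  refine le_trans (le_of_eq ?_) h
  rw [Finset.sum_add_distrib, Finset.sum_add_distrib, ← Finset.mul_sum, ← Finset.mul_sum,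
    Finset.sum_sub_distrib, Finset.sum_const, Finset.sum_const, hc]
  simp only [nsmul_eq_mul]
  push_cast
  ring

/-- **Local inequality, fewer neighbours.** -/
theorem local_few {s : ℝ} (hs10 : 20 ≤ s) (h6 : (Z.filter fun z => ‖z‖ < 19 / 10).card ≠ 6) :
    6 + K s * (∑ z ∈ Z, P (‖z‖ ^ 2) - 6 * P 3) + s / 10 ≤
      ∑ z ∈ Z, exp (-(s * (‖z‖ ^ 2 - 3))) := by
  have hcnt := counts h1 h2 hs
  have hle := inner_card_le h1 h2 hs
  set A := Z.filter fun z => ‖z‖ < 19 / 10 with hA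
  set B := Z.filter fun z => ¬ ‖z‖ < 19 / 10 with hB
  have h5 : (A.card : ℝ) ≤ 5 := by
    have : A.card ≤ 5 := by omega
    exact_mod_cast this
  have h3 : √3 < 1.7321 := by
    rw [sqrt_lt' (by norm_num)]; norm_num
  have h3' : 1.732 < √3 := by
    rw [lt_sqrt (by norm_num)]; norm_num
  obtain ⟨p3, p3'⟩ := P_three_bounds h1 h2 hs
  have e1 : ∑ z ∈ Z, exp (-(s * (‖z‖ ^ 2 - 3))) ≥ ∑ z ∈ A, exp (-(s * (‖z‖ ^ 2 - 3))) :=
    Finset.sum_le_sum_of_subset_of_nonneg (Finset.filter_subset _ _) fun _ _ _ => (exp_pos _).le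
  have e2 : ∑ z ∈ A, (1 + K s * (P (‖z‖ ^ 2) - P 3)) ≤ ∑ z ∈ A, exp (-(s * (‖z‖ ^ 2 - 3))) := by
    refine Finset.sum_le_sum fun z hz => ?_
    have hz' := (Finset.mem_filter.mp hz).1
    have := tangent (t := ‖z‖ ^ 2) (s := s) (by linarith)
      (by nlinarith [h1 z hz']) (by nlinarith [h2 z hz', norm_nonneg z])
    have h0 : 0 ≤ s / 10 * (‖z‖ ^ 2 - 3) ^ 2 := by positivity
    linarith
  rw [Finset.sum_add_distrib, Finset.sum_const, ← Finset.mul_sum, Finset.sum_sub_distrib,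
    Finset.sum_const, nsmul_eq_mul, nsmul_eq_mul, mul_one] at e2
  have e3 : ∑ z ∈ B, P (‖z‖ ^ 2) ≤ B.card * (32 / 1000) := by
    have : ∑ z ∈ B, P (‖z‖ ^ 2) ≤ ∑ _z ∈ B, (32 / 1000 : ℝ) := by
      refine Finset.sum_le_sum fun z hz => ?_
      obtain ⟨hz', hz2⟩ := Finset.mem_filter.mp hz
      push Not at hz2
      have h4 := h2 z hz'
      have h7 := P_le_parabola (t := ‖z‖ ^ 2) (by nlinarith [h1 z hz']) (by nlinarith [norm_nonneg z])
      have h8 : ((4 - ‖z‖ ^ 2) ^ 2 - 1) / (8 * √3) ≤ -(60 / 1000) := by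
        rw [div_le_iff₀ (by positivity)]
        have h9 : 4 - ‖z‖ ^ 2 ≤ 0.39 := by nlinarith
        have h10 : 0 ≤ 4 - ‖z‖ ^ 2 := by nlinarith [norm_nonneg z]
        nlinarith
      linarith
    refine this.trans (le_of_eq ?_)
    rw [Finset.sum_const, nsmul_eq_mul]
  have e4 : ∑ z ∈ Z, P (‖z‖ ^ 2) = ∑ z ∈ A, P (‖z‖ ^ 2) + ∑ z ∈ B, P (‖z‖ ^ 2) := by
    rw [hA, hB, Finset.sum_filter_add_sum_filter_not]
  rw [e4]
  have hp := pi_lt_d4
  have hB0 : (0:ℝ) ≤ B.card := by positivity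
  have hA0 : (0:ℝ) ≤ A.card := by positivity
  have hK : 6.928 * s ≤ K s ∧ K s ≤ 6.9284 * s := by
    unfold K
    constructor <;> nlinarith
  obtain ⟨k1, k2⟩ := hK
  set a := (A.card : ℝ)
  set bq := (B.card : ℝ)
  have hKs : 0 ≤ K s := by linarith
  -- reduce to `(6 - a) (K P3 - 1) - K (32/1000) b ≥ s / 10`
  have e5 : K s * ∑ z ∈ B, P (‖z‖ ^ 2) ≤ K s * (bq * (32 / 1000)) :=
    mul_le_mul_of_nonneg_left e3 hKs
  have hb : bq ≤ (3.1416 - 91 / 200 * a) / (83 / 200) := by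
    rw [le_div_iff₀ (by norm_num)]
    linarith
  have e6 : K s * (bq * (32 / 1000)) ≤ K s * ((3.1416 - 91 / 200 * a) / (83 / 200) * (32 / 1000)) := by
    gcongr
  have e7 : s / 10 ≤ (6 - a) * (K s * P 3 - 1) -
      K s * ((3.1416 - 91 / 200 * a) / (83 / 200) * (32 / 1000)) := by
    have e8 : K s * (90 / 1000) ≤ K s * P 3 := mul_le_mul_of_nonneg_left p3 hKs
    have e9 : (6 - a) * (K s * (90 / 1000) - 1) ≤ (6 - a) * (K s * P 3 - 1) :=
      mul_le_mul_of_nonneg_left (by linarith) (by linarith)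
    have e13 : 0 ≤ (5 - a) * (K s - 20) := mul_nonneg (by linarith) (by linarith)
    nlinarith
  have e10 : (6 - a) * (K s * P 3 - 1) = 6 * K s * P 3 - 6 - a * (K s * P 3) + a := by ring
  have e11 : K s * (∑ z ∈ A, P (‖z‖ ^ 2) - a * P 3) = K s * ∑ z ∈ A, P (‖z‖ ^ 2) - a * (K s * P 3) := by
    ring
  rw [e11] at e2
  have e12 : K s * (∑ z ∈ A, P (‖z‖ ^ 2) + ∑ z ∈ B, P (‖z‖ ^ 2) - 6 * P 3) =
      K s * ∑ z ∈ A, P (‖z‖ ^ 2) + K s * ∑ z ∈ B, P (‖z‖ ^ 2) - 6 * K s * P 3 := by ring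
  rw [e12]
  linarith

end

end Pool.Agent.H96.UO
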