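import Pool.Agent.H96.UO.Rel

/-!
# Steep universal optimality: regular flags

The displacement of a word along a regular flag is nearly the expected multiple of the displacement
of the flag; most flags are regular.
-/

set_option autoImplicit false
set_option linter.unusedSectionVars false

open Real Set
open Equiv (Perm)

namespace Pool.Agent.H96.UO

theorem hex_alg {w w' : ℂ} (h1 : |‖w‖ ^ 2 - 3| ≤ 1 / 50) (h2 : |‖w'‖ ^ 2 - 3| ≤ 1 / 50)
    (h3 : |‖w' - w‖ ^ 2 - 3| ≤ 1 / 50) (h : ‖w' - om * w‖ ≤ 2 / 5) :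
    ‖w' - om * w‖ ^ 2 ≤ (‖w‖ ^ 2 - 3) ^ 2 + (‖w'‖ ^ 2 - 3) ^ 2 + (‖w' - w‖ ^ 2 - 3) ^ 2 := by
  set t1 := ‖w‖ ^ 2 with ht1
  set t2 := ‖w'‖ ^ 2 with ht2
  set t3 := ‖w' - w‖ ^ 2 with ht3
  set R := ‖w' - om * w‖ ^ 2 with hR
  set A := w'.re * w.re + w'.im * w.im with hA
  set Bq := w'.im * w.re - w'.re * w.im with hBq
  have s3 : √3 * √3 = 3 := mul_self_sqrt (by norm_num)
  have e1 : t1 = w.re * w.re + w.im * w.im := by rw [ht1, Complex.sq_norm, Complex.normSq_apply]
  have e2 : t2 = w'.re * w'.re + w'.im * w'.im := by rw [ht2, Complex.sq_norm, Complex.normSq_apply]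
  have e3 : t3 = t1 + t2 - 2 * A := by
    rw [ht3, Complex.sq_norm, Complex.normSq_apply, e1, e2, hA]
    simp only [Complex.sub_re, Complex.sub_im]
    ring
  have e4 : R = t1 + t2 - A - √3 * Bq := by
    rw [hR, Complex.sq_norm, Complex.normSq_apply, e1, e2, hA, hBq]
    simp only [Complex.sub_re, Complex.sub_im, Complex.mul_re, Complex.mul_im, om_re, om_im]
    nlinarith
  have e5 : A ^ 2 + Bq ^ 2 = t1 * t2 := by rw [e1, e2, hA, hBq]; ring
  have hR0 : 0 ≤ R := by rw [hR]; positivity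
  have hR1 : R ≤ 4 / 25 := by
    rw [hR]
    have := norm_nonneg (w' - om * w)
    nlinarith
  have key : R * (2 * (t1 + t2 - A) - R) =
      t1 ^ 2 + t2 ^ 2 + t3 ^ 2 - t1 * t2 - t2 * t3 - t3 * t1 := by
    have e6 : √3 * Bq = t1 + t2 - A - R := by linarith
    have e7 : 3 * Bq ^ 2 = (t1 + t2 - A - R) ^ 2 := by
      rw [← e6]
      have : (√3 * Bq) ^ 2 = √3 * √3 * Bq ^ 2 := by ring
      rw [this, s3]
    have e8 : A = (t1 + t2 - t3) / 2 := by linarith
    have e9 : 3 * (t1 * t2 - A ^ 2) = (t1 + t2 - A - R) ^ 2 := by rw [← e7, ← e5]; ring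
    rw [e8] at e9 ⊢
    nlinarith
  have b1 := abs_le.mp h1
  have b2 := abs_le.mp h2
  have b3 := abs_le.mp h3
  have hM : 1 ≤ (2 * (t1 + t2 - A) - R) / 4 := by
    have : A = (t1 + t2 - t3) / 2 := by linarith
    rw [this]
    linarith [b1.1, b2.1, b3.1]
  have hN : t1 ^ 2 + t2 ^ 2 + t3 ^ 2 - t1 * t2 - t2 * t3 - t3 * t1 ≤
      2 * ((t1 - 3) ^ 2 + (t2 - 3) ^ 2 + (t3 - 3) ^ 2) := by
    nlinarith [sq_nonneg (t1 - 3 + (t2 - 3) + (t3 - 3)), sq_nonneg (t1 - 3), sq_nonneg (t2 - 3),
      sq_nonneg (t3 - 3)]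
  nlinarith

section

variable {ι : Type*} [Fintype ι] [DecidableEq ι] (L : Submodule ℤ ℂ) (x : ι → ℂ)

open Classical in
/-- squared deviation of a flag -/
noncomputable def ee (f : ι × Fin 6) : ℝ := if gd L x f.1 then (‖dd L x f‖ ^ 2 - 3) ^ 2 else 0

/-- the sum of the squared deviations -/
noncomputable def S2 : ℝ := ∑ f, ee L x f

theorem ee_nonneg (f : ι × Fin 6) : 0 ≤ ee L x f := by
  unfold ee
  split_ifs <;> positivity

theorem S2_nonneg : 0 ≤ S2 L x := Finset.sum_nonneg fun f _ => ee_nonneg L x f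

/-- flags with nearly correct angle -/
def Aset (η : ℝ) (f : ι × Fin 6) : Prop := gd L x f.1 ∧ ‖dd L x (sg ι f) - om * dd L x f‖ ≤ η

open Classical in
noncomputable def nA (η : ℝ) : ℕ := (Finset.univ.filter fun f : ι × Fin 6 => ¬ Aset L x η f).card

variable {L x}

variable (hS : Sep L x) {τ : Perm (ι × Fin 6)} (hτ : ∀ f, Dom L x f → τ f = nx L x f)

include hS hτ

theorem rho_sq {f : ι × Fin 6} (h : Dom L x f) (h' : Dom L x (sg ι f)) :
    ‖dd L x (sg ι f) - om * dd L x f‖ ^ 2 ≤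
      ee L x f + ee L x (sg ι f) + ee L x (sg ι (sg ι (τ f))) := by
  obtain ⟨e1, e2, -⟩ := tau_triangle hS hτ h h'
  unfold ee
  rw [if_pos h.1, if_pos h'.1, if_pos e2.1]
  have e3 : dd L x (sg ι (sg ι (τ f))) = dd L x (sg ι f) - dd L x f := by rw [← e1]; ring
  rw [e3]
  refine hex_alg (dd_sq h.1) (dd_sq h'.1) ?_ ((good_spec h.1).rot f.2)
  rw [← e3]
  exact dd_sq e2.1

theorem nA_le {η : ℝ} (hη : 0 < η) : (nA L x η : ℝ) ≤ 2 * ndom L x + 3 * S2 L x / η ^ 2 := by
  classical
  set X := Finset.univ.filter fun f : ι × Fin 6 => Dom L x f ∧ Dom L x (sg ι f) ∧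
    η < ‖dd L x (sg ι f) - om * dd L x f‖ with hX
  have h1 : (Finset.univ.filter fun f : ι × Fin 6 => ¬ Aset L x η f) ⊆
      ((Finset.univ.filter fun f : ι × Fin 6 => ¬ Dom L x f) ∪
        (Finset.univ.filter fun f : ι × Fin 6 => ¬ Dom L x (sg ι f))) ∪ X := by
    intro f hf
    simp only [Finset.mem_filter, Finset.mem_univ, true_and, Aset, not_and, not_le] at hf
    simp only [hX, Finset.mem_union, Finset.mem_filter, Finset.mem_univ, true_and]
    by_cases a : Dom L x f
    · by_cases b : Dom L x (sg ι f)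
      · right; exact ⟨a, b, hf a.1⟩
      · left; right; exact b
    · left; left; exact a
  have h2 : nA L x η ≤ (ndom L x + ndom L x) + X.card := by
    unfold nA
    refine (le_trans (le_of_eq (by congr!)) (Finset.card_le_card h1)).trans
      ((Finset.card_union_le _ _).trans (Nat.add_le_add_right
      ((Finset.card_union_le _ _).trans ?_) _))
    rw [card_comp_perm (sg ι) fun f => ¬ Dom L x f]
    unfold ndom
    apply le_of_eq
    congr!
  have h3 : (X.card : ℝ) * η ^ 2 ≤ 3 * S2 L x := by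
    calc (X.card : ℝ) * η ^ 2 = ∑ _f ∈ X, η ^ 2 := by rw [Finset.sum_const, nsmul_eq_mul]
      _ ≤ ∑ f ∈ X, (ee L x f + ee L x (sg ι f) + ee L x (sg ι (sg ι (τ f)))) := by
          refine Finset.sum_le_sum fun f hf => ?_
          simp only [hX, Finset.mem_filter, Finset.mem_univ, true_and] at hf
          refine le_trans ?_ (rho_sq hS hτ hf.1 hf.2.1)
          have := hf.2.2
          gcongr
      _ ≤ ∑ f, (ee L x f + ee L x (sg ι f) + ee L x (sg ι (sg ι (τ f)))) := by
          refine Finset.sum_le_sum_of_subset_of_nonneg (Finset.subset_univ _) fun f _ _ => ?_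
          have a := ee_nonneg L x f
          have b := ee_nonneg L x (sg ι f)
          have c := ee_nonneg L x (sg ι (sg ι (τ f)))
          linarith
      _ = 3 * S2 L x := by
          rw [Finset.sum_add_distrib, Finset.sum_add_distrib]
          have a : ∑ f, ee L x (sg ι f) = S2 L x := Equiv.sum_comp (sg ι) (ee L x)
          have b : ∑ f, ee L x (sg ι (sg ι (τ f))) = S2 L x := by
            have := Equiv.sum_comp (sg ι * sg ι * τ) (ee L x)
            exact this
          rw [a, b]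
          unfold S2
          ring
  have h4 : (X.card : ℝ) ≤ 3 * S2 L x / η ^ 2 := by
    rw [le_div_iff₀ (by positivity)]
    exact h3
  have h5 : (nA L x η : ℝ) ≤ (ndom L x + ndom L x) + X.card := by exact_mod_cast h2
  linarith

omit hS hτ in
/-- flags along which the translation is nearly constant -/
def S0 (L : Submodule ℤ ℂ) (x : ι → ℂ) (τ : Perm (ι × Fin 6)) (η : ℝ) (f : ι × Fin 6) : Prop :=
  Dom L x f ∧ ‖dd L x (τ f) - dd L x f‖ ≤ 3 * η

omit hS hτ in
def S1 (L : Submodule ℤ ℂ) (x : ι → ℂ) (τ : Perm (ι × Fin 6)) (η : ℝ) (f : ι × Fin 6) : Prop :=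
  S0 L x τ η (sg ι f) ∧ Aset L x η f ∧ Aset L x η (tgt (T (sg ι) τ (dd L x) 1) f)

omit hS in
theorem S0_of {η : ℝ} {f : ι × Fin 6} (h : Dom L x f) (a0 : Aset L x η (τ f))
    (a1 : Aset L x η (sg ι (τ f))) (a2 : Aset L x η (sg ι (sg ι (τ f)))) : S0 L x τ η f := by
  refine ⟨h, ?_⟩
  have hb := tau_back hτ h
  have e : dd L x (τ f) - dd L x f =
      (dd L x (sg ι (sg ι (sg ι (τ f)))) - om * dd L x (sg ι (sg ι (τ f)))) +
        om * (dd L x (sg ι (sg ι (τ f))) - om * dd L x (sg ι (τ f))) +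
          om ^ 2 * (dd L x (sg ι (τ f)) - om * dd L x (τ f)) := by
    rw [hb]
    linear_combination (dd L x (τ f)) * om_cube
  rw [e]
  have n1 := a0.2
  have n2 := a1.2
  have n3 := a2.2
  calc _ ≤ ‖dd L x (sg ι (sg ι (sg ι (τ f)))) - om * dd L x (sg ι (sg ι (τ f)))‖ +
        ‖om * (dd L x (sg ι (sg ι (τ f))) - om * dd L x (sg ι (τ f)))‖ +
        ‖om ^ 2 * (dd L x (sg ι (τ f)) - om * dd L x (τ f))‖ := norm_add₃_le
    _ ≤ η + η + η := by
        rw [norm_mul, norm_mul, norm_pow, norm_om, one_pow, one_mul, one_mul]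
        linarith
    _ = 3 * η := by ring

omit hS in
theorem card_not_S0 (η : ℝ) [DecidablePred (S0 L x τ η)] :
    (Finset.univ.filter fun f => ¬ S0 L x τ η f).card ≤ ndom L x + 3 * nA L x η := by
  classical
  have h1 : (Finset.univ.filter fun f => ¬ S0 L x τ η f) ⊆
      (Finset.univ.filter fun f => ¬ Dom L x f) ∪
      ((Finset.univ.filter fun f => ¬ Aset L x η (τ f)) ∪
      ((Finset.univ.filter fun f => ¬ Aset L x η ((sg ι * τ) f)) ∪
      (Finset.univ.filter fun f => ¬ Aset L x η ((sg ι * sg ι * τ) f)))) := by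
    intro f hf
    simp only [Finset.mem_filter, Finset.mem_univ, true_and, Finset.mem_union] at hf ⊢
    by_contra hcon
    push Not at hcon
    exact hf (S0_of hτ hcon.1 hcon.2.1 hcon.2.2.1 hcon.2.2.2)
  refine (Finset.card_le_card h1).trans ?_
  refine (Finset.card_union_le _ _).trans ?_
  have e0 : (Finset.univ.filter fun f => ¬ Dom L x f).card = ndom L x := by
    unfold ndom; congr!
  have e1 : ∀ p : Perm (ι × Fin 6), (Finset.univ.filter fun f => ¬ Aset L x η (p f)).card =
      nA L x η := by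
    intro p
    rw [card_comp_perm p fun f => ¬ Aset L x η f]
    unfold nA; congr!
  have e2 := Finset.card_union_le (Finset.univ.filter fun f => ¬ Aset L x η (τ f))
    ((Finset.univ.filter fun f => ¬ Aset L x η ((sg ι * τ) f)) ∪
      (Finset.univ.filter fun f => ¬ Aset L x η ((sg ι * sg ι * τ) f)))
  have e3 := Finset.card_union_le (Finset.univ.filter fun f => ¬ Aset L x η ((sg ι * τ) f))
      (Finset.univ.filter fun f => ¬ Aset L x η ((sg ι * sg ι * τ) f))
  rw [e1] at e2 e3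
  rw [e1] at e3
  rw [e0]
  omega

omit hS in
theorem card_not_S1 (η : ℝ) [DecidablePred (S1 L x τ η)] :
    (Finset.univ.filter fun f => ¬ S1 L x τ η f).card ≤ ndom L x + 5 * nA L x η := by
  classical
  set p := tgtPerm (T_mem (sg ι) τ (dd L x) 1) with hp
  have h1 : (Finset.univ.filter fun f => ¬ S1 L x τ η f) ⊆
      (Finset.univ.filter fun f => ¬ S0 L x τ η (sg ι f)) ∪
      ((Finset.univ.filter fun f => ¬ Aset L x η f) ∪
      (Finset.univ.filter fun f => ¬ Aset L x η (p f))) := by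
    intro f hf
    simp only [Finset.mem_filter, Finset.mem_univ, true_and, Finset.mem_union] at hf ⊢
    by_contra hcon
    push Not at hcon
    exact hf ⟨hcon.1, hcon.2.1, hcon.2.2⟩
  refine (Finset.card_le_card h1).trans ?_
  refine (Finset.card_union_le _ _).trans ?_
  have e0 := card_not_S0 hτ η (L := L) (x := x)
  have e1 : (Finset.univ.filter fun f => ¬ Aset L x η (p f)).card = nA L x η := by
    rw [card_comp_perm p fun f => ¬ Aset L x η f]
    unfold nA; congr!
  have e1' : (Finset.univ.filter fun f => ¬ Aset L x η f).card = nA L x η := by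
    unfold nA; congr!
  have e2 := Finset.card_union_le (Finset.univ.filter fun f => ¬ Aset L x η f)
      (Finset.univ.filter fun f => ¬ Aset L x η (p f))
  rw [card_comp_perm (sg ι) fun f => ¬ S0 L x τ η f]
  rw [e1, e1'] at e2
  omega

omit hS hτ in
/-- regular flags for the word `(m, n)` -/
def Reg (L : Submodule ℤ ℂ) (x : ι → ℂ) (τ : Perm (ι × Fin 6)) (η : ℝ) (m n : ℕ)
    (f : ι × Fin 6) : Prop :=
  (∀ a < m, S0 L x τ η (tgt (T (sg ι) τ (dd L x) 0 ^ a) f)) ∧
  (∀ b < n, S1 L x τ η (tgt (V (sg ι) τ (dd L x) m b) f)) ∧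
  ∀ j < 6, Aset L x η ((sg ι ^ j) f)

omit hS in
theorem card_not_Reg (η : ℝ) (m n : ℕ) [DecidablePred (Reg L x τ η m n)] :
    (Finset.univ.filter fun f => ¬ Reg L x τ η m n f).card ≤
      (m + n) * (ndom L x + 5 * nA L x η) + 6 * nA L x η := by
  classical
  have h1 : (Finset.univ.filter fun f => ¬ Reg L x τ η m n f) ⊆
      ((Finset.range m).biUnion fun a => Finset.univ.filter fun f =>
        ¬ S0 L x τ η (tgtPerm ((Gam _).pow_mem (T_mem (sg ι) τ (dd L x) 0) a) f)) ∪
      (((Finset.range n).biUnion fun b => Finset.univ.filter fun f =>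
        ¬ S1 L x τ η (tgtPerm (V_mem (sg ι) τ (dd L x) m b) f)) ∪
      ((Finset.range 6).biUnion fun j => Finset.univ.filter fun f =>
        ¬ Aset L x η ((sg ι ^ j) f))) := by
    intro f hf
    simp only [Finset.mem_filter, Finset.mem_univ, true_and, Finset.mem_union,
      Finset.mem_biUnion, Finset.mem_range] at hf ⊢
    by_contra hcon
    push Not at hcon
    exact hf ⟨hcon.1, hcon.2.1, hcon.2.2⟩
  refine (Finset.card_le_card h1).trans ?_
  have e1 : ((Finset.range m).biUnion fun a => Finset.univ.filter fun f =>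
        ¬ S0 L x τ η (tgtPerm ((Gam _).pow_mem (T_mem (sg ι) τ (dd L x) 0) a) f)).card ≤
      m * (ndom L x + 3 * nA L x η) := by
    refine Finset.card_biUnion_le.trans ?_
    calc _ ≤ ∑ _a ∈ Finset.range m, (ndom L x + 3 * nA L x η) := by
          refine Finset.sum_le_sum fun a _ => ?_
          rw [card_comp_perm _ fun f => ¬ S0 L x τ η f]
          exact card_not_S0 hτ η
      _ = _ := by rw [Finset.sum_const, Finset.card_range, smul_eq_mul]
  have e2 : ((Finset.range n).biUnion fun b => Finset.univ.filter fun f =>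
        ¬ S1 L x τ η (tgtPerm (V_mem (sg ι) τ (dd L x) m b) f)).card ≤
      n * (ndom L x + 5 * nA L x η) := by
    refine Finset.card_biUnion_le.trans ?_
    calc _ ≤ ∑ _a ∈ Finset.range n, (ndom L x + 5 * nA L x η) := by
          refine Finset.sum_le_sum fun a _ => ?_
          rw [card_comp_perm _ fun f => ¬ S1 L x τ η f]
          exact card_not_S1 hτ η
      _ = _ := by rw [Finset.sum_const, Finset.card_range, smul_eq_mul]
  have e3 : ((Finset.range 6).biUnion fun j => Finset.univ.filter fun f =>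
        ¬ Aset L x η ((sg ι ^ j) f)).card ≤ 6 * nA L x η := by
    refine Finset.card_biUnion_le.trans ?_
    calc _ ≤ ∑ _a ∈ Finset.range 6, nA L x η := by
          refine Finset.sum_le_sum fun a _ => ?_
          rw [card_comp_perm _ fun f => ¬ Aset L x η f]
          unfold nA
          apply le_of_eq; congr!
      _ = _ := by rw [Finset.sum_const, Finset.card_range, smul_eq_mul]
  refine (Finset.card_union_le _ _).trans ?_
  have e4 := Finset.card_union_le ((Finset.range n).biUnion fun b => Finset.univ.filter fun f =>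
        ¬ S1 L x τ η (tgtPerm (V_mem (sg ι) τ (dd L x) m b) f))
      ((Finset.range 6).biUnion fun j => Finset.univ.filter fun f =>
        ¬ Aset L x η ((sg ι ^ j) f))
  have e5 : m * (ndom L x + 3 * nA L x η) ≤ m * (ndom L x + 5 * nA L x η) :=
    Nat.mul_le_mul_left _ (by omega)
  have e6 : (m + n) * (ndom L x + 5 * nA L x η) = m * (ndom L x + 5 * nA L x η) +
      n * (ndom L x + 5 * nA L x η) := by ring
  omega

omit hS in
/-- the number of irregular flags -/
theorem card_irr (hS : Sep L x) {Z : ι → Finset ℂ}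
    (hZ : ∀ i z, z ∈ Z i ↔ z ∈ Vec L x i ∧ z ≠ 0 ∧ ‖z‖ < 2) {m n : ℕ} (hmn : 1 ≤ m + n)
    {η : ℝ} (hη : η = 1 / (100 * ((m + n : ℕ) : ℝ) ^ 2)) [DecidablePred (Reg L x τ η m n)] :
    ((Finset.univ.filter fun f => ¬ Reg L x τ η m n f).card : ℝ) ≤
      330000 * ((m + n : ℕ) : ℝ) ^ 5 * (nbad L x + S2 L x) := by
  set S : ℝ := ((m + n : ℕ) : ℝ) with hSdef
  have hS1 : 1 ≤ S := by rw [hSdef]; exact_mod_cast hmn
  have hη0 : 0 < η := by rw [hη]; positivity
  have h1 : ((Finset.univ.filter fun f => ¬ Reg L x τ η m n f).card : ℝ) ≤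
      S * (ndom L x + 5 * nA L x η) + 6 * nA L x η := by
    rw [hSdef]
    exact_mod_cast card_not_Reg hτ η m n
  have h2 := nA_le hS hτ hη0
  have h3 : 3 * S2 L x / η ^ 2 = 30000 * S ^ 4 * S2 L x := by
    rw [hη]
    field_simp
    ring
  rw [h3] at h2
  have h4 : (ndom L x : ℝ) ≤ 12 * nbad L x := by exact_mod_cast ndom_le hS hZ
  have hS2 := S2_nonneg L x
  have hb : (0:ℝ) ≤ nbad L x := by positivity
  have hd : (0:ℝ) ≤ ndom L x := by positivity
  have h5 : S * (ndom L x + 5 * nA L x η) + 6 * nA L x η ≤ S * ndom L x + 11 * S * nA L x η := by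
    have : (0:ℝ) ≤ nA L x η := by positivity
    nlinarith
  have h6 : 11 * S * (nA L x η : ℝ) ≤ 11 * S * (2 * ndom L x + 30000 * S ^ 4 * S2 L x) := by
    gcongr
  have h7 : S * (ndom L x : ℝ) + 11 * S * (2 * ndom L x + 30000 * S ^ 4 * S2 L x) =
      23 * S * ndom L x + 330000 * S ^ 5 * S2 L x := by ring
  have h8 : 23 * S * (ndom L x : ℝ) ≤ 23 * S * (12 * nbad L x) := by gcongr
  have h9 : S ≤ S ^ 5 := by
    calc S = S ^ 1 := by ring
      _ ≤ S ^ 5 := pow_le_pow_right₀ hS1 (by norm_num)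
  have h10 : 23 * S * (12 * (nbad L x : ℝ)) ≤ 330000 * S ^ 5 * nbad L x := by
    have : S * (nbad L x : ℝ) ≤ S ^ 5 * nbad L x := by gcongr
    nlinarith [mul_nonneg (by linarith : (0:ℝ) ≤ S) hb]
  calc _ ≤ _ := h1
    _ ≤ _ := h5
    _ ≤ 330000 * S ^ 5 * (nbad L x + S2 L x) := by linarith

omit hS in
/-- **Path lemma**, first direction. -/
theorem path0 {η : ℝ} {f : ι × Fin 6} (hη : 0 ≤ η) (m : ℕ)
    (h : ∀ a < m, S0 L x τ η (tgt (T (sg ι) τ (dd L x) 0 ^ a) f)) :
    ‖dd L x (tgt (T (sg ι) τ (dd L x) 0 ^ m) f) - dd L x f‖ ≤ 3 * η * m ∧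
    ‖dsp (T (sg ι) τ (dd L x) 0 ^ m) f - m * dd L x f‖ ≤ 3 * η * m ^ 2 ∧
    dsp (T (sg ι) τ (dd L x) 0 ^ m) f -
      (x (tgt (T (sg ι) τ (dd L x) 0 ^ m) f).1 - x f.1) ∈ L := by
  induction m with
  | zero =>
    simp only [pow_zero, tgt_one, dsp_one, Nat.cast_zero, zero_mul, sub_self, norm_zero, mul_zero,
      le_refl, true_and]
    norm_num
  | succ m ih =>
    obtain ⟨i1, i2, i3⟩ := ih fun a ha => h a (by omega)
    set g := tgt (T (sg ι) τ (dd L x) 0 ^ m) f with hg
    obtain ⟨hD, hn⟩ := h m (by omega)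
    rw [← hg] at hD hn
    have hT := T_mem (sg ι) τ (dd L x) 0
    have e1 : tgt (T (sg ι) τ (dd L x) 0 ^ (m + 1)) f = τ g := by
      rw [pow_succ', tgt_mul hT, ← hg]
      unfold T
      rw [tgt_mk]
      simp
    have e2 : dsp (T (sg ι) τ (dd L x) 0 ^ (m + 1)) f =
        dd L x g + dsp (T (sg ι) τ (dd L x) 0 ^ m) f := by
      rw [pow_succ', dsp_mul hT, ← hg]
      congr 1
      unfold T
      rw [dsp_mk]
      simp
    rw [e1, e2]
    refine ⟨?_, ?_, ?_⟩
    · have : dd L x (τ g) - dd L x f = (dd L x (τ g) - dd L x g) + (dd L x g - dd L x f) := by ring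
      rw [this]
      refine (norm_add_le _ _).trans ?_
      push_cast
      linarith
    · have : dd L x g + dsp (T (sg ι) τ (dd L x) 0 ^ m) f - ((m + 1 : ℕ) : ℂ) * dd L x f =
          (dd L x g - dd L x f) + (dsp (T (sg ι) τ (dd L x) 0 ^ m) f - m * dd L x f) := by
        push_cast; ring
      rw [this]
      refine (norm_add_le _ _).trans ?_
      push_cast
      nlinarith [mul_nonneg hη (Nat.cast_nonneg (α := ℝ) m)]
    · have hh := tc_spec hD.1
      rw [← tau_fst hτ hD] at hh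
      have : dd L x g + dsp (T (sg ι) τ (dd L x) 0 ^ m) f - (x (τ g).1 - x f.1) =
          (dd L x g - (x (τ g).1 - x g.1)) +
            (dsp (T (sg ι) τ (dd L x) 0 ^ m) f - (x g.1 - x f.1)) := by ring
      rw [this]
      exact L.add_mem hh i3

omit hS in
/-- **Path lemma.** -/
theorem path {η : ℝ} {f : ι × Fin 6} (hη : 0 ≤ η) (m n : ℕ)
    (h0 : ∀ a < m, S0 L x τ η (tgt (T (sg ι) τ (dd L x) 0 ^ a) f))
    (h1 : ∀ b < n, S1 L x τ η (tgt (V (sg ι) τ (dd L x) m b) f)) :
    ‖dd L x (tgt (V (sg ι) τ (dd L x) m n) f) - dd L x f‖ ≤ 3 * η * m + 5 * η * n ∧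
    ‖dsp (V (sg ι) τ (dd L x) m n) f - (m + n * om) * dd L x f‖ ≤ 6 * η * (m + n) ^ 2 ∧
    dsp (V (sg ι) τ (dd L x) m n) f -
      (x (tgt (V (sg ι) τ (dd L x) m n) f).1 - x f.1) ∈ L := by
  induction n with
  | zero =>
    obtain ⟨i1, i2, i3⟩ := path0 hτ hη m h0
    have e : V (sg ι) τ (dd L x) m 0 = T (sg ι) τ (dd L x) 0 ^ m := by simp [V]
    rw [e]
    refine ⟨by simpa using i1, ?_, i3⟩
    simp only [Nat.cast_zero, zero_mul, add_zero]
    have : 0 ≤ η * (m:ℝ) ^ 2 := by positivity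
    linarith
  | succ n ih =>
    obtain ⟨i1, i2, i3⟩ := ih fun b hb => h1 b (by omega)
    set g := tgt (V (sg ι) τ (dd L x) m n) f with hg
    obtain ⟨⟨hD, hn⟩, hA1, hA2⟩ := h1 n (by omega)
    rw [← hg] at hD hn hA1 hA2
    have hT := T_mem (sg ι) τ (dd L x) 1
    have e1 : tgt (V (sg ι) τ (dd L x) m (n + 1)) f = tgt (T (sg ι) τ (dd L x) 1) g := by
      rw [V_step1, tgt_mul hT, ← hg]
    have e2 : dsp (V (sg ι) τ (dd L x) m (n + 1)) f =
        dd L x (sg ι g) + dsp (V (sg ι) τ (dd L x) m n) f := by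
      rw [V_step1, dsp_mul hT, ← hg]
      congr 1
      unfold T
      rw [dsp_mk]
      simp
    set k := tgt (T (sg ι) τ (dd L x) 1) g with hk
    have e3 : sg ι k = τ (sg ι g) := by
      rw [hk]
      unfold T
      rw [tgt_mk]
      simp [Equiv.Perm.mul_apply]
    have e4 : k.1 = (τ (sg ι g)).1 := by rw [← e3, sg_apply]
    rw [e1, e2]
    have hAg := hA1.2
    have hAk := hA2.2
    rw [e3] at hAk
    refine ⟨?_, ?_, ?_⟩
    · have h5 : ‖dd L x k - dd L x g‖ ≤ 5 * η := by
        have : om * (dd L x k - dd L x g) = -(dd L x (τ (sg ι g)) - om * dd L x k) +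
            (dd L x (τ (sg ι g)) - dd L x (sg ι g)) + (dd L x (sg ι g) - om * dd L x g) := by ring
        have h6 : ‖om * (dd L x k - dd L x g)‖ = ‖dd L x k - dd L x g‖ := by
          rw [norm_mul, norm_om, one_mul]
        rw [← h6, this]
        refine norm_add₃_le.trans ?_
        rw [norm_neg]
        linarith
      have : dd L x k - dd L x f = (dd L x k - dd L x g) + (dd L x g - dd L x f) := by ring
      rw [this]
      refine (norm_add_le _ _).trans ?_
      push_cast
      linarith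
    · have : dd L x (sg ι g) + dsp (V (sg ι) τ (dd L x) m n) f -
          ((m:ℂ) + ((n + 1 : ℕ) : ℂ) * om) * dd L x f =
          (dd L x (sg ι g) - om * dd L x g) + om * (dd L x g - dd L x f) +
            (dsp (V (sg ι) τ (dd L x) m n) f - (m + n * om) * dd L x f) := by
        push_cast; ring
      rw [this]
      refine norm_add₃_le.trans ?_
      rw [norm_mul, norm_om, one_mul]
      push_cast
      have hm0 : 0 ≤ η * (m:ℝ) := by positivity
      have hn0 : 0 ≤ η * (n:ℝ) := by positivity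
      nlinarith
    · have hh := tc_spec hD.1
      rw [← tau_fst hτ hD, ← e4] at hh
      have hfst : (sg ι g).1 = g.1 := rfl
      rw [hfst] at hh
      have : dd L x (sg ι g) + dsp (V (sg ι) τ (dd L x) m n) f - (x k.1 - x f.1) =
          (dd L x (sg ι g) - (x k.1 - x g.1)) +
            (dsp (V (sg ι) τ (dd L x) m n) f - (x g.1 - x f.1)) := by ring
      rw [this]
      exact L.add_mem hh i3

end

end Pool.Agent.H96.UO
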