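import Pool.Agent.H96.UO.Flags

/-!
# Steep universal optimality: the relations of the translations of flags
-/

set_option autoImplicit false
set_option linter.unusedSectionVars false

open Real Set
open Equiv (Perm)

namespace Pool.Agent.H96.UO

section

variable {ι : Type*} [Fintype ι] [DecidableEq ι] {L : Submodule ℤ ℂ} {x : ι → ℂ}

open Classical in
/-- number of bad points -/
noncomputable def nbad (L : Submodule ℤ ℂ) (x : ι → ℂ) : ℕ :=
  (Finset.univ.filter fun i : ι => ¬ gd L x i).card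

open Classical in
/-- number of flags outside the domain -/
noncomputable def ndom (L : Submodule ℤ ℂ) (x : ι → ℂ) : ℕ :=
  (Finset.univ.filter fun f : ι × Fin 6 => ¬ Dom L x f).card

variable (hS : Sep L x) {Z : ι → Finset ℂ}
  (hZ : ∀ i z, z ∈ Z i ↔ z ∈ Vec L x i ∧ z ≠ 0 ∧ ‖z‖ < 2)

include hS hZ

theorem Z_low {i : ι} : ∀ z ∈ Z i, 17 / 10 ≤ ‖z‖ := fun z hz =>
  hS.sep i z ((hZ i z).mp hz).1 ((hZ i z).mp hz).2.1

theorem Z_high {i : ι} : ∀ z ∈ Z i, ‖z‖ < 2 := fun z hz => ((hZ i z).mp hz).2.2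

theorem Z_sep {i : ι} : ∀ z ∈ Z i, ∀ w ∈ Z i, z ≠ w → 17 / 10 ≤ ‖z - w‖ := by
  intro z hz w hw hne
  by_contra hcon
  push Not at hcon
  exact hne (hS.eq_of_near ((hZ i z).mp hz).1 ((hZ i w).mp hw).1 hcon)

theorem ndom_le : ndom L x ≤ 12 * nbad L x := by
  classical
  unfold ndom
  set Bd := Finset.univ.filter fun i : ι => ¬ gd L x i with hBd
  have h1 : (Finset.univ.filter fun f : ι × Fin 6 => ¬ Dom L x f) ⊆
      (Bd ×ˢ (Finset.univ : Finset (Fin 6))) ∪
        (Finset.univ.filter fun f : ι × Fin 6 => gd L x f.1 ∧ ¬ gd L x (tc L x f)) := by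
    intro f hf
    simp only [Finset.mem_filter, Finset.mem_univ, true_and, Dom, not_and] at hf
    simp only [Finset.mem_union, Finset.mem_product, Finset.mem_univ, and_true, hBd,
      Finset.mem_filter, true_and]
    by_cases h : gd L x f.1
    · right; exact ⟨h, hf h⟩
    · left; exact h
  have h2 : (Bd ×ˢ (Finset.univ : Finset (Fin 6))).card = 6 * nbad L x := by
    rw [Finset.card_product, Finset.card_univ, Fintype.card_fin, mul_comm, hBd]
    rfl
  have h3 : (Finset.univ.filter fun f : ι × Fin 6 => gd L x f.1 ∧ ¬ gd L x (tc L x f)).card ≤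
      6 * nbad L x := by
    set S : Finset (Σ _ : ι, ℂ) := Bd.sigma fun j => (Z j).filter fun z => ‖z‖ < 19 / 10 with hSg
    have hSc : S.card ≤ 6 * nbad L x := by
      rw [hSg, Finset.card_sigma]
      calc ∑ j ∈ Bd, ((Z j).filter fun z => ‖z‖ < 19 / 10).card ≤ ∑ _j ∈ Bd, 6 :=
            Finset.sum_le_sum fun j _ =>
              inner_card_le (Z_low hS hZ) (Z_high hS hZ) (Z_sep hS hZ)
        _ = 6 * nbad L x := by
            rw [Finset.sum_const, smul_eq_mul, mul_comm, hBd]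
            rfl
    refine le_trans ?_ hSc
    refine Finset.card_le_card_of_injOn (fun f => ⟨tc L x f, -dd L x f⟩) ?_ ?_
    · intro f hf
      simp only [Finset.coe_filter, Finset.mem_univ, true_and, mem_ofPred_eq] at hf
      obtain ⟨b1, b2⟩ := norm_dd_bounds hf.1
      simp only [hSg, Finset.coe_sigma, Set.mem_sigma_iff, Finset.mem_coe, hBd, Finset.mem_filter,
        Finset.mem_univ, true_and, norm_neg]
      refine ⟨hf.2, (hZ _ _).mpr ⟨vec_neg (tc_spec hf.1), ?_, ?_⟩, ?_⟩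
      · rw [neg_ne_zero, ← norm_pos_iff]; linarith
      · rw [norm_neg]; linarith
      · linarith
    · intro f hf f' hf' he
      simp only [Finset.coe_filter, Finset.mem_univ, true_and, mem_ofPred_eq] at hf hf'
      simp only [Sigma.mk.injEq, heq_eq_eq, neg_inj] at he
      obtain ⟨e1, e2⟩ := he
      have e3 : f.1 = f'.1 := by
        apply hS.inj
        have a := tc_spec hf.1
        have b := tc_spec hf'.1
        have : x f.1 - x f'.1 = (dd L x f - (x (tc L x f) - x f.1)) -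
            (dd L x f' - (x (tc L x f') - x f'.1)) * 1 - 0 - (dd L x f - dd L x f') -
              (x (tc L x f') - x (tc L x f)) := by ring
        rw [this, e1, e2]
        simp only [sub_self, sub_zero, mul_one]
        rw [e1, e2] at a
        exact L.sub_mem a b
      refine Prod.ext e3 ?_
      refine dd_inj hf.1 (k := f.2) (l := f'.2) ?_
      have e4 : (f.1, f'.2) = f' := by rw [e3]
      rw [e4]
      exact e2
  calc _ ≤ _ := Finset.card_le_card h1
    _ ≤ _ := Finset.card_union_le _ _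
    _ ≤ 6 * nbad L x + 6 * nbad L x := Nat.add_le_add h2.le h3
    _ = 12 * nbad L x := by ring

omit hS hZ in
theorem card_comp_perm (p : Perm (ι × Fin 6)) (Q : ι × Fin 6 → Prop) [DecidablePred Q] :
    (Finset.univ.filter fun f => Q (p f)).card = (Finset.univ.filter Q).card := by
  refine Finset.card_bij (fun f _ => p f) ?_ ?_ ?_
  · intro f hf
    simpa using hf
  · intro f _ f' _ h
    exact p.injective h
  · intro f hf
    refine ⟨p.symm f, ?_, by simp⟩
    simpa using hf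

omit hZ in
theorem rel_one {τ : Perm (ι × Fin 6)} (hτ : ∀ f, Dom L x f → τ f = nx L x f) :
    ham (T (sg ι) τ (dd L x) 2 * T (sg ι) τ (dd L x) 0) (T (sg ι) τ (dd L x) 1) ≤ 2 * ndom L x := by
  classical
  unfold ham
  have h1 : (Finset.univ.filter fun f : ι × Fin 6 =>
      (T (sg ι) τ (dd L x) 2 * T (sg ι) τ (dd L x) 0) (f, 0) ≠ T (sg ι) τ (dd L x) 1 (f, 0)) ⊆
      (Finset.univ.filter fun f : ι × Fin 6 => ¬ Dom L x f) ∪
        (Finset.univ.filter fun f : ι × Fin 6 => ¬ Dom L x (sg ι f)) := by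
    intro f hf
    simp only [Finset.mem_filter, Finset.mem_univ, true_and] at hf
    simp only [Finset.mem_union, Finset.mem_filter, Finset.mem_univ, true_and]
    by_contra hcon
    push Not at hcon
    apply hf
    obtain ⟨e1, -, e2⟩ := tau_triangle hS hτ hcon.1 hcon.2
    rw [mul_zero_apply (T_mem _ _ _ _)]
    unfold T
    rw [tgt_mk, dsp_mk, tgt_mk, dsp_mk]
    refine Prod.ext ?_ ?_
    · show (sg ι ^ (-2:ℤ) * τ * sg ι ^ (2:ℤ)) ((sg ι ^ (-0:ℤ) * τ * sg ι ^ (0:ℤ)) f) =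
        (sg ι ^ (-1:ℤ) * τ * sg ι ^ (1:ℤ)) f
      have a1 : (sg ι ^ (-0:ℤ) * τ * sg ι ^ (0:ℤ)) f = τ f := by simp
      have a2 : ∀ g, (sg ι ^ (-2:ℤ) * τ * sg ι ^ (2:ℤ)) g = (sg ι)⁻¹ ((sg ι)⁻¹ (τ (sg ι (sg ι g)))) := by
        intro g
        have : sg ι ^ (2:ℤ) = sg ι * sg ι := by
          rw [show (2:ℤ) = 1 + 1 by norm_num, zpow_add, zpow_one]
        have b : sg ι ^ (-2:ℤ) = (sg ι)⁻¹ * (sg ι)⁻¹ := by
          rw [zpow_neg, this, mul_inv_rev]
        rw [this, b]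
        rfl
      have a3 : (sg ι ^ (-1:ℤ) * τ * sg ι ^ (1:ℤ)) f = (sg ι)⁻¹ (τ (sg ι f)) := by
        rw [zpow_neg, zpow_one]; rfl
      rw [a1, a2, a3, e2]
      simp
    · show dd L x ((sg ι ^ (2:ℤ)) ((sg ι ^ (-0:ℤ) * τ * sg ι ^ (0:ℤ)) f)) +
        dd L x ((sg ι ^ (0:ℤ)) f) = dd L x ((sg ι ^ (1:ℤ)) f) + 0
      have a1 : (sg ι ^ (-0:ℤ) * τ * sg ι ^ (0:ℤ)) f = τ f := by simp
      have : sg ι ^ (2:ℤ) = sg ι * sg ι := by
        rw [show (2:ℤ) = 1 + 1 by norm_num, zpow_add, zpow_one]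
      rw [a1, this, zpow_one, zpow_zero, add_zero]
      exact e1
  refine (Finset.card_le_card h1).trans ((Finset.card_union_le _ _).trans ?_)
  rw [card_comp_perm (sg ι) fun f => ¬ Dom L x f, two_mul]
  unfold ndom
  apply le_of_eq
  congr! 2

omit hZ in
theorem rel_two {τ : Perm (ι × Fin 6)} (hτ : ∀ f, Dom L x f → τ f = nx L x f) :
    ham (T (sg ι) τ (dd L x) 3 * T (sg ι) τ (dd L x) 0) 1 ≤ 2 * ndom L x := by
  classical
  unfold ham
  have h1 : (Finset.univ.filter fun f : ι × Fin 6 =>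
      (T (sg ι) τ (dd L x) 3 * T (sg ι) τ (dd L x) 0) (f, 0) ≠
        (1 : Perm ((ι × Fin 6) × ℂ)) (f, 0)) ⊆
      (Finset.univ.filter fun f : ι × Fin 6 => ¬ Dom L x f) := by
    intro f hf
    simp only [Finset.mem_filter, Finset.mem_univ, true_and] at hf ⊢
    intro hD
    apply hf
    obtain ⟨-, e2⟩ := tau_back_dom hS hτ hD
    have e1 := tau_back hτ hD
    rw [mul_zero_apply (T_mem _ _ _ _)]
    unfold T
    rw [tgt_mk, dsp_mk, tgt_mk, dsp_mk]
    have hz3 : sg ι ^ (3:ℤ) = sg ι * sg ι * sg ι := by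
      rw [show (3:ℤ) = 1 + 1 + 1 by norm_num, zpow_add, zpow_add, zpow_one]
    have a1 : (sg ι ^ (-0:ℤ) * τ * sg ι ^ (0:ℤ)) f = τ f := by simp
    refine Prod.ext ?_ ?_
    · show (sg ι ^ (-3:ℤ) * τ * sg ι ^ (3:ℤ)) ((sg ι ^ (-0:ℤ) * τ * sg ι ^ (0:ℤ)) f) = f
      have a2 : ∀ g, (sg ι ^ (-3:ℤ) * τ * sg ι ^ (3:ℤ)) g =
          (sg ι * sg ι * sg ι)⁻¹ (τ (sg ι (sg ι (sg ι g)))) := by
        intro g
        rw [zpow_neg, hz3]
        rfl
      rw [a1, a2, e2, Equiv.Perm.inv_eq_iff_eq]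
      rfl
    · show dd L x ((sg ι ^ (3:ℤ)) ((sg ι ^ (-0:ℤ) * τ * sg ι ^ (0:ℤ)) f)) +
        dd L x ((sg ι ^ (0:ℤ)) f) = 0
      rw [a1, hz3, zpow_zero]
      show dd L x (sg ι (sg ι (sg ι (τ f)))) + dd L x f = 0
      rw [e1]
      ring
  refine (Finset.card_le_card h1).trans ?_
  unfold ndom
  rw [two_mul]
  refine le_trans (le_of_eq ?_) (Nat.le_add_right _ _)
  congr!

end

end Pool.Agent.H96.UO
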