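import Pool.Agent.H96.UO.Final

/-!
# Periodic Riesz energies in the plane, `s ≥ 400`
-/

set_option autoImplicit false
set_option linter.unusedSectionVars false

open Real Set Filter Topology
open scoped ENNReal

namespace Pool.Agent.H96.UO

open Classical in
/-- the periodic Riesz kernel `K_s^p` of the plane for `s > 2`, as a function of `z = x - y` -/
noncomputable def Kp (s : ℝ) (L : Submodule ℤ ℂ) (z : ℂ) : EReal :=
  if z ∈ L then ⊤ else
    ((∑' v : L, ‖z + v‖ ^ (-s) - 2 * π / (Real.Gamma (s / 2) * (s - 2)) : ℝ) : EReal)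

/-- the periodic Riesz energy `E_s^p` of an `N`-point configuration -/
noncomputable def Ep (s : ℝ) (L : Submodule ℤ ℂ) {N : ℕ} (x : Fin N → ℂ) : EReal :=
  ∑ i, ∑ j, if i = j then 0 else Kp s L (x i - x j)

/-- the minimal periodic Riesz energy of `N` points in `Ω` -/
noncomputable def EpMin (s : ℝ) (L : Submodule ℤ ℂ) (Ω : Set ℂ) (N : ℕ) : EReal :=
  ⨅ x : Fin N → Ω, Ep s L (fun i => (x i : ℂ))

/-- `ζ_Λ (s) = ∑ |v| ^ (-s)`, the sum over the nonzero vectors of the lattice `Λ` -/
noncomputable def zetaL (s : ℝ) (L : Submodule ℤ ℂ) : ℝ :=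
  ∑' v : {v : L // v ≠ 0}, ‖(v : L)‖ ^ (-s)

section

variable {L : Submodule ℤ ℂ} [DiscreteTopology L] [IsZLattice ℝ L]

theorem finrank_L : Module.finrank ℤ L = 2 := by
  rw [ZLattice.rank ℝ L, Complex.finrank_real_complex]

theorem summable_shift {s : ℝ} (hs : 2 < s) (z : ℂ) : Summable fun v : L => ‖z + v‖ ^ (-s) := by
  have := ZLattice.summable_norm_sub_rpow L (-s) (by rw [finrank_L]; push_cast; linarith) (-z)
  refine this.congr fun v => ?_
  rw [sub_neg_eq_add, add_comm]

theorem summable_zeta {s : ℝ} (hs : 2 < s) : Summable fun v : {v : L // v ≠ 0} => ‖(v : L)‖ ^ (-s) := by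
  have h := ZLattice.summable_norm_rpow L (-s) (by rw [finrank_L]; push_cast; linarith)
  exact h.comp_injective Subtype.val_injective

/-- the real pair energy -/
noncomputable def pairE (s : ℝ) (L : Submodule ℤ ℂ) (z : ℂ) : ℝ := ∑' v : L, ‖z + v‖ ^ (-s)

theorem pow_eq (s : ℝ) (z : ℂ) : (‖z‖ ^ 2) ^ (-s / 2) = ‖z‖ ^ (-s) := by
  rw [← rpow_natCast, ← rpow_mul (norm_nonneg z)]
  congr 1
  push_cast
  ring

open Classical in
theorem ennreal_pair {s : ℝ} (hs : 2 < s) {z : ℂ} (hz : z ∉ L) :
    ∑' v : L, (if z + v = 0 then 0 else ENNReal.ofReal ((‖z + v‖ ^ 2) ^ (-s / 2))) =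
      ENNReal.ofReal (pairE s L z) := by
  unfold pairE
  rw [ENNReal.ofReal_tsum_of_nonneg (fun v => by positivity) (summable_shift hs z)]
  refine tsum_congr fun v => ?_
  rw [if_neg, pow_eq]
  intro h
  apply hz
  have : z = -(v : ℂ) := by linear_combination h
  rw [this]
  exact L.neg_mem v.2

open Classical in
theorem ennreal_self {s : ℝ} (hs : 2 < s) :
    ∑' v : L, (if (0:ℂ) + v = 0 then 0 else ENNReal.ofReal ((‖(0:ℂ) + v‖ ^ 2) ^ (-s / 2))) =
      ENNReal.ofReal (zetaL s L) := by
  unfold zetaL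
  rw [ENNReal.ofReal_tsum_of_nonneg (fun v => by positivity) (summable_zeta hs)]
  have h1 := tsum_subtype {v : L | v ≠ 0} fun v : L => ENNReal.ofReal (‖(v : L)‖ ^ (-s))
  have h2 : (∑' v : {v : L // v ≠ 0}, ENNReal.ofReal (‖(v : L)‖ ^ (-s))) =
      ∑' v : ({v : L | v ≠ 0} : Set L), ENNReal.ofReal (‖(v : L)‖ ^ (-s)) := rfl
  rw [h2, h1]
  refine tsum_congr fun v => ?_
  by_cases h0 : v = 0
  · rw [if_pos (by rw [h0]; simp), Set.indicator_of_notMem (by simpa using h0)]
  · rw [if_neg (by simpa using h0), Set.indicator_of_mem (by simpa using h0), zero_add, pow_eq]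
    rfl

end


/-! ### the hexagonal lattice of covolume one -/

/-- the length of the shortest vectors of the hexagonal lattice of covolume `1` -/
noncomputable def h2 : ℝ := √(2 / √3)

theorem h2_sq : h2 ^ 2 = 2 / √3 := sq_sqrt (by positivity)

theorem h2_pos : 0 < h2 := by unfold h2; positivity

theorem h2_ne : (h2 : ℂ) ≠ 0 := by exact_mod_cast h2_pos.ne'

/-- the hexagonal lattice of covolume `1` -/
noncomputable def V2 : Submodule ℤ ℂ := Submodule.span ℤ {(h2 : ℂ), (h2 : ℂ) * om}

theorem mem_V2 {z : ℂ} : z ∈ V2 ↔ ∃ a b : ℤ, z = h2 * (a + b * om) := by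
  unfold V2
  rw [Submodule.mem_span_pair]
  constructor
  · rintro ⟨a, b, rfl⟩
    refine ⟨a, b, ?_⟩
    simp only [zsmul_eq_mul]
    ring
  · rintro ⟨a, b, rfl⟩
    refine ⟨a, b, ?_⟩
    simp only [zsmul_eq_mul]
    ring

theorem lin_om {a b : ℝ} (h : (a:ℂ) + b * om = 0) : a = 0 ∧ b = 0 := by
  have h1 := congrArg Complex.im h
  have h2 := congrArg Complex.re h
  simp only [Complex.add_im, Complex.mul_im, om_re, om_im, Complex.ofReal_im, Complex.ofReal_re,
    Complex.add_re, Complex.mul_re, Complex.zero_im, Complex.zero_re] at h1 h2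
  have s3 : 0 < √3 := by positivity
  have hb : b = 0 := by
    have : b * (√3 / 2) = 0 := by linarith
    rcases mul_eq_zero.mp this with h | h
    · exact h
    · linarith
  rw [hb] at h2
  exact ⟨by linarith, hb⟩

theorem lin_V2 : LinearIndependent ℝ ![(h2 : ℂ), (h2 : ℂ) * om] := by
  rw [LinearIndependent.pair_iff]
  intro a b h
  simp only [Complex.real_smul] at h
  have h1 : (h2:ℂ) * ((a:ℂ) + b * om) = 0 := by rw [← h]; ring
  exact lin_om ((mul_eq_zero.mp h1).resolve_left h2_ne)

/-- the basis -/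
noncomputable def b2 : Module.Basis (Fin 2) ℝ ℂ :=
  basisOfLinearIndependentOfCardEqFinrank lin_V2 (by rw [Complex.finrank_real_complex]; simp)

theorem V2_eq : V2 = Submodule.span ℤ (Set.range b2) := by
  unfold V2 b2
  rw [coe_basisOfLinearIndependentOfCardEqFinrank]
  congr 1
  ext z
  simp only [Set.mem_insert_iff, Set.mem_singleton_iff, Set.mem_range, Fin.exists_fin_two,
    Matrix.cons_val_zero, Matrix.cons_val_one]
  constructor
  · rintro (h | h)
    · exact Or.inl h.symm
    · exact Or.inr h.symm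
  · rintro (h | h)
    · exact Or.inl h.symm
    · exact Or.inr h.symm

instance : DiscreteTopology V2 := by
  rw [V2_eq]; infer_instance

instance : IsZLattice ℝ V2 := ⟨by
  have h := (inferInstance : IsZLattice ℝ (Submodule.span ℤ (Set.range b2))).span_top
  rw [← V2_eq] at h
  exact h⟩

theorem covolume_V2 : ZLattice.covolume V2 = 1 := by
  have h1 : ZLattice.covolume (Submodule.span ℤ (Set.range b2)) = 1 := by
    rw [ZLattice.covolume_eq_measure_fundamentalDomain _ _ (ZSpan.isAddFundamentalDomain b2 _),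
      ZSpan.measureReal_fundamentalDomain _ _ Complex.basisOneI,
      MeasureTheory.measureReal_congr (ZSpan.fundamentalDomain_ae_parallelepiped _ _)]
    have h2' : MeasureTheory.volume.real (parallelepiped Complex.basisOneI) = 1 := by
      have := Complex.orthonormalBasisOneI.volume_parallelepiped
      rw [MeasureTheory.measureReal_def, ← Complex.toBasis_orthonormalBasisOneI,
        OrthonormalBasis.coe_toBasis, this]
      simp
    rw [h2', mul_one, Module.Basis.det_apply, Matrix.det_fin_two]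
    have e0 : b2 0 = (h2 : ℂ) := by
      unfold b2; rw [coe_basisOfLinearIndependentOfCardEqFinrank]; rfl
    have e1 : b2 1 = (h2 : ℂ) * om := by
      unfold b2; rw [coe_basisOfLinearIndependentOfCardEqFinrank]; rfl
    simp only [Module.Basis.toMatrix_apply, e0, e1, Complex.coe_basisOneI_repr,
      Matrix.cons_val_zero, Matrix.cons_val_one, Complex.ofReal_re, Complex.ofReal_im,
      Complex.mul_re, Complex.mul_im, om_re, om_im]
    have h3 := h2_sq
    have s3 : 0 < √3 := by positivity
    have : h2 * (h2 * (√3 / 2) + 0 * (1 / 2)) - (h2 * (1 / 2) - 0 * (√3 / 2)) * 0 = 1 := by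
      have : h2 * (h2 * (√3 / 2) + 0 * (1 / 2)) - (h2 * (1 / 2) - 0 * (√3 / 2)) * 0 =
        h2 ^ 2 * (√3 / 2) := by ring
      rw [this, h3]
      field_simp
    rw [this, abs_one]
  rw [V2_eq]
  exact h1

end Pool.Agent.H96.UO
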