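import Pool.Agent.H96.UO.Riesz

/-!
# Periodic Riesz energies in the plane, `s ≥ 400`: the inequality
-/

set_option autoImplicit false
set_option linter.unusedSectionVars false

open Real Set Filter Topology
open scoped ENNReal

namespace Pool.Agent.H96.UO

theorem ereal_sum_coe {ι : Type*} (t : Finset ι) (f : ι → ℝ) :
    ∑ i ∈ t, (f i : EReal) = ((∑ i ∈ t, f i : ℝ) : EReal) := by
  classical
  induction t using Finset.induction_on with
  | empty => simp
  | insert a t ha ih => rw [Finset.sum_insert ha, Finset.sum_insert ha, EReal.coe_add, ih]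

theorem ereal_sum_ne_bot {ι : Type*} (t : Finset ι) (f : ι → EReal) (h : ∀ i ∈ t, f i ≠ ⊥) :
    ∑ i ∈ t, f i ≠ ⊥ := by
  classical
  induction t using Finset.induction_on with
  | empty => simp
  | insert a t ha ih =>
    rw [Finset.sum_insert ha, Ne, EReal.add_eq_bot_iff, not_or]
    exact ⟨h a (Finset.mem_insert_self a t), ih fun i hi => h i (Finset.mem_insert_of_mem hi)⟩

theorem ereal_sum_top {ι : Type*} (t : Finset ι) (f : ι → EReal) (h : ∀ i ∈ t, f i ≠ ⊥) {i : ι}
    (hi : i ∈ t) (hf : f i = ⊤) : ∑ i ∈ t, f i = ⊤ := by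
  classical
  rw [← Finset.add_sum_erase t f hi, hf]
  refine EReal.top_add_of_ne_bot (ereal_sum_ne_bot _ _ fun j hj => h j (Finset.mem_of_mem_erase hj))

section

variable {L : Submodule ℤ ℂ} {N : ℕ} {x : Fin N → ℂ}

theorem Kp_ne_bot (s : ℝ) (z : ℂ) : Kp s L z ≠ ⊥ := by
  unfold Kp
  split_ifs
  · simp
  · exact EReal.coe_ne_bot _

/-- non-distinct points have infinite energy -/
theorem Ep_top (s : ℝ) {i j : Fin N} (hij : i ≠ j) (h : x i - x j ∈ L) : Ep s L x = ⊤ := by
  unfold Ep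
  have h1 : ∀ i j : Fin N, (if i = j then 0 else Kp s L (x i - x j)) ≠ ⊥ := by
    intro i j
    split_ifs
    · simp
    · exact Kp_ne_bot s _
  refine ereal_sum_top _ _ (fun i _ => ereal_sum_ne_bot _ _ fun j _ => h1 i j)
    (Finset.mem_univ i) ?_
  refine ereal_sum_top _ _ (fun j _ => h1 i j) (Finset.mem_univ j) ?_
  rw [if_neg hij]
  unfold Kp
  rw [if_pos h]

/-- the constant of the kernel -/
noncomputable def cs (s : ℝ) : ℝ := 2 * π / (Real.Gamma (s / 2) * (s - 2))

/-- distinct points have finite energy -/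
theorem Ep_coe (s : ℝ) (hx : ∀ i j, x i - x j ∈ L → i = j) : Ep s L x =
    ((∑ i, ∑ j, (if i = j then 0 else pairE s L (x i - x j)) - N * (N - 1) * cs s : ℝ) :
      EReal) := by
  have h1 : Ep s L x = ((∑ i, ∑ j, (if i = j then 0 else (pairE s L (x i - x j) - cs s)) : ℝ) :
      EReal) := by
    unfold Ep
    rw [← ereal_sum_coe]
    refine Finset.sum_congr rfl fun i _ => ?_
    rw [← ereal_sum_coe]
    refine Finset.sum_congr rfl fun j _ => ?_
    by_cases hij : i = j
    · rw [if_pos hij, if_pos hij]; rfl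
    · rw [if_neg hij, if_neg hij]
      unfold Kp
      rw [if_neg fun h => hij (hx i j h)]
      rfl
  rw [h1]
  congr 1
  have h2 : ∀ i j : Fin N, (if i = j then (0:ℝ) else (pairE s L (x i - x j) - cs s)) =
      (if i = j then 0 else pairE s L (x i - x j)) - (cs s - if i = j then cs s else 0) := by
    intro i j
    by_cases hij : i = j
    · simp [hij]
    · simp [hij]
  simp_rw [h2, Finset.sum_sub_distrib]
  simp
  ring

end

section

variable {L : Submodule ℤ ℂ} [DiscreteTopology L] [IsZLattice ℝ L] {N : ℕ} {x : Fin N → ℂ}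

/-- the total energy, including the images of the points -/
noncomputable def tot (s : ℝ) (L : Submodule ℤ ℂ) {N : ℕ} (x : Fin N → ℂ) : ℝ :=
  ∑ i, ∑ j, (if i = j then 0 else pairE s L (x i - x j)) + N * zetaL s L

theorem pairE_nonneg (s : ℝ) (z : ℂ) : 0 ≤ pairE s L z :=
  tsum_nonneg fun _ => by positivity

theorem zetaL_nonneg (s : ℝ) : 0 ≤ zetaL s L := tsum_nonneg fun _ => by positivity

theorem tot_nonneg (s : ℝ) : 0 ≤ tot s L x := by
  unfold tot
  refine add_nonneg (Finset.sum_nonneg fun i _ => Finset.sum_nonneg fun j _ => ?_)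
    (mul_nonneg (by positivity) (zetaL_nonneg s))
  split_ifs
  · exact le_rfl
  · exact pairE_nonneg s _

theorem energy_tot {s : ℝ} (hs : 2 < s) (hx : ∀ i j, x i - x j ∈ L → i = j) :
    energy L x (fun t => t ^ (-s / 2)) = ENNReal.ofReal (tot s L x) / N := by
  classical
  unfold energy
  congr 1
  have h1 : ∀ i j : Fin N, ∑' v : L, (if x i - x j + v = 0 then 0 else
      ENNReal.ofReal ((‖x i - x j + v‖ ^ 2) ^ (-s / 2))) =
      ENNReal.ofReal (if i = j then zetaL s L else pairE s L (x i - x j)) := by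
    intro i j
    by_cases hij : i = j
    · rw [if_pos hij, hij, sub_self]
      exact ennreal_self hs
    · rw [if_neg hij]
      exact ennreal_pair hs fun h => hij (hx i j h)
  have h0 : ∀ i j : Fin N, 0 ≤ (if i = j then zetaL s L else pairE s L (x i - x j)) := by
    intro i j
    split_ifs
    · exact zetaL_nonneg s
    · exact pairE_nonneg s _
  simp_rw [h1]
  rw [Finset.sum_congr rfl fun i _ => (ENNReal.ofReal_sum_of_nonneg fun j _ => h0 i j).symm,
    ← ENNReal.ofReal_sum_of_nonneg fun i _ => Finset.sum_nonneg fun j _ => h0 i j]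
  congr 1
  unfold tot
  have h2 : ∀ i j : Fin N, (if i = j then zetaL s L else pairE s L (x i - x j)) =
      (if i = j then 0 else pairE s L (x i - x j)) + (if i = j then zetaL s L else 0) := by
    intro i j
    by_cases hij : i = j
    · simp [hij]
    · simp [hij]
  simp_rw [h2, Finset.sum_add_distrib]
  simp

end

theorem isHex_V2 : IsHex V2 (fun _ : Fin 1 => 0) (2 / √3) := by
  refine ⟨0, h2, ?_, fun z => ?_⟩
  · rw [Complex.norm_real, norm_eq_abs, sq_abs, h2_sq]
  · constructor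
    · rintro ⟨_, h⟩
      rw [sub_zero] at h
      obtain ⟨a, b, hab⟩ := mem_V2.mp h
      exact ⟨a, b, by rw [zero_add]; exact hab⟩
    · rintro ⟨a, b, hab⟩
      refine ⟨0, ?_⟩
      rw [sub_zero]
      exact mem_V2.mpr ⟨a, b, by rw [zero_add] at hab; exact hab⟩

theorem hexEnergy_V2 {s : ℝ} (hs : 2 < s) :
    hexEnergy (fun t => t ^ (-s / 2)) (2 / √3) = ENNReal.ofReal (zetaL s V2) := by
  have h1 := energy_of_isHex (L := V2) (x := fun _ : Fin 1 => (0:ℂ)) Nat.one_pos
    (fun i j _ => Subsingleton.elim i j) (fun t => t ^ (-s / 2)) (by positivity) isHex_V2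
  have h2 := energy_tot (L := V2) (x := fun _ : Fin 1 => (0:ℂ)) hs
    (fun i j _ => Subsingleton.elim i j)
  rw [← h1, h2]
  have h3 : tot s V2 (fun _ : Fin 1 => (0:ℂ)) = zetaL s V2 := by
    unfold tot
    simp
  rw [h3]
  simp

theorem hexEnergy_scale {s : ℝ} (hs : 2 < s) {N : ℕ} (hN : 0 < N) :
    hexEnergy (fun t => t ^ (-s / 2)) (2 / √3 * (1 / N)) =
      ENNReal.ofReal ((N:ℝ) ^ (s / 2) * zetaL s V2) := by
  have hNR : (0:ℝ) < N := by exact_mod_cast hN
  rw [ENNReal.ofReal_mul (by positivity), ← hexEnergy_V2 hs]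
  unfold hexEnergy
  rw [← ENNReal.tsum_mul_left]
  refine tsum_congr fun p => ?_
  by_cases hp : p = 0
  · rw [if_pos hp, if_pos hp, mul_zero]
  · rw [if_neg hp, if_neg hp, ← ENNReal.ofReal_mul (by positivity)]
    congr 1
    have hq : (0:ℝ) ≤ (p.1:ℝ) ^ 2 + p.1 * p.2 + (p.2:ℝ) ^ 2 := by
      nlinarith [sq_nonneg ((p.1:ℝ) + p.2), sq_nonneg (p.1:ℝ), sq_nonneg (p.2:ℝ)]
    have e : 2 / √3 * (1 / (N:ℝ)) * ((p.1:ℝ) ^ 2 + p.1 * p.2 + (p.2:ℝ) ^ 2) =
        (N:ℝ)⁻¹ * (2 / √3 * ((p.1:ℝ) ^ 2 + p.1 * p.2 + (p.2:ℝ) ^ 2)) := by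
      field_simp
    rw [e]
    beta_reduce
    rw [mul_rpow (by positivity) (by positivity), inv_rpow hNR.le, ← rpow_neg hNR.le]
    congr 2
    ring

section

variable {L : Submodule ℤ ℂ} [DiscreteTopology L] [IsZLattice ℝ L] {N : ℕ} {x : Fin N → ℂ}

/-- **the real inequality** -/
theorem tot_ge {s : ℝ} (hs : 400 ≤ s) (hN : 0 < N) (hL : ZLattice.covolume L = 1)
    (hx : ∀ i j, x i - x j ∈ L → i = j) :
    (N:ℝ) ^ (1 + s / 2) * zetaL s V2 ≤ tot s L x ∧
      (tot s L x = (N:ℝ) ^ (1 + s / 2) * zetaL s V2 ↔ IsHex L x (2 / √3 * (1 / N))) := by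
  have hs2 : 2 < s := by linarith
  have hNR : (0:ℝ) < N := by exact_mod_cast hN
  have hN' : (N : ℝ≥0∞) ≠ 0 := by exact_mod_cast hN.ne'
  obtain ⟨h1, -, h3⟩ := steep (L := L) hN hx (g := fun t => t ^ (-s / 2))
    (A := 2 / √3 * (1 / N)) (by rw [hL]) (steep_rpow hs (by positivity))
  rw [energy_tot hs2 hx, hexEnergy_scale hs2 hN] at h1 h3
  have hz := zetaL_nonneg (L := V2) s
  have ht := tot_nonneg (L := L) (x := x) s
  have e1 : (N:ℝ) ^ (1 + s / 2) * zetaL s V2 = N * ((N:ℝ) ^ (s / 2) * zetaL s V2) := by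
    rw [rpow_add hNR, rpow_one, mul_assoc]
  have e2 : ENNReal.ofReal (tot s L x) / N = ENNReal.ofReal (tot s L x / N) := by
    rw [ENNReal.ofReal_div_of_pos hNR, ENNReal.ofReal_natCast]
  rw [e2] at h1 h3
  have h4 := (ENNReal.ofReal_le_ofReal_iff (by positivity)).mp h1
  rw [le_div_iff₀ hNR] at h4
  refine ⟨by rw [e1]; linarith, ?_⟩
  rw [← h3, e1, ENNReal.ofReal_eq_ofReal_iff (by positivity) (by positivity), div_eq_iff hNR.ne']
  constructor
  · intro h; rw [h]; ring
  · intro h; rw [h]; ring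

/-- the minimal value -/
noncomputable def optVal (s : ℝ) (L : Submodule ℤ ℂ) (N : ℕ) : ℝ :=
  (N:ℝ) ^ (1 + s / 2) * zetaL s V2 - N * zetaL s L - N * (N - 1) * cs s

theorem Ep_ge {s : ℝ} (hs : 400 ≤ s) (hN : 0 < N) (hL : ZLattice.covolume L = 1)
    (x : Fin N → ℂ) : (optVal s L N : EReal) ≤ Ep s L x ∧
      (Ep s L x = optVal s L N ↔ (∀ i j, x i - x j ∈ L → i = j) ∧
        IsHex L x (2 / √3 * (1 / N))) := by
  by_cases hx : ∀ i j, x i - x j ∈ L → i = j
  · obtain ⟨h1, h2⟩ := tot_ge hs hN hL hx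
    have h3 := Ep_coe s hx
    have h4 : ∑ i, ∑ j, (if i = j then 0 else pairE s L (x i - x j)) = tot s L x -
        N * zetaL s L := by unfold tot; ring
    rw [h4] at h3
    rw [h3]
    refine ⟨?_, ?_⟩
    · rw [EReal.coe_le_coe_iff]
      unfold optVal
      linarith
    · rw [EReal.coe_eq_coe_iff, ← h2]
      unfold optVal
      constructor
      · intro h
        exact ⟨hx, by linarith⟩
      · rintro ⟨-, h⟩
        rw [h]
  · have hx' := hx
    push Not at hx
    obtain ⟨i, j, h, hij⟩ := hx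
    rw [Ep_top s hij h]
    refine ⟨le_top, ⟨fun h => ?_, fun h => absurd h.1 hx'⟩⟩
    exact absurd h.symm (EReal.coe_ne_top _)

end

end Pool.Agent.H96.UO
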