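import Pool.Agent.H96.UO.Pots

/-!
# Steep universal optimality: the case of equality
-/

set_option autoImplicit false
set_option linter.unusedSectionVars false

open Real Set
open scoped ENNReal
open Equiv (Perm)

namespace Pool.Agent.H96.UO

/-- every complex number is near an Eisenstein integer -/
theorem exists_round (ζ : ℂ) : ∃ a b : ℤ, ‖ζ - ((a:ℂ) + b * om)‖ ^ 2 ≤ 3 / 4 := by
  have s3 : √3 * √3 = 3 := mul_self_sqrt (by norm_num)
  have s3' : √3 ≠ 0 := by positivity
  set β : ℝ := ζ.im * (2 / √3) with hβ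
  set α : ℝ := ζ.re - β / 2 with hα
  refine ⟨round α, round β, ?_⟩
  have h1 := abs_le.mp (abs_sub_round α)
  have h2 := abs_le.mp (abs_sub_round β)
  set p := α - round α with hp
  set q := β - round β with hq
  have e : ζ - ((round α : ℂ) + (round β : ℂ) * om) = ⟨p + q / 2, √3 / 2 * q⟩ := by
    apply Complex.ext
    · simp only [Complex.sub_re, Complex.add_re, Complex.mul_re, om_re, om_im, Complex.intCast_re,
        Complex.intCast_im]
      rw [hp, hq, hα]
      ring
    · simp only [Complex.sub_im, Complex.add_im, Complex.mul_im, om_re, om_im, Complex.intCast_re,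
        Complex.intCast_im]
      rw [hq, hβ]
      field_simp
      ring
  rw [e, Complex.sq_norm, Complex.normSq_apply]
  simp only
  have : (p + q / 2) * (p + q / 2) + √3 / 2 * q * (√3 / 2 * q) = p ^ 2 + p * q + q ^ 2 := by
    nlinarith
  rw [this]
  nlinarith [h1.1, h1.2, h2.1, h2.2, sq_nonneg (p - q), sq_nonneg (p + q)]

section

variable {ι : Type*} [Fintype ι] [DecidableEq ι] {L : Submodule ℤ ℂ} [DiscreteTopology L]
  [IsZLattice ℝ L] {x : ι → ℂ}

theorem rigid (hS : Sep L x) (hb : nbad L x = 0) (h2 : S2 L x = 0) (i : ι) :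
    ∃ u : ℂ, ‖u‖ ^ 2 = 3 ∧ ∀ z, z ∈ Vec L x i ↔ ∃ a b : ℤ, z = u * (a + b * om) := by
  classical
  obtain ⟨τ, hτ⟩ := hS.exists_tau
  have hgd : ∀ j, gd L x j := by
    intro j
    by_contra hcon
    have : 0 < nbad L x := by
      unfold nbad
      exact Finset.card_pos.mpr ⟨j, by simpa using hcon⟩
    omega
  have hD : ∀ f, Dom L x f := fun f => ⟨hgd _, hgd _⟩
  have hee : ∀ f, ee L x f = 0 := by
    intro f
    have := (Finset.sum_eq_zero_iff_of_nonneg fun f _ => ee_nonneg L x f).mp h2
    exact this f (Finset.mem_univ _)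
  have hnorm : ∀ f, ‖dd L x f‖ ^ 2 = 3 := by
    intro f
    have h := hee f
    unfold ee at h
    rw [if_pos (hgd _)] at h
    have := pow_eq_zero_iff (n := 2) (by norm_num) |>.mp h
    linarith
  have hA : ∀ f, Aset L x 0 f := by
    intro f
    refine ⟨hgd _, ?_⟩
    have h := rho_sq hS hτ (hD f) (hD (sg ι f))
    rw [hee, hee, hee] at h
    have h0 := norm_nonneg (dd L x (sg ι f) - om * dd L x f)
    nlinarith
  have hS0 : ∀ f, S0 L x τ 0 f := fun f => S0_of hτ (hD f) (hA _) (hA _) (hA _)
  have hS1 : ∀ f, S1 L x τ 0 f := fun f => ⟨hS0 _, hA _, hA _⟩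
  refine ⟨dd L x (i, 0), hnorm _, fun z => ⟨fun hz => ?_, ?_⟩⟩
  swap
  · rintro ⟨a, b, rfl⟩
    by_cases hab : (a, b) = ((0 : ℤ), (0 : ℤ))
    · have ha : a = 0 := congrArg Prod.fst hab
      have hb : b = 0 := congrArg Prod.snd hab
      rw [ha, hb]
      simp only [Int.cast_zero, zero_mul, add_zero, mul_zero]
      exact zero_mem_vec i
    · obtain ⟨k, m, n, -, hco⟩ := co_surj a b hab
      have h3 := co_spec k m n
      rw [hco] at h3
      simp only at h3
      have h4 := path hτ le_rfl (f := (i, k)) m n (fun _ _ => hS0 _) (fun _ _ => hS1 _)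
      have h5 := rot_near (L := L) (x := x) (η := 0) (f := (i, k)) (fun _ _ => hA _) k
      simp only [mul_zero, norm_le_zero_iff, zero_mul] at h4 h5
      have h6 : dd L x (i, k) = om ^ (k : ℕ) * dd L x (i, 0) := sub_eq_zero.mp h5
      have h7 : dsp (V (sg ι) τ (dd L x) m n) (i, k) = dd L x (i, 0) * (a + b * om) := by
        rw [sub_eq_zero.mp h4.2.1, h6, ← h3]
        push_cast
        ring
      rw [← h7]
      exact ⟨_, h4.2.2⟩
  · -- rounding
    set u := dd L x (i, 0) with hu
    have hu3 : ‖u‖ ^ 2 = 3 := hnorm _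
    have hu0 : u ≠ 0 := by
      intro h
      rw [h] at hu3
      norm_num at hu3
    obtain ⟨a, b, hab⟩ := exists_round (z / u)
    refine ⟨a, b, ?_⟩
    have hmem : u * ((a:ℂ) + b * om) ∈ Vec L x i := by
      by_cases hab : (a, b) = ((0 : ℤ), (0 : ℤ))
      · have ha : a = 0 := congrArg Prod.fst hab
        have hb : b = 0 := congrArg Prod.snd hab
        rw [ha, hb]
        simp only [Int.cast_zero, zero_mul, add_zero, mul_zero]
        exact zero_mem_vec i
      · obtain ⟨k, m, n, -, hco⟩ := co_surj a b hab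
        have h3 := co_spec k m n
        rw [hco] at h3
        simp only at h3
        have h4 := path hτ le_rfl (f := (i, k)) m n (fun _ _ => hS0 _) (fun _ _ => hS1 _)
        have h5 := rot_near (L := L) (x := x) (η := 0) (f := (i, k)) (fun _ _ => hA _) k
        simp only [mul_zero, norm_le_zero_iff, zero_mul] at h4 h5
        have h6 : dd L x (i, k) = om ^ (k : ℕ) * dd L x (i, 0) := sub_eq_zero.mp h5
        have h7 : dsp (V (sg ι) τ (dd L x) m n) (i, k) = dd L x (i, 0) * (a + b * om) := by
          rw [sub_eq_zero.mp h4.2.1, h6, ← h3]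
          push_cast
          ring
        rw [hu, ← h7]
        exact ⟨_, h4.2.2⟩
    refine hS.eq_of_near hz hmem ?_
    have e : z - u * ((a:ℂ) + b * om) = u * (z / u - (a + b * om)) := by
      field_simp
    have e2 : ‖z - u * ((a:ℂ) + b * om)‖ ^ 2 ≤ 9 / 4 := by
      rw [e, norm_mul, mul_pow, hu3]
      linarith
    have h0 := norm_nonneg (z - u * ((a:ℂ) + b * om))
    nlinarith

end

end Pool.Agent.H96.UO
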