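import Pool.Agent.H96.UO.Reg
import Pool.Agent.H96.UO.Area
import Pool.Agent.H96.UO.Eis

/-!
# Steep universal optimality: sums over the first shell
-/

set_option autoImplicit false
set_option linter.unusedSectionVars false

open Real Set
open Equiv (Perm)

namespace Pool.Agent.H96.UO

section

variable {ι : Type*} [Fintype ι] [DecidableEq ι] {L : Submodule ℤ ℂ} {x : ι → ℂ}
  (hS : Sep L x) {Z : ι → Finset ℂ}
  (hZ : ∀ i z, z ∈ Z i ↔ z ∈ Vec L x i ∧ z ≠ 0 ∧ ‖z‖ < 2)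

include hS hZ

theorem inner_good {i : ι} (h : gd L x i) :
    ((Z i).filter fun z => ‖z‖ < 19 / 10) = Finset.univ.image fun k => dd L x (i, k) := by
  ext z
  simp only [Finset.mem_filter, Finset.mem_image, Finset.mem_univ, true_and, hZ]
  constructor
  · rintro ⟨⟨h1, h2, _⟩, h4⟩
    exact (good_spec h).all z h1 h2 h4
  · rintro ⟨k, rfl⟩
    have hb := norm_dd_bounds (f := (i, k)) h
    refine ⟨⟨(good_spec h).mem k, ?_, by linarith [hb.2]⟩, by linarith [hb.2]⟩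
    rw [← norm_pos_iff]
    linarith [hb.1]

theorem inner_good_card {i : ι} (h : gd L x i) :
    ((Z i).filter fun z => ‖z‖ < 19 / 10).card = 6 := by
  rw [inner_good hS hZ h, Finset.card_image_of_injective _ (good_spec h).inj, Finset.card_univ,
    Fintype.card_fin]

theorem Z_good {i : ι} (h : gd L x i) : Z i = Finset.univ.image fun k => dd L x (i, k) := by
  rw [← inner_good hS hZ h]
  exact (inner_eq (Z_low hS hZ) (Z_high hS hZ) (Z_sep hS hZ) (inner_good_card hS hZ h)).symm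

theorem sum_Z_good {i : ι} (h : gd L x i) (φ : ℂ → ℝ) :
    ∑ z ∈ Z i, φ z = ∑ k, φ (dd L x (i, k)) := by
  rw [Z_good hS hZ h, Finset.sum_image]
  intro k _ l _ he
  exact (good_spec h).inj he

open Classical in
/-- **Local inequality.** -/
theorem local_sum {s : ℝ} (hs : 20 ≤ s) (i : ι) :
    6 + K s * (∑ z ∈ Z i, P (‖z‖ ^ 2) - 6 * P 3) + s / 25000 * (if gd L x i then 0 else 1) +
      s / 10 * ∑ k, ee L x (i, k) ≤ ∑ z ∈ Z i, exp (-(s * (‖z‖ ^ 2 - 3))) := by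
  by_cases h : gd L x i
  · have h1 := local_six (Z_low hS hZ) (Z_high hS hZ) (Z_sep hS hZ) (s := s) (by linarith)
      (inner_good_card hS hZ h)
    have h2 := sum_Z_good hS hZ h fun z => (‖z‖ ^ 2 - 3) ^ 2
    have h3 : ∑ k, ee L x (i, k) = ∑ k, (‖dd L x (i, k)‖ ^ 2 - 3) ^ 2 := by
      refine Finset.sum_congr rfl fun k _ => ?_
      unfold ee
      rw [if_pos h]
    rw [if_pos h, h3, ← h2]
    linarith
  · have h3 : ∑ k, ee L x (i, k) = 0 := by
      refine Finset.sum_eq_zero fun k _ => ?_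
      unfold ee
      rw [if_neg h]
    rw [if_neg h, h3]
    by_cases h6 : ((Z i).filter fun z => ‖z‖ < 19 / 10).card = 6
    · have h1 := local_six (Z_low hS hZ) (Z_high hS hZ) (Z_sep hS hZ) (s := s) (by linarith) h6
      have h4 : ∃ z ∈ (Z i).filter (fun z => ‖z‖ < 19 / 10), 1 / 50 < |‖z‖ ^ 2 - 3| := by
        by_contra hcon
        push Not at hcon
        exact h (exists_good (hZ i) (Z_sep hS hZ) h6 hcon)
      obtain ⟨z, hz, hz2⟩ := h4
      have h5 : (‖z‖ ^ 2 - 3) ^ 2 ≤ ∑ z ∈ Z i, (‖z‖ ^ 2 - 3) ^ 2 :=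
        Finset.single_le_sum (f := fun z : ℂ => (‖z‖ ^ 2 - 3) ^ 2) (fun _ _ => sq_nonneg _)
          (Finset.mem_filter.mp hz).1
      have h7 : (1 / 50 : ℝ) ^ 2 ≤ (‖z‖ ^ 2 - 3) ^ 2 := by
        rw [← sq_abs (‖z‖ ^ 2 - 3)]
        gcongr
      have h8 : s / 10 * ((1 / 50 : ℝ) ^ 2) ≤ s / 10 * ∑ z ∈ Z i, (‖z‖ ^ 2 - 3) ^ 2 := by
        refine mul_le_mul_of_nonneg_left (h7.trans h5) (by linarith)
      linarith
    · have h1 := local_few (Z_low hS hZ) (Z_high hS hZ) (Z_sep hS hZ) hs h6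
      linarith

theorem sum_P_good {i : ι} (h : gd L x i) : ∑ z ∈ Z i, P (‖z‖ ^ 2) ≤
    6 * P 3 + (∑ k, ee L x (i, k) - 2 * ∑ k, (‖dd L x (i, k)‖ ^ 2 - 3)) / (8 * √3) := by
  have h3 := sqrt3_pos
  rw [sum_Z_good hS hZ h fun z => P (‖z‖ ^ 2)]
  have h1 : ∑ k, P (‖dd L x (i, k)‖ ^ 2) ≤ ∑ k : Fin 6, (P 3 +
      (ee L x (i, k) - 2 * (‖dd L x (i, k)‖ ^ 2 - 3)) / (8 * √3)) := by
    refine Finset.sum_le_sum fun k _ => ?_
    have hn := abs_le.mp (dd_sq (L := L) (x := x) (f := (i, k)) h)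
    have := P_le_parabola (t := ‖dd L x (i, k)‖ ^ 2) (by linarith [hn.1]) (by linarith [hn.2])
    refine this.trans (le_of_eq ?_)
    unfold ee
    rw [if_pos h]
    congr 2
    ring
  refine h1.trans (le_of_eq ?_)
  rw [Finset.sum_add_distrib, ← Finset.sum_div, Finset.sum_sub_distrib, ← Finset.mul_sum,
    Finset.sum_const, Finset.card_univ, Fintype.card_fin]
  norm_num

theorem sum_P_bad (i : ι) : ∑ z ∈ Z i, P (‖z‖ ^ 2) ≤ 6 * P 3 + 1 / 2 := by
  have h1 := Z_low (i := i) hS hZ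
  have h2 := Z_high (i := i) hS hZ
  have hc := counts h1 h2 (Z_sep hS hZ)
  have h3' : 1.732 < √3 := by
    rw [lt_sqrt (by norm_num)]; norm_num
  have hP : ∀ z ∈ Z i, P (‖z‖ ^ 2) ≤ 11 / 100 := by
    intro z hz
    have a1 := h1 z hz
    have a2 := h2 z hz
    have h7 := P_le_parabola (t := ‖z‖ ^ 2) (by nlinarith) (by nlinarith [norm_nonneg z])
    obtain ⟨p3, p3'⟩ := P_three_bounds h1 h2 (Z_sep hS hZ)
    have h8 : ((4 - ‖z‖ ^ 2) ^ 2 - 1) / (8 * √3) ≤ 17 / 1000 := by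
      rw [div_le_iff₀ (by positivity)]
      have h9 : 4 - ‖z‖ ^ 2 ≤ 1.11 := by nlinarith
      have h10 : 0 ≤ 4 - ‖z‖ ^ 2 := by nlinarith [norm_nonneg z]
      nlinarith
    linarith
  have hcard : ((Z i).card : ℝ) ≤ 8 := by
    have hsplit : ((Z i).filter fun z => ‖z‖ < 19 / 10).card +
        ((Z i).filter fun z => ¬ ‖z‖ < 19 / 10).card = (Z i).card :=
      Finset.card_filter_add_card_filter_not _
    have hp := pi_lt_d2
    have : ((Z i).card : ℝ) = ((Z i).filter fun z => ‖z‖ < 19 / 10).card +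
        ((Z i).filter fun z => ¬ ‖z‖ < 19 / 10).card := by
      rw [← hsplit]; push_cast; rfl
    rw [this]
    have n1 : (0:ℝ) ≤ ((Z i).filter fun z => ‖z‖ < 19 / 10).card := by positivity
    linarith
  obtain ⟨p3, p3'⟩ := P_three_bounds h1 h2 (Z_sep hS hZ)
  calc ∑ z ∈ Z i, P (‖z‖ ^ 2) ≤ ∑ _z ∈ Z i, (11 / 100 : ℝ) := Finset.sum_le_sum hP
    _ = (Z i).card * (11 / 100) := by rw [Finset.sum_const, nsmul_eq_mul]
    _ ≤ 8 * (11 / 100) := by gcongr
    _ ≤ _ := by linarith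

end

section

variable {ι : Type*} [Fintype ι] [DecidableEq ι] {L : Submodule ℤ ℂ} [DiscreteTopology L]
  [IsZLattice ℝ L] {x : ι → ℂ}
  (hS : Sep L x) {Z : ι → Finset ℂ}
  (hZ : ∀ i z, z ∈ Z i ↔ z ∈ Vec L x i ∧ z ≠ 0 ∧ ‖z‖ < 2)
  {N : ℝ} (hN : ZLattice.covolume L = N * (3 * √3 / 2))

include hS hZ hN

theorem area_ineq' : 6 * P 3 * Fintype.card ι - 3 * √3 / 2 * (N - Fintype.card ι) ≤
    ∑ i, ∑ z ∈ Z i, P (‖z‖ ^ 2) := by
  have h := area_ineq L x hS.inj Z fun i z h1 h2 h3 => (hZ i z).mpr ⟨h1, h2, h3⟩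
  rw [hN] at h
  have : π = 6 * P 3 + 3 * √3 / 2 := by rw [P_three]; ring
  rw [this] at h
  linarith

/-- the sum of the squares of the displacements -/
theorem sum_dd_le : ∑ f, ‖dd L x f‖ ^ 2 ≤
    18 * Fintype.card ι + 18 * (N - Fintype.card ι) + S2 L x := by
  classical
  have h := area_ineq' hS hZ hN
  have h33 : √3 * √3 = 3 := mul_self_sqrt (by norm_num)
  have h3 := sqrt3_pos
  have h3' : √3 < 1.7321 := by
    rw [sqrt_lt' (by norm_num)]; norm_num
  have h1 : ∀ i : ι, ∑ z ∈ Z i, P (‖z‖ ^ 2) ≤ 6 * P 3 +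
      (∑ k, ee L x (i, k) - 2 * (∑ k, ‖dd L x (i, k)‖ ^ 2 - 18)) / (8 * √3) := by
    intro i
    by_cases hg : gd L x i
    · refine (sum_P_good hS hZ hg).trans (le_of_eq ?_)
      rw [Finset.sum_sub_distrib, Finset.sum_const, Finset.card_univ, Fintype.card_fin]
      norm_num
    · refine (sum_P_bad hS hZ i).trans ?_
      have e1 : ∑ k, ee L x (i, k) = 0 := by
        refine Finset.sum_eq_zero fun k _ => ?_
        unfold ee; rw [if_neg hg]
      have e2 : ∑ k, ‖dd L x (i, k)‖ ^ 2 = 0 := by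
        refine Finset.sum_eq_zero fun k _ => ?_
        rw [dd_bad hg]; simp
      rw [e1, e2]
      have : (1:ℝ) / 2 ≤ (0 - 2 * (0 - 18)) / (8 * √3) := by
        rw [le_div_iff₀ (by positivity)]
        linarith
      linarith
  have h2 := Finset.sum_le_sum fun i (_ : i ∈ Finset.univ) => h1 i
  simp only [Finset.sum_add_distrib, ← Finset.sum_div, Finset.sum_sub_distrib, ← Finset.mul_sum,
    Finset.sum_const, Finset.card_univ, nsmul_eq_mul] at h2
  have e3 : ∑ i, ∑ k, ee L x (i, k) = S2 L x := by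
    unfold S2
    rw [Fintype.sum_prod_type]
  have e4 : ∑ i, ∑ k, ‖dd L x (i, k)‖ ^ 2 = ∑ f, ‖dd L x f‖ ^ 2 := by
    rw [Fintype.sum_prod_type]
  rw [e3, e4] at h2
  have h5 := h.trans h2
  set n0 : ℝ := (Fintype.card ι : ℝ)
  set D0 := ∑ f, ‖dd L x f‖ ^ 2
  have h6 : -(3 * √3 / 2 * (N - n0)) * (8 * √3) ≤ S2 L x - 2 * (D0 - n0 * 18) := by
    rw [← le_div_iff₀ (by positivity)]
    linarith
  have h7 : -(3 * √3 / 2 * (N - n0)) * (8 * √3) = -36 * (N - n0) := by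
    have : -(3 * √3 / 2 * (N - n0)) * (8 * √3) = -12 * (√3 * √3) * (N - n0) := by ring
    rw [this, h33]; ring
  rw [h7] at h6
  have := S2_nonneg L x
  linarith

/-- **The first shell.** -/
theorem first_shell {s : ℝ} (hs : 20 ≤ s) :
    6 * (Fintype.card ι : ℝ) - 18 * s * (N - Fintype.card ι) + s / 25000 * nbad L x +
      s / 10 * S2 L x ≤ ∑ i, ∑ z ∈ Z i, exp (-(s * (‖z‖ ^ 2 - 3))) := by
  classical
  have h := area_ineq' hS hZ hN
  have h33 : √3 * √3 = 3 := mul_self_sqrt (by norm_num)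
  have h1 := Finset.sum_le_sum fun i (_ : i ∈ Finset.univ) => local_sum hS hZ hs i
  refine le_trans ?_ h1
  rw [Finset.sum_add_distrib, Finset.sum_add_distrib, Finset.sum_add_distrib, ← Finset.mul_sum,
    ← Finset.mul_sum, ← Finset.mul_sum, Finset.sum_sub_distrib, Finset.sum_const,
    Finset.sum_const, Finset.card_univ]
  have e3 : ∑ i, ∑ k, ee L x (i, k) = S2 L x := by
    unfold S2
    rw [Fintype.sum_prod_type]
  have e5 : ∑ i : ι, (if gd L x i then (0:ℝ) else 1) = nbad L x := by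
    unfold nbad
    rw [Finset.card_filter]
    push_cast
    refine Finset.sum_congr rfl fun i _ => ?_
    by_cases hg : gd L x i <;> simp [hg]
  rw [e3, e5]
  simp only [nsmul_eq_mul]
  set n0 : ℝ := (Fintype.card ι : ℝ)
  have hK : 0 ≤ K s := by unfold K; positivity
  have h2 := mul_le_mul_of_nonneg_left h hK
  have h4 : K s * (3 * √3 / 2 * (N - n0)) = 18 * s * (N - n0) := by
    unfold K
    have : 4 * √3 * s * (3 * √3 / 2 * (N - n0)) = 6 * (√3 * √3) * s * (N - n0) := by ring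
    rw [this, h33]; ring
  have h5 : K s * (6 * P 3 * n0 - 3 * √3 / 2 * (N - n0)) =
      K s * (n0 * (6 * P 3)) - 18 * s * (N - n0) := by
    rw [mul_sub, h4]; ring
  rw [h5] at h2
  rw [mul_sub]
  linarith

end

end Pool.Agent.H96.UO
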