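import Pool.Agent.H96.UO.Sum

/-!
# Steep universal optimality: the other shells
-/

set_option autoImplicit false
set_option linter.unusedSectionVars false

open Real Set
open Equiv (Perm)

namespace Pool.Agent.H96.UO

/-- steep potentials, in the normalisation where the hexagonal lattice has minimal distance `√3`;
the potential is `g (|x| ^ 2)` -/
structure Pot (g : ℝ → ℝ) (s : ℝ) : Prop where
  pos : ∀ t, 0 < t → 0 ≤ g t
  tan3 : ∀ t, 0 < t → g 3 * exp (-(s * (t - 3))) ≤ g t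
  tanq : ∀ q : ℕ, 3 ≤ q → ∃ s', 0 ≤ s' ∧ s' ≤ s ∧ ∀ t, 0 < t → g (3 * q) * (1 - s' * (t - 3 * q)) ≤ g t
  dec : ∀ q : ℕ, 3 ≤ q → g (3 * q) * (q : ℝ) ^ 200 ≤ g 3

/-- the quadratic form on words -/
def qn (v : ℕ × ℕ) : ℕ := v.1 ^ 2 + v.1 * v.2 + v.2 ^ 2

theorem qn_ge {v : ℕ × ℕ} (h1 : 1 ≤ v.1) (h2 : v ≠ (1, 0)) : 3 ≤ qn v ∧ 2 ≤ v.1 + v.2 := by
  obtain ⟨m, n⟩ := v
  simp only [qn, ne_eq, Prod.mk.injEq] at *
  rcases Nat.eq_zero_or_pos n with h0 | h0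
  · have : 2 ≤ m := by omega
    subst h0
    constructor
    · nlinarith
    · omega
  · constructor
    · nlinarith
    · omega

theorem qn_le (v : ℕ × ℕ) : (qn v : ℝ) ≤ ((v.1 + v.2 : ℕ) : ℝ) ^ 2 := by
  unfold qn
  push_cast
  nlinarith [mul_nonneg (Nat.cast_nonneg (α := ℝ) v.1) (Nat.cast_nonneg (α := ℝ) v.2)]

theorem qn_ge' (v : ℕ × ℕ) : 3 / 4 * ((v.1 + v.2 : ℕ) : ℝ) ^ 2 ≤ qn v := by
  unfold qn
  push_cast
  nlinarith [sq_nonneg ((v.1:ℝ) - v.2)]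

/-- the weight of a shell -/
theorem weight_le {v : ℕ × ℕ} (h1 : 1 ≤ v.1) (h2 : v ≠ (1, 0)) :
    ((v.1 + v.2 : ℕ) : ℝ) ^ 8 * 10 ^ 12 ≤
      (qn v : ℝ) ^ 200 * (1 / ((v.1 + 1 : ℝ) ^ 2 * (v.2 + 1 : ℝ) ^ 2)) := by
  obtain ⟨h3, h4⟩ := qn_ge h1 h2
  have h5 := qn_ge' v
  set S : ℝ := ((v.1 + v.2 : ℕ) : ℝ) with hS
  have hS2 : 2 ≤ S := by rw [hS]; exact_mod_cast h4
  set q : ℝ := (qn v : ℝ) with hq
  have hq3 : 3 ≤ q := by rw [hq]; exact_mod_cast h3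
  have e1 : (v.1 + 1 : ℝ) * (v.2 + 1) ≤ S ^ 2 := by
    have : S = v.1 + v.2 := by rw [hS]; push_cast; ring
    rw [this] at hS2 ⊢
    nlinarith [sq_nonneg ((v.1:ℝ) - v.2)]
  have e2 : (v.1 + 1 : ℝ) ^ 2 * (v.2 + 1 : ℝ) ^ 2 ≤ S ^ 4 := by
    have : (v.1 + 1 : ℝ) ^ 2 * (v.2 + 1 : ℝ) ^ 2 = ((v.1 + 1 : ℝ) * (v.2 + 1)) ^ 2 := by ring
    rw [this]
    calc ((v.1 + 1 : ℝ) * (v.2 + 1)) ^ 2 ≤ (S ^ 2) ^ 2 := by gcongr
      _ = S ^ 4 := by ring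
  rw [mul_one_div, le_div_iff₀ (by positivity)]
  calc S ^ 8 * 10 ^ 12 * ((v.1 + 1 : ℝ) ^ 2 * (v.2 + 1 : ℝ) ^ 2) ≤ S ^ 8 * 10 ^ 12 * S ^ 4 := by gcongr
    _ = (S ^ 2) ^ 6 * 10 ^ 12 := by ring
    _ ≤ (4 / 3 * q) ^ 6 * 10 ^ 12 := by
        have : S ^ 2 ≤ 4 / 3 * q := by linarith
        gcongr
    _ = q ^ 6 * ((4 / 3) ^ 6 * 10 ^ 12) := by ring
    _ ≤ q ^ 6 * 3 ^ 194 := by gcongr; norm_num
    _ ≤ q ^ 6 * q ^ 194 := by gcongr
    _ = q ^ 200 := by ring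

theorem sum_inv_sq (M : ℕ) : ∑ m ∈ Finset.range M, 1 / ((m:ℝ) + 1) ^ 2 ≤ 2 := by
  have h : ∀ M : ℕ, ∑ m ∈ Finset.range (M + 1), 1 / ((m:ℝ) + 1) ^ 2 ≤ 2 - 1 / ((M:ℝ) + 1) := by
    intro M
    induction M with
    | zero => norm_num
    | succ M ih =>
      rw [Finset.sum_range_succ]
      have : 1 / (((M + 1 : ℕ) : ℝ) + 1) ^ 2 ≤ 1 / ((M:ℝ) + 1) - 1 / (((M + 1 : ℕ) : ℝ) + 1) := by
        push_cast
        rw [div_sub_div _ _ (by positivity) (by positivity), div_le_div_iff₀ (by positivity)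
          (by positivity)]
        nlinarith [Nat.cast_nonneg (α := ℝ) M]
      linarith
  rcases M with _ | M
  · simp
  · have h1 := h M
    have : 0 < 1 / ((M:ℝ) + 1) := by positivity
    linarith

theorem sum_weights (W : Finset (ℕ × ℕ)) :
    ∑ v ∈ W, 1 / (((v.1:ℝ) + 1) ^ 2 * ((v.2:ℝ) + 1) ^ 2) ≤ 4 := by
  obtain ⟨M, hM⟩ : ∃ M, W ⊆ Finset.range M ×ˢ Finset.range M := by
    refine ⟨(W.sup fun v => v.1 + v.2) + 1, fun v hv => ?_⟩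
    have := Finset.le_sup (f := fun v : ℕ × ℕ => v.1 + v.2) hv
    rw [Finset.mem_product, Finset.mem_range, Finset.mem_range]
    omega
  calc ∑ v ∈ W, 1 / (((v.1:ℝ) + 1) ^ 2 * ((v.2:ℝ) + 1) ^ 2)
      ≤ ∑ v ∈ Finset.range M ×ˢ Finset.range M, 1 / (((v.1:ℝ) + 1) ^ 2 * ((v.2:ℝ) + 1) ^ 2) :=
        Finset.sum_le_sum_of_subset_of_nonneg hM fun _ _ _ => by positivity
    _ = (∑ m ∈ Finset.range M, 1 / ((m:ℝ) + 1) ^ 2) * ∑ n ∈ Finset.range M, 1 / ((n:ℝ) + 1) ^ 2 := by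
        rw [Finset.sum_product, Finset.sum_mul]
        refine Finset.sum_congr rfl fun m _ => ?_
        rw [Finset.mul_sum]
        refine Finset.sum_congr rfl fun n _ => ?_
        rw [one_div_mul_one_div]
    _ ≤ 2 * 2 := by
        have h1 := sum_inv_sq M
        have h2 : 0 ≤ ∑ m ∈ Finset.range M, 1 / ((m:ℝ) + 1) ^ 2 :=
          Finset.sum_nonneg fun _ _ => by positivity
        gcongr
    _ = 4 := by norm_num

theorem sum_tail_le {g : ℝ → ℝ} {s : ℝ} (hg : Pot g s) (W : Finset (ℕ × ℕ))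
    (hW : ∀ v ∈ W, 1 ≤ v.1 ∧ v ≠ (1, 0)) :
    ∑ v ∈ W, g (3 * qn v) * ((v.1 + v.2 : ℕ) : ℝ) ^ 8 ≤ g 3 * (4 / 10 ^ 12) := by
  have hg3 : 0 ≤ g 3 := hg.pos 3 (by norm_num)
  calc ∑ v ∈ W, g (3 * qn v) * ((v.1 + v.2 : ℕ) : ℝ) ^ 8
      ≤ ∑ v ∈ W, g 3 / 10 ^ 12 * (1 / (((v.1:ℝ) + 1) ^ 2 * ((v.2:ℝ) + 1) ^ 2)) := by
        refine Finset.sum_le_sum fun v hv => ?_
        obtain ⟨hv1, hv2⟩ := hW v hv
        have hw := weight_le hv1 hv2
        have hq3 := (qn_ge hv1 hv2).1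
        have hdec := hg.dec (qn v) hq3
        have hgq : 0 ≤ g (3 * qn v) := hg.pos _ (by positivity)
        have hwt : 0 ≤ 1 / (((v.1:ℝ) + 1) ^ 2 * ((v.2:ℝ) + 1) ^ 2) := by positivity
        have a1 := mul_le_mul_of_nonneg_left hw hgq
        have a2 := mul_le_mul_of_nonneg_right hdec hwt
        rw [div_mul_eq_mul_div, le_div_iff₀ (by positivity)]
        calc g (3 * qn v) * ((v.1 + v.2 : ℕ) : ℝ) ^ 8 * 10 ^ 12
            = g (3 * qn v) * (((v.1 + v.2 : ℕ) : ℝ) ^ 8 * 10 ^ 12) := by ring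
          _ ≤ _ := a1
          _ = g (3 * qn v) * (qn v : ℝ) ^ 200 *
              (1 / (((v.1:ℝ) + 1) ^ 2 * ((v.2:ℝ) + 1) ^ 2)) := by ring
          _ ≤ _ := a2
    _ = g 3 / 10 ^ 12 * ∑ v ∈ W, 1 / (((v.1:ℝ) + 1) ^ 2 * ((v.2:ℝ) + 1) ^ 2) := by
        rw [Finset.mul_sum]
    _ ≤ g 3 / 10 ^ 12 * 4 := by
        have := sum_weights W
        gcongr
    _ = _ := by ring

section

variable {ι : Type*} [Fintype ι] [DecidableEq ι] {L : Submodule ℤ ℂ} [DiscreteTopology L]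
  [IsZLattice ℝ L] {x : ι → ℂ}
  (hS : Sep L x) {Z : ι → Finset ℂ}
  (hZ : ∀ i z, z ∈ Z i ↔ z ∈ Vec L x i ∧ z ≠ 0 ∧ ‖z‖ < 2)
  {N : ℝ} (hN : ZLattice.covolume L = N * (3 * √3 / 2)) (hN1 : (Fintype.card ι : ℝ) ≤ N)
  {τ : Perm (ι × Fin 6)} (hτ : ∀ f, Dom L x f → τ f = nx L x f)

/-- tolerance of a word -/
noncomputable def eta (v : ℕ × ℕ) : ℝ := 1 / (100 * ((v.1 + v.2 : ℕ) : ℝ) ^ 2)

open Classical in
/-- the finite set of regular flags -/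
noncomputable def RS (L : Submodule ℤ ℂ) (x : ι → ℂ) (τ : Perm (ι × Fin 6)) (v : ℕ × ℕ) :
    Finset (ι × Fin 6) :=
  Finset.univ.filter fun f => Reg L x τ (eta v) v.1 v.2 f

theorem mem_RS {v : ℕ × ℕ} {f : ι × Fin 6} : f ∈ RS L x τ v ↔ Reg L x τ (eta v) v.1 v.2 f := by
  simp [RS]

theorem eta_nonneg (v : ℕ × ℕ) : 0 ≤ eta v := by unfold eta; positivity

include hτ in
theorem RS_near {v : ℕ × ℕ} (h1 : 1 ≤ v.1) {f : ι × Fin 6} (hf : f ∈ RS L x τ v) :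
    ‖dsp (V (sg ι) τ (dd L x) v.1 v.2) f - (v.1 + v.2 * om) * dd L x f‖ ≤ 6 / 100 := by
  have h := mem_RS.mp hf
  have h2 := (path hτ (eta_nonneg v) v.1 v.2 h.1 h.2.1).2.1
  refine h2.trans (le_of_eq ?_)
  unfold eta
  have : (0:ℝ) < (v.1:ℝ) + v.2 := by
    have : (1:ℝ) ≤ v.1 := by exact_mod_cast h1
    positivity
  push_cast
  field_simp

include hτ in
theorem RS_far {v : ℕ × ℕ} (h1 : 1 ≤ v.1) (h2 : v ≠ (1, 0)) {f : ι × Fin 6}
    (hf : f ∈ RS L x τ v) : 2 ≤ ‖dsp (V (sg ι) τ (dd L x) v.1 v.2) f‖ := by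
  have h := mem_RS.mp hf
  have hg : gd L x f.1 := (h.2.2 0 (by norm_num)).1
  exact far_target (norm_dd_bounds hg).1 h1 (by simpa using h2)
    ((RS_near hτ h1 hf).trans (by norm_num))

include hS hZ hτ in
theorem card_RS {v : ℕ × ℕ} (h1 : 1 ≤ v.1) : 6 * (Fintype.card ι : ℝ) -
    330000 * ((v.1 + v.2 : ℕ) : ℝ) ^ 5 * (nbad L x + S2 L x) ≤ (RS L x τ v).card := by
  classical
  have h := card_irr hτ hS hZ (m := v.1) (n := v.2) (by omega) (η := eta v) rfl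
  have h2 : (RS L x τ v).card + (Finset.univ.filter fun f => ¬ Reg L x τ (eta v) v.1 v.2 f).card =
      6 * Fintype.card ι := by
    have : RS L x τ v = Finset.univ.filter fun f => Reg L x τ (eta v) v.1 v.2 f := by
      unfold RS
      congr!
    rw [this, Finset.card_filter_add_card_filter_not, Finset.card_univ, Fintype.card_prod,
      Fintype.card_fin, mul_comm]
  have h3 : ((RS L x τ v).card : ℝ) +
      (Finset.univ.filter fun f => ¬ Reg L x τ (eta v) v.1 v.2 f).card =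
      6 * Fintype.card ι := by exact_mod_cast h2
  linarith

include hS hZ hN hN1 hτ

/-- **One shell.** -/
theorem shell {g : ℝ → ℝ} {s : ℝ} (hg : Pot g s) (hs : 66 ≤ s) {v : ℕ × ℕ} (h1 : 1 ≤ v.1)
    (h2 : v ≠ (1, 0)) :
    g (3 * qn v) * (6 * N - 1500000 * s * ((v.1 + v.2 : ℕ) : ℝ) ^ 8 *
      ((N - Fintype.card ι) + nbad L x + S2 L x)) ≤
      ∑ f ∈ RS L x τ v, g (‖dsp (V (sg ι) τ (dd L x) v.1 v.2) f‖ ^ 2) := by
  obtain ⟨hq3, hS2'⟩ := qn_ge h1 h2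
  obtain ⟨s', hs0, hs1, htan⟩ := hg.tanq (qn v) hq3
  have hcard := card_RS hS hZ hτ h1 (v := v)
  have hqS := qn_le v
  have hDD := DD_V_le (sg ι) τ (dd L x) (rel_one hS hτ) (rel_two hS hτ) norm_dd_le v.1 v.2
  have hdd := sum_dd_le hS hZ hN
  have hdom : (ndom L x : ℝ) ≤ 12 * nbad L x := by exact_mod_cast ndom_le hS hZ
  have hgq : 0 ≤ g (3 * qn v) := hg.pos _ (by positivity)
  have hR : ∑ f ∈ RS L x τ v, ‖dsp (V (sg ι) τ (dd L x) v.1 v.2) f‖ ^ 2 ≤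
      DD (V (sg ι) τ (dd L x) v.1 v.2) :=
    Finset.sum_le_sum_of_subset_of_nonneg (Finset.subset_univ _) fun _ _ _ => by positivity
  have hsum : g (3 * qn v) * ((RS L x τ v).card * (1 + 3 * qn v * s') -
      s' * ∑ f ∈ RS L x τ v, ‖dsp (V (sg ι) τ (dd L x) v.1 v.2) f‖ ^ 2) ≤
      ∑ f ∈ RS L x τ v, g (‖dsp (V (sg ι) τ (dd L x) v.1 v.2) f‖ ^ 2) := by
    have : ∑ f ∈ RS L x τ v, g (3 * qn v) *
        (1 - s' * (‖dsp (V (sg ι) τ (dd L x) v.1 v.2) f‖ ^ 2 - 3 * qn v)) ≤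
        ∑ f ∈ RS L x τ v, g (‖dsp (V (sg ι) τ (dd L x) v.1 v.2) f‖ ^ 2) := by
      refine Finset.sum_le_sum fun f hf => htan _ ?_
      have := RS_far hτ h1 h2 hf
      positivity
    refine le_trans (le_of_eq ?_) this
    rw [← Finset.mul_sum, Finset.sum_sub_distrib, ← Finset.mul_sum, Finset.sum_sub_distrib,
      Finset.sum_const, Finset.sum_const]
    simp only [nsmul_eq_mul]
    ring
  refine le_trans ?_ hsum
  refine mul_le_mul_of_nonneg_left ?_ hgq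
  have hnb : (0:ℝ) ≤ nbad L x := by positivity
  have hS2n := S2_nonneg L x
  set S : ℝ := ((v.1 + v.2 : ℕ) : ℝ) with hSd
  have hSe : (v.1:ℝ) + v.2 = S := by rw [hSd]; push_cast; ring
  have hS2 : 2 ≤ S := by rw [hSd]; exact_mod_cast hS2'
  set q : ℝ := (qn v : ℝ) with hqd
  have hqe : (v.1:ℝ) ^ 2 + v.1 * v.2 + v.2 ^ 2 = q := by rw [hqd]; unfold qn; push_cast; ring
  rw [hqe, hSe] at hDD
  have hq0 : 0 ≤ q := by positivity
  set n0 : ℝ := (Fintype.card ι : ℝ) with hn0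
  set nb : ℝ := (nbad L x : ℝ)
  set e2 : ℝ := S2 L x
  set D0 := ∑ f, ‖dd L x f‖ ^ 2
  set Θ : ℝ := (N - n0) + nb + e2 with hΘ
  have hm' : 0 ≤ N - n0 := by linarith
  have hΘ0 : 0 ≤ Θ := by positivity
  have p5 : S ^ 5 ≤ S ^ 8 := pow_le_pow_right₀ (by linarith) (by norm_num)
  have p7 : S ^ 7 ≤ S ^ 8 := pow_le_pow_right₀ (by linarith) (by norm_num)
  have p2 : S ^ 2 ≤ S ^ 8 := pow_le_pow_right₀ (by linarith) (by norm_num)
  have p0 : 1 ≤ S ^ 8 := one_le_pow₀ (by linarith)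
  have hsS : 0 ≤ s * S ^ 8 := by positivity
  have hDD' : DD (V (sg ι) τ (dd L x) v.1 v.2) ≤ q * (18 * n0 + 18 * (N - n0) + e2) +
      264 * nb * S ^ 8 := by
    refine hDD.trans ?_
    have a1 : q * D0 ≤ q * (18 * n0 + 18 * (N - n0) + e2) := mul_le_mul_of_nonneg_left hdd hq0
    have a2 : 11 * ((2 * ndom L x : ℕ) : ℝ) * S ^ 8 ≤ 264 * nb * S ^ 8 := by
      refine mul_le_mul_of_nonneg_right ?_ (by positivity)
      push_cast
      linarith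
    linarith
  have hlow : (6 * n0 - 330000 * S ^ 5 * (nb + e2)) * (1 + 3 * q * s') -
      s' * (q * (18 * n0 + 18 * (N - n0) + e2) + 264 * nb * S ^ 8) ≤
      (RS L x τ v).card * (1 + 3 * q * s') -
      s' * ∑ f ∈ RS L x τ v, ‖dsp (V (sg ι) τ (dd L x) v.1 v.2) f‖ ^ 2 := by
    have b1 : (6 * n0 - 330000 * S ^ 5 * (nb + e2)) * (1 + 3 * q * s') ≤
        (RS L x τ v).card * (1 + 3 * q * s') :=
      mul_le_mul_of_nonneg_right hcard (by positivity)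
    have b2 : s' * ∑ f ∈ RS L x τ v, ‖dsp (V (sg ι) τ (dd L x) v.1 v.2) f‖ ^ 2 ≤
        s' * (q * (18 * n0 + 18 * (N - n0) + e2) + 264 * nb * S ^ 8) :=
      mul_le_mul_of_nonneg_left (hR.trans hDD') hs0
    linarith
  refine le_trans ?_ hlow
  have c1 : 330000 * S ^ 5 * (nb + e2) ≤ 330000 * S ^ 8 * Θ := by
    have : nb + e2 ≤ Θ := by rw [hΘ]; linarith
    gcongr
  have c1' : 330000 * S ^ 8 * Θ ≤ 5000 * s * S ^ 8 * Θ := by
    have : (330000:ℝ) ≤ 5000 * s := by linarith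
    gcongr
  have c2 : 3 * q * s' * (330000 * S ^ 5 * (nb + e2)) ≤ 990000 * s * S ^ 8 * Θ := by
    have t1 : 330000 * S ^ 5 * (nb + e2) ≤ 330000 * S ^ 5 * Θ := by
      have : nb + e2 ≤ Θ := by rw [hΘ]; linarith
      gcongr
    calc 3 * q * s' * (330000 * S ^ 5 * (nb + e2)) ≤ 3 * S ^ 2 * s * (330000 * S ^ 5 * Θ) := by
          gcongr
      _ = 990000 * s * S ^ 7 * Θ := by ring
      _ ≤ 990000 * s * S ^ 8 * Θ := by gcongr
  have c3 : s' * (q * (18 * (N - n0) + e2)) ≤ 18 * s * S ^ 8 * Θ := by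
    have t1 : 18 * (N - n0) + e2 ≤ 18 * Θ := by rw [hΘ]; linarith
    calc s' * (q * (18 * (N - n0) + e2)) ≤ s * (S ^ 2 * (18 * Θ)) := by gcongr
      _ = 18 * s * S ^ 2 * Θ := by ring
      _ ≤ 18 * s * S ^ 8 * Θ := by gcongr
  have c4 : s' * (264 * nb * S ^ 8) ≤ 264 * s * S ^ 8 * Θ := by
    have t1 : nb ≤ Θ := by rw [hΘ]; linarith
    calc s' * (264 * nb * S ^ 8) ≤ s * (264 * Θ * S ^ 8) := by gcongr
      _ = _ := by ring
  have c5 : 6 * (N - n0) ≤ s * S ^ 8 * Θ := by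
    have t1 : N - n0 ≤ Θ := by rw [hΘ]; linarith
    have t2 : 6 * Θ ≤ s * S ^ 8 * Θ := by
      refine mul_le_mul_of_nonneg_right ?_ hΘ0
      nlinarith
    linarith
  have expand : (6 * n0 - 330000 * S ^ 5 * (nb + e2)) * (1 + 3 * q * s') -
      s' * (q * (18 * n0 + 18 * (N - n0) + e2) + 264 * nb * S ^ 8) =
      6 * N - 6 * (N - n0) - 330000 * S ^ 5 * (nb + e2) -
        3 * q * s' * (330000 * S ^ 5 * (nb + e2)) - s' * (q * (18 * (N - n0) + e2)) -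
        s' * (264 * nb * S ^ 8) := by ring
  rw [expand]
  have : 1500000 * s * S ^ 8 * Θ = 5000 * s * S ^ 8 * Θ + 990000 * s * S ^ 8 * Θ +
      18 * s * S ^ 8 * Θ + 264 * s * S ^ 8 * Θ + s * S ^ 8 * Θ + 504717 * (s * S ^ 8 * Θ) := by ring
  have h0 : 0 ≤ s * S ^ 8 * Θ := by positivity
  linarith

/-- **The main inequality** -/
theorem main_ineq {g : ℝ → ℝ} {s : ℝ} (hg : Pot g s) (hs : 66 ≤ s) (W : Finset (ℕ × ℕ))
    (hW : ∀ v ∈ W, 1 ≤ v.1 ∧ v ≠ (1, 0)) :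
    N * (6 * g 3 + ∑ v ∈ W, 6 * g (3 * qn v)) - 20 * s * (N - Fintype.card ι) * g 3 +
      s / 50000 * (nbad L x + S2 L x) * g 3 ≤
      ∑ i, ∑ z ∈ Z i, g (‖z‖ ^ 2) +
        ∑ v ∈ W, ∑ f ∈ RS L x τ v, g (‖dsp (V (sg ι) τ (dd L x) v.1 v.2) f‖ ^ 2) := by
  have hg3 : 0 ≤ g 3 := hg.pos 3 (by norm_num)
  set Θ : ℝ := (N - Fintype.card ι) + nbad L x + S2 L x with hΘ
  have hm' : 0 ≤ N - Fintype.card ι := by linarith
  have hnb : (0:ℝ) ≤ nbad L x := by positivity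
  have hS2n := S2_nonneg L x
  have hΘ0 : 0 ≤ Θ := by positivity
  have h1 := first_shell hS hZ hN (s := s) (by linarith)
  have h2 : g 3 * ∑ i, ∑ z ∈ Z i, exp (-(s * (‖z‖ ^ 2 - 3))) ≤ ∑ i, ∑ z ∈ Z i, g (‖z‖ ^ 2) := by
    rw [Finset.mul_sum]
    refine Finset.sum_le_sum fun i _ => ?_
    rw [Finset.mul_sum]
    refine Finset.sum_le_sum fun z hz => hg.tan3 _ ?_
    have := Z_low hS hZ z hz
    positivity
  have h3 := mul_le_mul_of_nonneg_left h1 hg3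
  have h4 : ∑ v ∈ W, g (3 * qn v) * (6 * N - 1500000 * s * ((v.1 + v.2 : ℕ) : ℝ) ^ 8 * Θ) ≤
      ∑ v ∈ W, ∑ f ∈ RS L x τ v, g (‖dsp (V (sg ι) τ (dd L x) v.1 v.2) f‖ ^ 2) :=
    Finset.sum_le_sum fun v hv => shell hS hZ hN hN1 hτ hg hs (hW v hv).1 (hW v hv).2
  have h5 := sum_tail_le hg W hW
  have h6 : ∑ v ∈ W, g (3 * qn v) * (6 * N - 1500000 * s * ((v.1 + v.2 : ℕ) : ℝ) ^ 8 * Θ) =
      N * ∑ v ∈ W, 6 * g (3 * qn v) -
        1500000 * s * Θ * ∑ v ∈ W, g (3 * qn v) * ((v.1 + v.2 : ℕ) : ℝ) ^ 8 := by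
    rw [Finset.mul_sum, Finset.mul_sum, ← Finset.sum_sub_distrib]
    refine Finset.sum_congr rfl fun v _ => ?_
    ring
  have h7 : 1500000 * s * Θ * ∑ v ∈ W, g (3 * qn v) * ((v.1 + v.2 : ℕ) : ℝ) ^ 8 ≤
      s * Θ * g 3 / 150000 := by
    calc _ ≤ 1500000 * s * Θ * (g 3 * (4 / 10 ^ 12)) := by gcongr
      _ ≤ s * Θ * g 3 / 150000 := by
          have : 0 ≤ s * Θ * g 3 := by positivity
          nlinarith
  rw [h6] at h4
  have h8 : s * Θ * g 3 / 150000 = g 3 * (s / 150000 * (N - Fintype.card ι)) +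
      g 3 * (s / 150000 * nbad L x) + g 3 * (s / 150000 * S2 L x) := by rw [hΘ]; ring
  have h9 : g 3 * (s / 150000 * S2 L x) + g 3 * (s / 50000 * S2 L x) ≤
      g 3 * (s / 10 * S2 L x) := by
    have : 0 ≤ g 3 * (s * S2 L x) := by positivity
    nlinarith
  have h9' : g 3 * (s / 150000 * nbad L x) + g 3 * (s / 50000 * nbad L x) ≤
      g 3 * (s / 25000 * nbad L x) := by
    have : 0 ≤ g 3 * (s * nbad L x) := by positivity
    nlinarith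
  have h10 : g 3 * (6 * (N - Fintype.card ι) + 18 * s * (N - Fintype.card ι) +
      s / 150000 * (N - Fintype.card ι)) ≤ 20 * s * (N - Fintype.card ι) * g 3 := by
    have : (6 * (N - Fintype.card ι) + 18 * s * (N - Fintype.card ι) +
      s / 150000 * (N - Fintype.card ι)) ≤ 20 * s * (N - Fintype.card ι) := by
      have : (6 + 18 * s + s / 150000) * (N - Fintype.card ι) ≤ 20 * s * (N - Fintype.card ι) := by
        refine mul_le_mul_of_nonneg_right (by linarith) hm'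
      linarith
    nlinarith
  have h11 : g 3 * (6 * (Fintype.card ι : ℝ) - 18 * s * (N - Fintype.card ι) +
      s / 25000 * nbad L x + s / 10 * S2 L x) = g 3 * (6 * N) - g 3 * (6 * (N - Fintype.card ι) +
        18 * s * (N - Fintype.card ι) + s / 150000 * (N - Fintype.card ι)) +
        g 3 * (s / 150000 * (N - Fintype.card ι)) + g 3 * (s / 25000 * nbad L x) +
        g 3 * (s / 10 * S2 L x) := by ring
  rw [h11] at h3
  have h12 : N * (6 * g 3 + ∑ v ∈ W, 6 * g (3 * qn v)) = g 3 * (6 * N) +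
      N * ∑ v ∈ W, 6 * g (3 * qn v) := by ring
  have h13 : s / 50000 * (nbad L x + S2 L x) * g 3 = g 3 * (s / 50000 * nbad L x) +
      g 3 * (s / 50000 * S2 L x) := by ring
  rw [h12, h13]
  linarith

end

end Pool.Agent.H96.UO
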